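import Pool.Agent.Mg.F2e8011.G5feac5

/-! Two cliques: realisation of a doubly lifted sign matrix for every radius. -/

namespace Pool.Agent.MP_485bb6_lc.Co

open Filter Topology Finset

/-- Space coordinates. -/
def co (z g : ℝ) (f : ℕ → ℝ) : ℕ → ℝ
  | 0 => z
  | 1 => g
  | i + 2 => f i

/-- `t` is the time coordinate. -/
def Tm (m : ℕ) (t z g : ℝ) (f : ℕ → ℝ) : Prop :=
  0 < t ∧ t ^ 2 = 1 + z ^ 2 + g ^ 2 + ∑ i ∈ range m, f i ^ 2

variable {m : ℕ} {t z g T Z G : ℝ} {f F : ℕ → ℝ}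

lemma sqrt_co (h : Tm m t z g f) : √(1 + ∑ i ∈ range (m + 2), co z g f i ^ 2) = t := by
  rw [← Real.sqrt_sq h.1.le, h.2]
  simp only [sum_range_succ', co]
  congr 1
  ring

lemma hB_co (h : Tm m t z g f) (h' : Tm m T Z G F) :
    hB (liftH (m + 2) (co z g f)) (liftH (m + 2) (co Z G F)) =
      t * T - z * Z - g * G - ∑ i ∈ range m, f i * F i := by
  rw [hB_liftH, sqrt_co h, sqrt_co h']
  simp only [sum_range_succ', co]
  ring

lemma hB_le (h : Tm m t z g f) (h' : Tm m T Z G F) :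
    hB (liftH (m + 2) (co z g f)) (liftH (m + 2) (co Z G F)) ≤
      ((t + T) ^ 2 - (z + Z) ^ 2) / 2 - 1 := by
  have h1 : 0 ≤ ∑ i ∈ range m, (f i + F i) ^ 2 := sum_nonneg fun i _ => sq_nonneg _
  have h2 : ∑ i ∈ range m, (f i + F i) ^ 2 = ∑ i ∈ range m, f i ^ 2 + ∑ i ∈ range m, F i ^ 2 +
      2 * ∑ i ∈ range m, f i * F i := by
    rw [mul_sum, ← sum_add_distrib, ← sum_add_distrib]
    exact sum_congr rfl fun i _ => by ring
  rw [hB_co h h']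
  nlinarith [h.2, h'.2, sq_nonneg (g + G)]

lemma hB_zero (h : Tm m t z g f) : hB (hyp0 (m + 2)) (liftH (m + 2) (co z g f)) = t := by
  rw [hyp0, hB_liftH, sqrt_co h]
  simp

lemma pm_sq (b : Bool) : pm b ^ 2 = 1 := by cases b <;> simp [pm]

lemma dom {x y R : ℝ} (b : Bool) (hy : 0 ≤ y) (h : x ^ 2 < y ^ 2) :
    R - x - y * pm b ≤ R ↔ b = true := by
  have := abs_lt.1 (abs_lt_of_sq_lt_sq h hy)
  cases b <;> simp [pm] <;> linarith [this.1, this.2]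

lemma consts {R : ℝ} (hR : 1 < R) : ∃ t0 T0 Z0 : ℝ, 1 < t0 ∧ 0 < T0 ∧ t0 * T0 = R ∧
    T0 ^ 2 - Z0 ^ 2 = t0 ^ 2 ∧ 2 * t0 ^ 2 - 1 < R := by
  have h1 : √((R + 3) / 4) ^ 2 = (R + 3) / 4 := Real.sq_sqrt (by linarith)
  have h2 : 1 < √((R + 3) / 4) := Real.lt_sqrt_of_sq_lt (by linarith)
  generalize √((R + 3) / 4) = s at h1 h2
  have h3 : s * (R / s) = R := by field_simp
  have h4 : s ≤ R / s := by
    rw [le_div_iff₀ (by linarith)]
    nlinarith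
  refine ⟨s, R / s, √((R / s) ^ 2 - s ^ 2), h2, by linarith, h3, ?_, by linarith⟩
  rw [Real.sq_sqrt (by nlinarith)]
  ring

theorem coReal (hm : 1 ≤ m) {P L : Type} {SP : Set P} {SL : Set L} (hP : SP.Finite)
    (hL : SL.Finite) {M : P → L → Bool} (y1 y2 : P → ℝ) (τ : P → ℕ → Bool) (α ν : L → ℝ)
    (k : L → ℕ) (h0 : ∀ p ∈ SP, ∀ l ∈ SL, k l = 0 → sgn (M p l) (α l + y1 p + ν l * y2 p))
    (h1 : ∀ l ∈ SL, k l ≠ 0 → k l ≤ m ∧ α l = 0 ∧ ν l = 0 ∧ ∀ p ∈ SP, M p l = τ p (k l - 1))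
    {R : ℝ} (hR : 1 < R) :
    ∃ (c : Option P → Hyp (m + 2)) (a : L → Bool → Hyp (m + 2)),
      (∀ o ∈ insert none (some '' SP), hB (hyp0 _) (c o) ≤ R ∧
        ∀ o' ∈ insert none (some '' SP), hB (c o) (c o') ≤ R) ∧
      ∀ l ∈ SL, ∀ σ, hB (hyp0 _) (a l σ) ≤ R ∧ (∀ l' ∈ SL, ∀ σ', hB (a l σ) (a l' σ') ≤ R) ∧
        (hB (c none) (a l σ) ≤ R ↔ σ = true) ∧
        ∀ p ∈ SP, (hB (c (some p)) (a l σ) ≤ R ↔ M p l = true) := by
  obtain ⟨t0, T0, Z0, k1, k2, k3, k4, k5⟩ := consts hR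
  have hm' : (0 : ℝ) < m := by exact_mod_cast hm
  have hρ : 0 < t0 ^ 2 - 1 := by nlinarith
  have hS : (insert none (some '' SP)).Finite := (hP.image _).insert _
  obtain ⟨ψ, hψ0, hψ⟩ : ∃ ψ : ℝ, 0 < ψ ∧ ψ ^ 2 = (t0 ^ 2 - 1) / 2 :=
    ⟨√((t0 ^ 2 - 1) / 2), Real.sqrt_pos.2 (by linarith), Real.sq_sqrt (by linarith)⟩
  obtain ⟨tP, htP⟩ : ∃ tP : Option P → ℝ → ℝ, tP = fun o ε =>
    t0 + (ε * o.elim 0 y2 * Z0 - ε ^ 2 * o.elim 0 y1) / T0 := ⟨_, rfl⟩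
  obtain ⟨zP, hzP⟩ : ∃ zP : Option P → ℝ → ℝ, zP = fun o ε => ε * o.elim 0 y2 := ⟨_, rfl⟩
  obtain ⟨tL, htL⟩ : ∃ tL : L → ℝ → ℝ, tL = fun l ε => T0 - ε ^ 2 * α l / t0 := ⟨_, rfl⟩
  obtain ⟨zL, hzL⟩ : ∃ zL : L → ℝ → ℝ, zL = fun l ε => Z0 + ε * ν l := ⟨_, rfl⟩
  have c1 : ∀ o, Continuous (tP o) := fun o => by rw [htP]; fun_prop
  have c2 : ∀ o, Continuous (zP o) := fun o => by rw [hzP]; fun_prop
  have c3 : ∀ l, Continuous (tL l) := fun l => by rw [htL]; fun_prop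
  have c4 : ∀ l, Continuous (zL l) := fun l => by rw [hzL]; fun_prop
  have v1 : ∀ o, tP o 0 = t0 := fun o => by simp [htP]
  have v2 : ∀ o, zP o 0 = 0 := fun o => by simp [hzP]
  have v3 : ∀ l, tL l 0 = T0 := fun l => by simp [htL]
  have v4 : ∀ l, zL l 0 = Z0 := fun l => by simp [hzL]
  have E1 : ∀ᶠ ε in 𝓝[>] (0 : ℝ), ∀ o ∈ insert none (some '' SP), 0 < tP o ε ∧ tP o ε < R ∧
      0 < (tP o ε ^ 2 - zP o ε ^ 2 - 1) / m * ψ ^ 2 - (ε ^ 2 * o.elim 0 y1) ^ 2 ∧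
      ∀ o' ∈ insert none (some '' SP),
        ((tP o ε + tP o' ε) ^ 2 - (zP o ε + zP o' ε) ^ 2) / 2 - 1 < R := by
    refine (eventually_all_finite hS).2 fun o _ => (ev_gt0 (c1 o) ?_).and
      ((ev_lt0 (c1 o) ?_).and ((ev_gt0 (by fun_prop) ?_).and
        ((eventually_all_finite hS).2 fun o' _ => ev_lt0 (by fun_prop) ?_)))
    · rw [v1]; linarith
    · rw [v1]; nlinarith
    · rw [v1, v2]
      have : 0 < (t0 ^ 2 - 1) / m * ψ ^ 2 := by positivity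
      simpa using this
    · rw [v1, v1, v2, v2]; linarith
  have E2 : ∀ᶠ ε in 𝓝[>] (0 : ℝ), ∀ l ∈ SL, 0 < tL l ε ∧ tL l ε < R ∧
      0 < (t0 ^ 2 - 1) * (tL l ε ^ 2 - zL l ε ^ 2 - 1 - if k l = 0 then 0 else ψ ^ 2) -
        (ε ^ 2 * α l) ^ 2 ∧
      (∀ l' ∈ SL, ((tL l ε + tL l' ε) ^ 2 - (zL l ε + zL l' ε) ^ 2) / 2 - 1 < R) ∧
      ∀ p ∈ SP, k l = 0 → sgn (M p l) (α l * tP (some p) ε / t0 + y1 p + ν l * y2 p) := by
    refine (eventually_all_finite hL).2 fun l hl => (ev_gt0 (c3 l) ?_).and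
      ((ev_lt0 (c3 l) ?_).and ((ev_gt0 (by fun_prop) ?_).and
        (((eventually_all_finite hL).2 fun l' _ => ev_lt0 (by fun_prop) ?_).and
          ((eventually_all_finite hP).2 fun p hp => ?_))))
    · rwa [v3]
    · rw [v3]; nlinarith
    · rw [v3, v4, k4, hψ]
      split_ifs <;> nlinarith
    · rw [v3, v3, v4, v4]; linarith
    · by_cases hk : k l = 0
      · refine (ev_sgn0 (b := M p l) (g := fun ε => α l * tP (some p) ε / t0 + y1 p + ν l * y2 p)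
          (by fun_prop) ?_).mono fun ε h _ => h
        rw [v1, mul_div_cancel_right₀ _ (by linarith)]
        exact h0 p hp l hl hk
      · exact Eventually.of_forall fun ε h => absurd h hk
  obtain ⟨ε, ⟨e1, e2⟩, hε⟩ := ((E1.and E2).and self_mem_nhdsWithin).exists
  have hε : 0 < ε := hε
  obtain ⟨φ, hφ⟩ : ∃ φ : Option P → ℝ, φ = fun o => √((tP o ε ^ 2 - zP o ε ^ 2 - 1) / m) := ⟨_, rfl⟩
  obtain ⟨Γ, hΓ⟩ : ∃ Γ : L → ℝ, Γ = fun l =>
    √(tL l ε ^ 2 - zL l ε ^ 2 - 1 - if k l = 0 then 0 else ψ ^ 2) := ⟨_, rfl⟩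
  have f0 : ∀ o, 0 ≤ φ o := fun o => by rw [hφ]; exact Real.sqrt_nonneg _
  have g0 : ∀ l, 0 ≤ Γ l := fun l => by rw [hΓ]; exact Real.sqrt_nonneg _
  have f1 : ∀ o ∈ insert none (some '' SP), φ o ^ 2 = (tP o ε ^ 2 - zP o ε ^ 2 - 1) / m := by
    intro o ho
    rw [hφ]
    refine Real.sq_sqrt (le_of_lt (pos_of_mul_pos_left ?_ (sq_nonneg ψ)))
    linarith [(e1 o ho).2.2.1, sq_nonneg (ε ^ 2 * o.elim 0 y1)]
  have g1 : ∀ l ∈ SL, Γ l ^ 2 = tL l ε ^ 2 - zL l ε ^ 2 - 1 - if k l = 0 then 0 else ψ ^ 2 := by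
    intro l hl
    rw [hΓ]
    refine Real.sq_sqrt (le_of_lt (pos_of_mul_pos_right ?_ hρ.le))
    linarith [(e2 l hl).2.2.1, sq_nonneg (ε ^ 2 * α l)]
  have γ1 : √(t0 ^ 2 - 1) ^ 2 = t0 ^ 2 - 1 := Real.sq_sqrt hρ.le
  have tn : tP none ε = t0 := by simp [htP]
  have zn : zP none ε = 0 := by simp [hzP]
  have sE : ∀ l ∈ SL, ∀ u : ℕ → ℝ, ∑ i ∈ range m, u i * (if k l = i + 1 then ψ else 0) =
      if k l = 0 then 0 else u (k l - 1) * ψ := by
    intro l hl u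
    split_ifs with hk
    · simp [hk]
    · have := (h1 l hl hk).1
      rw [sum_eq_single (k l - 1)]
      · rw [if_pos (by omega)]
      · intro i _ hi
        rw [if_neg (by omega), mul_zero]
      · intro hi
        exact absurd (mem_range.2 (by omega)) hi
  obtain ⟨gP, hgP⟩ : ∃ gP : Option P → ℝ, gP = fun o => o.elim √(t0 ^ 2 - 1) fun _ => 0 := ⟨_, rfl⟩
  obtain ⟨fP, hfP⟩ : ∃ fP : Option P → ℕ → ℝ,
    fP = fun o i => o.elim 0 fun p => φ (some p) * pm (τ p i) := ⟨_, rfl⟩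
  have T1 : ∀ o ∈ insert none (some '' SP), Tm m (tP o ε) (zP o ε) (gP o) (fP o) := by
    intro o ho
    refine ⟨(e1 o ho).1, ?_⟩
    cases o with
    | none => simp [tn, zn, hgP, hfP, γ1]
    | some p =>
      simp only [hgP, hfP, Option.elim_some, mul_pow, pm_sq, mul_one, sum_const, card_range,
        nsmul_eq_mul, f1 _ ho]
      field_simp
      ring
  have T2 : ∀ l ∈ SL, ∀ σ, Tm m (tL l ε) (zL l ε) (pm σ * Γ l)
      fun i => if k l = i + 1 then ψ else 0 := by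
    intro l hl σ
    refine ⟨(e2 l hl).1, ?_⟩
    have := sE l hl fun i => if k l = i + 1 then ψ else 0
    simp only [← sq] at this
    rw [this, mul_pow, pm_sq, g1 l hl]
    split_ifs with a b
    · ring
    · ring
    · omega
  refine ⟨fun o => liftH _ (co (zP o ε) (gP o) (fP o)),
    fun l σ => liftH _ (co (zL l ε) (pm σ * Γ l) fun i => if k l = i + 1 then ψ else 0),
    fun o ho => ⟨?_, fun o' ho' => ?_⟩, fun l hl σ => ⟨?_, fun l' hl' σ' => ?_, ?_, fun p hp => ?_⟩⟩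
  · exact (hB_zero (T1 o ho)).trans_le (e1 o ho).2.1.le
  · exact (hB_le (T1 o ho) (T1 o' ho')).trans ((e1 o ho).2.2.2 o' ho').le
  · exact (hB_zero (T2 l hl σ)).trans_le (e2 l hl).2.1.le
  · exact (hB_le (T2 l hl σ) (T2 l' hl' σ')).trans ((e2 l hl).2.2.2.1 l' hl').le
  · rw [hB_co (T1 none (Or.inl rfl)) (T2 l hl σ),
      ← dom (R := R) (x := ε ^ 2 * α l) σ (mul_nonneg (Real.sqrt_nonneg (t0 ^ 2 - 1)) (g0 l))
        (by rw [mul_pow √_, γ1, g1 l hl]; linarith [(e2 l hl).2.2.1])]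
    refine iff_of_eq (congrArg (· ≤ R) ?_)
    simp only [tn, zn, hgP, hfP, htL, Option.elim_none, zero_mul, sum_const_zero, ← k3]
    field_simp
    ring
  · have ho : some p ∈ insert none (some '' SP) := Or.inr ⟨p, hp, rfl⟩
    rw [hB_co (T1 _ ho) (T2 l hl σ), sE l hl]
    by_cases hk : k l = 0
    · have h2 := sgn_pos_mul (pow_pos hε 2) ((e2 l hl).2.2.2.2 p hp hk)
      have h3 : tP (some p) ε * tL l ε - zP (some p) ε * zL l ε - gP (some p) * (pm σ * Γ l) - 0 =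
          R - ε ^ 2 * (α l * tP (some p) ε / t0 + y1 p + ν l * y2 p) := by
        simp only [htP, hzP, htL, hzL, hgP, Option.elim_some, ← k3]
        field_simp
        ring
      rw [if_pos hk, h3]
      cases hM : M p l <;> simp only [hM, sgn_true, sgn_false] at h2 <;> simp <;> linarith
    · obtain ⟨-, a0, n0, hM⟩ := h1 l hl hk
      rw [if_neg hk, hM p hp, ← dom (R := R) (x := ε ^ 2 * y1 p) (τ p (k l - 1))
        (mul_nonneg (f0 (some p)) hψ0.le)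
        (by rw [mul_pow (φ _), f1 _ ho]; have := (e1 _ ho).2.2.1; simp only [Option.elim_some] at this
            linarith)]
      refine iff_of_eq (congrArg (· ≤ R) ?_)
      simp only [htP, hzP, htL, hzL, hgP, hfP, Option.elim_some, a0, n0, ← k3]
      field_simp
      ring

end Pool.Agent.MP_485bb6_lc.Co
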