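import Pool.Agent.MP_485bb6_lc.CoGeo

/-! Two cliques: the graph, soundness, and the reduction. -/

namespace Pool.Agent.MP_485bb6_lc.Co

open Pool.Agent.MP_2e8011_lc

/-- Vertices: points (0), the extra point (1), centres (2). -/
abbrev Vy := ℕ × PP × LL × Bool

/-- The extra point. -/
def qv : Vy := (1, (dcp, []), (dcp, 0), true)

/-- The vertex list. -/
def vyList (m : ℕ) (L : List Quad) : List Vy :=
  (ppList m L).map (fun p => (0, p, (dcp, 0), true)) ++ ([qv] ++
    ((llList m L).map (fun l => (2, (dcp, []), l, true)) ++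
      (llList m L).map (fun l => (2, (dcp, []), l, false))))

/-- Adjacency between the two cliques. -/
def crossY (v w : Vy) : Bool := if v.1 = 0 then liftM v.2.1 w.2.2.1 else w.2.2.2

/-- Adjacency. -/
def adjY (v w : Vy) : Bool :=
  if v.1 = 2 then (if w.1 = 2 then true else crossY w v) else if w.1 = 2 then crossY v w else true

/-- The adjacency matrix of a vertex list. -/
def bitsY (V : List Vy) : List Bool :=
  mat V.length V.length fun i j => decide (i ≠ j) && adjY (V.getD i qv) (V.getD j qv)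

@[fun_prop] theorem pt_crossY : PT fun p : Vy × Vy => crossY p.1 p.2 := by unfold crossY; fun_prop
@[fun_prop] theorem pt_adjY : PT fun p : Vy × Vy => adjY p.1 p.2 := by unfold adjY; fun_prop
@[fun_prop] theorem pt_vyList (m : ℕ) : PT (vyList m) := by
  have := pt_ppList m
  have := pt_llList m
  unfold vyList; fun_prop
@[fun_prop] theorem pt_bitsY : PT bitsY := by unfold bitsY mat; fun_prop

lemma adjY_comm (v w : Vy) : adjY v w = adjY w v := by
  unfold adjY
  split_ifs <;> rfl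

lemma mem_vyList {m : ℕ} {L : List Quad} {v : Vy} : v ∈ vyList m L ↔
    (∃ p ∈ ppList m L, (0, p, (dcp, 0), true) = v) ∨ v = qv ∨
      ∃ l ∈ llList m L, ∃ σ, (2, (dcp, []), l, σ) = v := by
  simp only [vyList, List.mem_append, List.mem_map, List.mem_singleton, Bool.exists_bool]
  refine or_congr_right (or_congr_right ⟨?_, ?_⟩)
  · rintro (⟨l, h, e⟩ | ⟨l, h, e⟩)
    exacts [⟨l, h, Or.inr e⟩, ⟨l, h, Or.inl e⟩]
  · rintro ⟨l, h, e | e⟩
    exacts [Or.inr ⟨l, h, e⟩, Or.inl ⟨l, h, e⟩]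

/-- The graph of a vertex list. -/
def grY (V : List Vy) : SimpleGraph (Fin V.length) where
  Adj i j := i ≠ j ∧ adjY (V.getD i qv) (V.getD j qv) = true
  symm := ⟨fun _ _ h => ⟨h.1.symm, adjY_comm _ _ ▸ h.2⟩⟩
  loopless := ⟨fun _ h => h.1 rfl⟩

lemma code_grY (V : List Vy) : graphCode (grY V) = bitsY V := by
  rw [graphCode_eq, bitsY]
  refine (eq_mat (length_mat _ _ _) fun i hi j hj => ?_).symm
  rw [getD_mat _ _ _ hi hj, dif_pos ⟨hi, hj⟩, Bool.eq_iff_iff]
  simp only [grY, ne_eq, Fin.mk.injEq, Bool.and_eq_true, decide_eq_true_eq]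

lemma cobip (V : List Vy) : (grY V)ᶜ.Colorable 2 := by
  refine ⟨SimpleGraph.Coloring.mk (fun i => if (V.getD i qv).1 = 2 then 1 else 0) ?_⟩
  intro i j h e
  refine h.2 ⟨h.1, ?_⟩
  unfold adjY
  split_ifs at e ⊢ <;> simp_all

theorem real_of_qnear {m : ℕ} (hm : 1 ≤ m) {L : List Quad} (hG : ∀ q ∈ L, QGen q) (h : QNear L)
    {r : ℝ} (hr : 0 < r) : ∃ (o : Hyp (m + 2)) (c : Fin (vyList m L).length → Hyp (m + 2)),
      (∀ v, hdist o (c v) ≤ 2 * r) ∧
        ∀ u v, u ≠ v → ((grY (vyList m L)).Adj u v ↔ hdist (c u) (c v) ≤ 2 * r) := by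
  obtain ⟨y1, y2, α, ν, h1⟩ := affine_of_qnear hG h
  obtain ⟨c, a, h2, h3⟩ := coReal hm (List.finite_toSet (ppList m L))
    (List.finite_toSet (llList m L)) (M := liftM) (fun p => y1 p.1) (fun p => y2 p.1)
    (fun p i => p.2.getD i false) (fun l => if l.2 = 0 then α l.1 else 0)
    (fun l => if l.2 = 0 then ν l.1 else 0) (fun l => l.2)
    (by
      intro p hp l hl hk
      rcases mem_llList.1 hl with ⟨h2, -⟩ | ⟨i, -, rfl⟩
      · simpa [liftM, hk] using h1 p.1 (mem_ppList.1 hp).1 l.1 h2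
      · simp at hk)
    (by
      intro l hl hk
      refine ⟨?_, if_neg hk, if_neg hk, fun p _ => if_neg hk⟩
      rcases mem_llList.1 hl with ⟨-, h2⟩ | ⟨i, hi, rfl⟩
      · exact absurd h2 hk
      · exact hi)
    (R := Real.cosh (2 * r)) (Real.one_lt_cosh.2 (by positivity))
  obtain ⟨x, hx⟩ : ∃ x : Vy → Hyp (m + 2), x = fun v =>
    if v.1 = 0 then c (some v.2.1) else if v.1 = 1 then c none else a v.2.2.1 v.2.2.2 := ⟨_, rfl⟩
  have x0 : ∀ p, x (0, p, (dcp, 0), true) = c (some p) := fun p => by simp [hx]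
  have x1 : x qv = c none := by simp [hx, qv]
  have x2 : ∀ l σ, x (2, (dcp, []), l, σ) = a l σ := fun l σ => by simp [hx]
  have m0 : ∀ p ∈ ppList m L, some p ∈ insert none (some '' {p | p ∈ ppList m L}) :=
    fun p hp => Or.inr ⟨p, hp, rfl⟩
  refine ⟨hyp0 _, fun i => x ((vyList m L).getD i qv), fun i => ?_, fun i j hij => ?_⟩
  · rw [hdist_le_iff _ _ hr]
    beta_reduce
    rcases mem_vyList.1 (getD_mem _ qv i.2) with ⟨p, hp, e⟩ | e | ⟨l, hl, σ, e⟩
    · rw [← e, x0]; exact (h2 _ (m0 p hp)).1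
    · rw [e, x1]; exact (h2 _ (Or.inl rfl)).1
    · rw [← e, x2]; exact (h3 l hl σ).1
  · rw [hdist_le_iff _ _ hr]
    refine (and_iff_right hij).trans ?_
    beta_reduce
    have hv := getD_mem _ qv i.2
    have hw := getD_mem _ qv j.2
    generalize (vyList m L).getD i qv = v at hv ⊢
    generalize (vyList m L).getD j qv = w at hw ⊢
    rcases mem_vyList.1 hv with ⟨p, hp, rfl⟩ | rfl | ⟨l, hl, σ, rfl⟩ <;>
      rcases mem_vyList.1 hw with ⟨p', hp', rfl⟩ | rfl | ⟨l', hl', σ', rfl⟩ <;>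
      simp only [x0, x1, x2]
    · exact iff_of_true rfl ((h2 _ (m0 p hp)).2 _ (m0 p' hp'))
    · exact iff_of_true rfl ((h2 _ (m0 p hp)).2 _ (Or.inl rfl))
    · exact ((h3 l' hl' σ').2.2.2 p hp).symm
    · exact iff_of_true rfl ((h2 _ (Or.inl rfl)).2 _ (m0 p' hp'))
    · exact iff_of_true rfl ((h2 _ (Or.inl rfl)).2 _ (Or.inl rfl))
    · exact (h3 l' hl' σ').2.2.1.symm
    · rw [hB_comm]; exact ((h3 l hl σ).2.2.2 p' hp').symm
    · rw [hB_comm]; exact (h3 l hl σ).2.2.1.symm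
    · exact iff_of_true rfl ((h3 l hl σ).2.1 l' hl' σ')

/-- The functional of a ball. -/
def ballF {d : ℕ} (R : ℝ) (a : Hyp d) : Module.Dual ℝ (ℝ × ℝ × (Fin d → ℝ)) where
  toFun x := x.1 * R - (x.2.1 * a.1.1 - ∑ i, x.2.2 i * a.1.2 i)
  map_add' x y := by
    simp only [Prod.fst_add, Prod.snd_add, Pi.add_apply, add_mul, Finset.sum_add_distrib]
    ring
  map_smul' c x := by
    simp only [Prod.smul_fst, Prod.smul_snd, Pi.smul_apply, smul_eq_mul, RingHom.id_apply,
      mul_assoc, ← Finset.mul_sum]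
    ring

lemma ballF_apply {d : ℕ} (R : ℝ) (a c : Hyp d) : ballF R a (1, c.1) = R - hB c a := by
  simp [ballF, hB]

lemma kill {W : Type} [AddCommGroup W] [Module ℝ W] (q : W) (F G : Module.Dual ℝ W)
    (hF : 0 < F q) (hG : G q < 0) : ∃ H : Module.Dual ℝ (W ⧸ Submodule.span ℝ {q}),
      ∀ b x, sgn b (F x) → sgn b (G x) → sgn b (H (Submodule.Quotient.mk x)) := by
  obtain ⟨s, t, hs, ht, hst, h⟩ := exists_comb hF hG
  refine ⟨(Submodule.span ℝ {q}).liftQ (s • F + t • G) ?_, fun b x h1 h2 => ?_⟩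
  · rw [Submodule.span_le, Set.singleton_subset_iff]
    simpa using h
  · simpa using sgn_comb hs ht hst h1 h2

theorem qsato_of_ubgY (m : ℕ) {L : List Quad} (h : UBG (m + 2) (bitsY (vyList m L)) = true) :
    QSatO L := by
  obtain ⟨n, hn, -, R, -, c, hc⟩ := (ubg_iff _ _).1 h
  have e : n = (vyList m L).length := by
    rw [bitsY, length_mat] at hn
    exact (Nat.mul_self_inj.1 hn).symm
  subst e
  obtain ⟨R', hR, hR'⟩ : ∃ R', R < R' ∧ ∀ i < (vyList m L).length, ∀ j < (vyList m L).length,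
      R < hB (c i) (c j) → R' < hB (c i) (c j) := by
    have E : ∀ᶠ R' in nhdsWithin R (Set.Ioi R), ∀ i ∈ Set.Iio (vyList m L).length,
        ∀ j ∈ Set.Iio (vyList m L).length, R < hB (c i) (c j) → R' < hB (c i) (c j) := by
      refine (Filter.eventually_all_finite (Set.finite_Iio _)).2 fun i _ =>
        (Filter.eventually_all_finite (Set.finite_Iio _)).2 fun j _ => ?_
      by_cases hij : R < hB (c i) (c j)
      · exact (Filter.Eventually.filter_mono nhdsWithin_le_nhds (gt_mem_nhds hij)).mono fun _ h _ => h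
      · exact Filter.Eventually.of_forall fun _ h => absurd h hij
    obtain ⟨R', h1, h2⟩ := (E.and self_mem_nhdsWithin).exists
    exact ⟨R', h2, h1⟩
  have hidx : ∀ v : Vy, ∃ i, v ∈ vyList m L →
      i < (vyList m L).length ∧ (vyList m L).getD i qv = v := by
    intro v
    by_cases hv : v ∈ vyList m L
    · obtain ⟨i, hi⟩ := exists_getD _ qv hv
      exact ⟨i, fun _ => hi⟩
    · exact ⟨0, fun h => absurd h hv⟩
  choose ι hι using hidx
  have key : ∀ v ∈ vyList m L, ∀ w ∈ vyList m L, v ≠ w →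
      sgn (adjY v w) (ballF R' (c (ι w)) (1, (c (ι v)).1)) := by
    intro v hv w hw hvw
    have hne : ι v ≠ ι w := fun h => hvw (by rw [← (hι v hv).2, ← (hι w hw).2, h])
    have h1 := hc _ (hι v hv).1 _ (hι w hw).1 hne
    rw [bitsY, getD_mat _ _ _ (hι v hv).1 (hι w hw).1, (hι v hv).2, (hι w hw).2] at h1
    simp only [ne_eq, hne, not_false_eq_true, decide_true, Bool.true_and] at h1
    rw [ballF_apply]
    cases hA : adjY v w
    · rw [hA] at h1
      have := hR' _ (hι v hv).1 _ (hι w hw).1 (not_le.1 fun h => by simpa using h1.2 h)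
      rw [sgn_false]; linarith
    · have := h1.1 hA
      rw [sgn_true]; linarith
  have mq : qv ∈ vyList m L := mem_vyList.2 (Or.inr (Or.inl rfl))
  have ml : ∀ l ∈ llList m L, ∀ σ, ((2, (dcp, []), l, σ) : Vy) ∈ vyList m L :=
    fun l hl σ => mem_vyList.2 (Or.inr (Or.inr ⟨l, hl, σ, rfl⟩))
  obtain ⟨q, hq⟩ : ∃ q : ℝ × ℝ × (Fin (m + 2) → ℝ), q = (1, (c (ι qv)).1) := ⟨_, rfl⟩
  have hH : ∀ l : LL, ∃ H : Module.Dual ℝ (_ ⧸ Submodule.span ℝ {q}), l ∈ llList m L →
      ∀ p ∈ ppList m L, sgn (liftM p l)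
        (H (Submodule.Quotient.mk (1, (c (ι (0, p, (dcp, 0), true))).1))) := by
    intro l
    by_cases hl : l ∈ llList m L
    · obtain ⟨H, hH⟩ := kill q (ballF R' (c (ι (2, (dcp, []), l, true))))
        (ballF R' (c (ι (2, (dcp, []), l, false))))
        (hq ▸ (sgn_true _).1 (key _ mq _ (ml l hl true) (by simp [qv])))
        (hq ▸ (sgn_false _).1 (key _ mq _ (ml l hl false) (by simp [qv])))
      refine ⟨H, fun _ p hp => hH _ _ ?_ ?_⟩ <;>
        exact key _ (mem_vyList.2 (Or.inl ⟨p, hp, rfl⟩)) _ (ml l hl _) (by simp)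
    · exact ⟨0, fun h => absurd h hl⟩
  choose H hH using hH
  have hq0 : q ≠ 0 := fun h => by simpa [hq] using congrArg Prod.fst h
  have hd : Module.finrank ℝ (_ ⧸ Submodule.span ℝ {q}) = 3 + m := by
    have h1 := Submodule.finrank_quotient_add_finrank (Submodule.span ℝ {q})
    rw [finrank_span_singleton hq0] at h1
    simp only [Module.finrank_prod, Module.finrank_self, Module.finrank_fin_fun] at h1
    omega
  obtain ⟨U, V, hUV⟩ := dim_reduce (SP := {p : Cp | p.1 ∈ ptList L})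
    (SL := {l : Cp | l.1 ∈ lnList L}) strictM ⟨dcp, mem_ptList.2 (Or.inl rfl)⟩ m _ hd
    (fun p τ => Submodule.Quotient.mk (1, (c (ι (0, (p, τ), (dcp, 0), true))).1))
    (fun l => H (l, 0)) (fun i => H (dcp, i + 1))
    (fun p hp τ hτ => ⟨fun l hl => by
      simpa [liftM] using hH (l, 0) (mem_llList.2 (Or.inl ⟨hl, rfl⟩)) (p, τ) (mem_ppList.2 ⟨hp, hτ⟩),
      fun i hi => by
      simpa [liftM] using hH (dcp, i + 1) (mem_llList.2 (Or.inr ⟨i, hi, rfl⟩)) (p, τ)
        (mem_ppList.2 ⟨hp, hτ⟩)⟩)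
  exact qsato_of_strict U V fun p hp l hl => hUV p hp l hl

theorem sandwich {m : ℕ} (hm : 1 ≤ m) (A : N68a2faeb.DecisionProblem)
    (h1 : ∀ (n : ℕ) (G : SimpleGraph (Fin n)), Gᶜ.Colorable 2 →
      (∀ r : ℝ, 0 < r → ∃ (o : Hyp (m + 2)) (c : Fin n → Hyp (m + 2)),
        (∀ v, hdist o (c v) ≤ 2 * r) ∧
          ∀ u v, u ≠ v → (G.Adj u v ↔ hdist (c u) (c v) ≤ 2 * r)) → A (graphCode G) = true)
    (h2 : ∀ x, A x = true → UBG (m + 2) x = true) : N793a5b8e.ManyOneReducible ETR A := by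
  refine ⟨fun x => bitsY (vyList m (toQuad (toNear (toStrict (bitsToQ x) (sz (bitsToQ x) + 1))))),
    PT.isPolyTime_bits ?_, fun x => ?_⟩
  · have := pt_vyList m
    fun_prop
  · have hb := qbound_sz (bitsToQ x)
    rw [Bool.eq_iff_iff, etr_iff_qsat]
    refine ⟨fun h => ?_, fun h => qsat_of_toStrict hb
      (ssat_of_toNear (nsat_of_qsato (qsato_of_ubgY m (h2 _ h))))⟩
    beta_reduce
    rw [← code_grY]
    exact h1 _ _ (cobip _) fun r hr => real_of_qnear hm (qgen_toQuad _)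
      (qnear_of_nnear (toNear_of_ssat (toStrict_of_qsat hb h))) hr

end Pool.Agent.MP_485bb6_lc.Co
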