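import Mathlib

/-! The l1 norm of integer polynomials and a root-free region. -/

namespace Pool.Agent.MP_485bb6_lc

open MvPolynomial

section L1
variable {σ : Type}

/-- Sum of the absolute values of the coefficients. -/
noncomputable def l1 (p : MvPolynomial σ ℤ) : ℕ := ∑ m ∈ p.support, (p.coeff m).natAbs

lemma l1_eq_of_subset {p : MvPolynomial σ ℤ} {S : Finset (σ →₀ ℕ)} (h : p.support ⊆ S) :
    l1 p = ∑ m ∈ S, (p.coeff m).natAbs := by
  unfold l1
  refine Finset.sum_subset h fun m _ hm => ?_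
  rw [notMem_support_iff.1 hm]; rfl

lemma l1_zero : l1 (0 : MvPolynomial σ ℤ) = 0 := by simp [l1]

lemma l1_add_le (p q : MvPolynomial σ ℤ) : l1 (p + q) ≤ l1 p + l1 q := by
  classical
  rw [l1_eq_of_subset (support_add (p := p) (q := q)),
    l1_eq_of_subset (p := p) (S := p.support ∪ q.support) Finset.subset_union_left,
    l1_eq_of_subset (p := q) (S := p.support ∪ q.support) Finset.subset_union_right,
    ← Finset.sum_add_distrib]
  refine Finset.sum_le_sum fun m _ => ?_
  rw [coeff_add]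
  exact Int.natAbs_add_le _ _

lemma l1_neg (p : MvPolynomial σ ℤ) : l1 (-p) = l1 p := by
  simp [l1]

lemma l1_sub_le (p q : MvPolynomial σ ℤ) : l1 (p - q) ≤ l1 p + l1 q := by
  rw [sub_eq_add_neg]
  exact (l1_add_le _ _).trans (by rw [l1_neg])

lemma l1_monomial_le (m : σ →₀ ℕ) (a : ℤ) : l1 (monomial m a) ≤ a.natAbs := by
  classical
  rw [l1_eq_of_subset (S := {m}) support_monomial_subset]
  simp

lemma l1_sum_le {ι : Type} (s : Finset ι) (f : ι → MvPolynomial σ ℤ) :
    l1 (∑ i ∈ s, f i) ≤ ∑ i ∈ s, l1 (f i) := by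
  classical
  induction s using Finset.induction_on with
  | empty => simp [l1_zero]
  | insert a s ha ih =>
    rw [Finset.sum_insert ha, Finset.sum_insert ha]
    exact (l1_add_le _ _).trans (by omega)

lemma l1_mul_le (p q : MvPolynomial σ ℤ) : l1 (p * q) ≤ l1 p * l1 q := by
  classical
  conv_lhs => rw [p.as_sum, q.as_sum, Finset.sum_mul_sum]
  refine (l1_sum_le _ _).trans ?_
  unfold l1
  rw [Finset.sum_mul_sum]
  refine Finset.sum_le_sum fun m _ => ?_
  refine (l1_sum_le _ _).trans (Finset.sum_le_sum fun m' _ => ?_)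
  rw [monomial_mul]
  exact (l1_monomial_le _ _).trans (by rw [Int.natAbs_mul])

lemma l1_C_le (a : ℤ) : l1 (C a : MvPolynomial σ ℤ) ≤ a.natAbs := l1_monomial_le 0 a

lemma l1_one_le : l1 (1 : MvPolynomial σ ℤ) ≤ 1 := by simpa using l1_C_le (σ := σ) 1

lemma l1_X_le (i : σ) : l1 (X i : MvPolynomial σ ℤ) ≤ 1 := l1_monomial_le _ 1

lemma l1_prod_le {ι : Type} (s : Finset ι) (f : ι → MvPolynomial σ ℤ) :
    l1 (∏ i ∈ s, f i) ≤ ∏ i ∈ s, l1 (f i) := by
  classical
  induction s using Finset.induction_on with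
  | empty => simpa using l1_one_le
  | insert a s ha ih =>
    rw [Finset.prod_insert ha, Finset.prod_insert ha]
    exact (l1_mul_le _ _).trans (Nat.mul_le_mul_left _ ih)

lemma l1_pow_le (p : MvPolynomial σ ℤ) (k : ℕ) : l1 (p ^ k) ≤ l1 p ^ k := by
  induction k with
  | zero => simpa using l1_one_le
  | succ k ih => rw [pow_succ, pow_succ]; exact (l1_mul_le _ _).trans (Nat.mul_le_mul_right _ ih)

lemma l1_pderiv_le (i : σ) (p : MvPolynomial σ ℤ) : l1 (pderiv i p) ≤ p.totalDegree * l1 p := by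
  classical
  conv_lhs => rw [p.as_sum, map_sum]
  refine (l1_sum_le _ _).trans ?_
  unfold l1
  rw [Finset.mul_sum]
  refine Finset.sum_le_sum fun m hm => ?_
  rw [pderiv_monomial]
  refine (l1_monomial_le _ _).trans ?_
  rw [Int.natAbs_mul, Int.natAbs_natCast, mul_comm]
  refine Nat.mul_le_mul_right _ ?_
  exact (monomial_le_degreeOf i hm).trans (degreeOf_le_totalDegree p i)

lemma totalDegree_pderiv_le (i : σ) (p : MvPolynomial σ ℤ) :
    (pderiv i p).totalDegree ≤ p.totalDegree - 1 := by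
  classical
  conv_lhs => rw [p.as_sum, map_sum]
  refine totalDegree_finsetSum_le fun m hm => ?_
  rw [pderiv_monomial]
  by_cases h : m i = 0
  · simp [h]
  · refine (totalDegree_monomial_le _ _).trans ?_
    have h1 := le_totalDegree hm
    have h2 : m = (m - Finsupp.single i 1) + Finsupp.single i 1 := by
      ext j
      by_cases hj : j = i
      · subst hj; simp; omega
      · simp [Finsupp.single_apply, Ne.symm hj]
    have h3 : (m.sum fun _ e => e) = ((m - Finsupp.single i 1).sum fun _ e => e) + 1 := by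
      conv_lhs => rw [h2]
      rw [Finsupp.sum_add_index' (by simp) (by simp)]
      simp
    simp only [Function.id_def]
    omega

end L1

lemma aeval_two (p : MvPolynomial (Fin 2) ℤ) (T v : ℝ) :
    aeval ![T, v] p = ∑ m ∈ p.support, ((p.coeff m : ℤ) : ℝ) * (T ^ m 0 * v ^ m 1) := by
  rw [aeval_def, eval₂_eq']
  simp [Fin.prod_univ_two]

lemma aeval_indep {p : MvPolynomial (Fin 2) ℤ} (h : p.degreeOf 0 = 0) (T T' v : ℝ) :
    aeval ![T, v] p = aeval ![T', v] p := by
  rw [aeval_two, aeval_two]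
  refine Finset.sum_congr rfl fun m hm => ?_
  have := monomial_le_degreeOf 0 hm
  have h0 : m 0 = 0 := by omega
  simp [h0]

lemma root_free {p : MvPolynomial (Fin 2) ℤ} (hp : p ≠ 0) {H D : ℕ} (hH : l1 p ≤ H)
    (hD : p.degreeOf 0 ≤ D) {T v : ℝ} (hT : (H : ℝ) ≤ T) (hv : H * T ^ D ≤ v) :
    aeval ![T, v] p ≠ 0 := by
  classical
  have hne : p.support.Nonempty := support_nonempty.2 hp
  obtain ⟨m1, hm1, hmax1⟩ := Finset.exists_max_image p.support (fun m => m 1) hne
  obtain ⟨m0, hm0, hmax0⟩ := Finset.exists_max_image (p.support.filter fun m => m 1 = m1 1)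
    (fun m => m 0) ⟨m1, by simp [mem_support_iff.1 hm1]⟩
  rw [Finset.mem_filter] at hm0
  have hc0 : 1 ≤ (p.coeff m0).natAbs := Int.natAbs_pos.2 (mem_support_iff.1 hm0.1)
  have hl : l1 p = (p.coeff m0).natAbs + ∑ m ∈ p.support.erase m0, (p.coeff m).natAbs := by
    unfold l1
    rw [Finset.add_sum_erase _ (fun m => (p.coeff m).natAbs) hm0.1]
  have hH1 : 1 ≤ H := by omega
  have hH1' : (1 : ℝ) ≤ H := by exact_mod_cast hH1
  have hT1 : 1 ≤ T := hH1'.trans hT
  have hTD : 1 ≤ T ^ D := one_le_pow₀ hT1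
  have hv1 : 1 ≤ v := by nlinarith
  set w : (Fin 2 →₀ ℕ) → ℝ := fun m => T ^ m 0 * v ^ m 1 with hw
  have hwpos : ∀ m, 0 < w m := fun m => by positivity
  have hdom : ∀ m ∈ p.support.erase m0, H * w m ≤ w m0 := by
    intro m hm
    obtain ⟨hne', hm⟩ := Finset.mem_erase.1 hm
    have h1 := hmax1 m hm
    rcases h1.eq_or_lt with h1 | h1
    · have h2 := hmax0 m (Finset.mem_filter.2 ⟨hm, h1⟩)
      have h3 : m 0 ≠ m0 0 := by
        intro h
        apply hne'
        ext i
        fin_cases i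
        · exact h
        · exact h1.trans hm0.2.symm
      have h4 : m 0 + 1 ≤ m0 0 := by omega
      have h5 : T ^ (m 0 + 1) ≤ T ^ m0 0 := pow_le_pow_right₀ hT1 h4
      simp only [hw]
      rw [h1, hm0.2, ← mul_assoc]
      refine mul_le_mul_of_nonneg_right ?_ (by positivity)
      rw [pow_succ] at h5
      have : 0 < T ^ m 0 := by positivity
      nlinarith
    · have h2 : m 0 ≤ D := (monomial_le_degreeOf 0 hm).trans hD
      have h3 : T ^ m 0 ≤ T ^ D := pow_le_pow_right₀ hT1 h2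
      have h4 : v ^ (m 1 + 1) ≤ v ^ m0 1 := pow_le_pow_right₀ hv1 (by rw [hm0.2]; omega)
      have h5 : 1 ≤ T ^ m0 0 := one_le_pow₀ hT1
      simp only [hw]
      have h6 : 0 < v ^ m 1 := by positivity
      rw [pow_succ] at h4
      calc (H : ℝ) * (T ^ m 0 * v ^ m 1) = (H * T ^ m 0) * v ^ m 1 := by ring
        _ ≤ v * v ^ m 1 := by
          refine mul_le_mul_of_nonneg_right ?_ h6.le
          exact le_trans (by gcongr) hv
        _ ≤ v ^ m0 1 := by linarith
        _ ≤ T ^ m0 0 * v ^ m0 1 := by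
          have : 0 < v ^ m0 1 := by positivity
          nlinarith
  intro h0
  rw [aeval_two, ← Finset.add_sum_erase _ _ hm0.1] at h0
  have h1 : |((p.coeff m0 : ℤ) : ℝ)| * w m0 ≤ ∑ m ∈ p.support.erase m0, |((p.coeff m : ℤ) : ℝ)| * w m := by
    have e : ((p.coeff m0 : ℤ) : ℝ) * w m0 = -∑ m ∈ p.support.erase m0, ((p.coeff m : ℤ) : ℝ) * w m := by
      simp only [hw]; linarith
    rw [← abs_of_pos (hwpos m0), ← abs_mul, e, abs_neg]
    refine (Finset.abs_sum_le_sum_abs _ _).trans (Finset.sum_le_sum fun m _ => ?_)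
    rw [abs_mul, abs_of_pos (hwpos m)]
  have h2 : H * ∑ m ∈ p.support.erase m0, |((p.coeff m : ℤ) : ℝ)| * w m
      ≤ (∑ m ∈ p.support.erase m0, |((p.coeff m : ℤ) : ℝ)|) * w m0 := by
    rw [Finset.mul_sum, Finset.sum_mul]
    refine Finset.sum_le_sum fun m hm => ?_
    have := hdom m hm
    have h3 : 0 ≤ |((p.coeff m : ℤ) : ℝ)| := abs_nonneg _
    nlinarith
  have h3 : (∑ m ∈ p.support.erase m0, |((p.coeff m : ℤ) : ℝ)|) + 1 ≤ H := by
    have e : (∑ m ∈ p.support.erase m0, |((p.coeff m : ℤ) : ℝ)|)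
        = ((∑ m ∈ p.support.erase m0, (p.coeff m).natAbs : ℕ) : ℝ) := by
      push_cast
      refine Finset.sum_congr rfl fun m _ => ?_
      rw [Nat.cast_natAbs, Int.cast_abs]
    rw [e]
    have : ∑ m ∈ p.support.erase m0, (p.coeff m).natAbs + 1 ≤ H := by omega
    exact_mod_cast this
  have h4 : (1 : ℝ) ≤ |((p.coeff m0 : ℤ) : ℝ)| := by
    rw [← Int.cast_abs, ← Nat.cast_natAbs]
    exact_mod_cast hc0
  have h5 := hwpos m0
  have h6 : H * w m0 ≤ H * (|((p.coeff m0 : ℤ) : ℝ)| * w m0) := by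
    have : w m0 ≤ |((p.coeff m0 : ℤ) : ℝ)| * w m0 := by nlinarith
    gcongr
  have h7 : H * (|((p.coeff m0 : ℤ) : ℝ)| * w m0)
      ≤ H * ∑ m ∈ p.support.erase m0, |((p.coeff m : ℤ) : ℝ)| * w m := by gcongr
  nlinarith

end Pool.Agent.MP_485bb6_lc
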