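import Mathlib
import Pool.Agent.MP_485bb6_lc.L1

/-! Elimination for the system x_i^5 = v r_i(x): an integer polynomial vanishing on values. -/

namespace Pool.Agent.MP_485bb6_lc

open MvPolynomial

variable {n : ℕ}

/-- Reduced monomials. -/
def mon (x : Fin n → ℝ) (b : Fin n → Fin 5) : ℝ := ∏ i, x i ^ (b i : ℕ)

/-- The critical point equations. -/
def Crit (r : Fin n → MvPolynomial (Fin n) ℤ) (x : Fin n → ℝ) (v : ℝ) : Prop :=
  ∀ i, x i ^ 5 = v * aeval x (r i)

/-- Expansion in the reduced monomials with coefficients of bounded norm. -/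
def Exp (r : Fin n → MvPolynomial (Fin n) ℤ) (g : (Fin n → ℝ) → ℝ → ℝ) (N : ℕ) : Prop :=
  ∃ a : (Fin n → Fin 5) → MvPolynomial (Fin 2) ℤ, (∑ b, l1 (a b)) ≤ N ∧
    (∀ b, (a b).degreeOf 0 = 0) ∧
    ∀ x v T, Crit r x v → g x v = ∑ b, aeval ![T, v] (a b) * mon x b

variable {r : Fin n → MvPolynomial (Fin n) ℤ}

lemma Exp.mono {g : (Fin n → ℝ) → ℝ → ℝ} {N N' : ℕ} (h : Exp r g N) (hN : N ≤ N') : Exp r g N' := by
  obtain ⟨a, h1, h2, h3⟩ := h
  exact ⟨a, h1.trans hN, h2, h3⟩

lemma Exp.congr {g g' : (Fin n → ℝ) → ℝ → ℝ} {N : ℕ} (h : Exp r g N)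
    (e : ∀ x v, Crit r x v → g' x v = g x v) : Exp r g' N := by
  obtain ⟨a, h1, h2, h3⟩ := h
  exact ⟨a, h1, h2, fun x v T hc => (e x v hc).trans (h3 x v T hc)⟩

lemma Exp.zero : Exp r (fun _ _ => 0) 0 :=
  ⟨fun _ => 0, by simp [l1_zero], by simp, by simp⟩

lemma Exp.add {g g' : (Fin n → ℝ) → ℝ → ℝ} {N N' : ℕ} (h : Exp r g N) (h' : Exp r g' N') :
    Exp r (fun x v => g x v + g' x v) (N + N') := by
  obtain ⟨a, h1, h2, h3⟩ := h
  obtain ⟨a', h1', h2', h3'⟩ := h'
  refine ⟨fun b => a b + a' b, ?_, fun b => ?_, fun x v T hc => ?_⟩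
  · refine le_trans (Finset.sum_le_sum fun b _ => l1_add_le _ _) ?_
    rw [Finset.sum_add_distrib]
    omega
  · have := degreeOf_add_le 0 (a b) (a' b)
    rw [h2, h2'] at this
    simpa using this
  · beta_reduce
    rw [h3 x v T hc, h3' x v T hc, ← Finset.sum_add_distrib]
    refine Finset.sum_congr rfl fun b _ => ?_
    rw [map_add]; ring

lemma Exp.mul {g : (Fin n → ℝ) → ℝ → ℝ} {N : ℕ} (h : Exp r g N) (q : MvPolynomial (Fin 2) ℤ)
    (hq : q.degreeOf 0 = 0) :
    Exp r (fun x v => aeval ![0, v] q * g x v) (l1 q * N) := by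
  obtain ⟨a, h1, h2, h3⟩ := h
  refine ⟨fun b => q * a b, ?_, fun b => ?_, fun x v T hc => ?_⟩
  · refine le_trans (Finset.sum_le_sum fun b _ => l1_mul_le _ _) ?_
    rw [← Finset.mul_sum]
    exact Nat.mul_le_mul_left _ h1
  · have := degreeOf_mul_le 0 q (a b)
    rw [h2, hq] at this
    simpa using this
  · beta_reduce
    rw [h3 x v T hc, Finset.mul_sum, aeval_indep hq 0 T]
    refine Finset.sum_congr rfl fun b _ => ?_
    rw [map_mul]; ring

lemma Exp.smul {g : (Fin n → ℝ) → ℝ → ℝ} {N : ℕ} (h : Exp r g N) (c : ℤ) :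
    Exp r (fun x v => c * g x v) (c.natAbs * N) :=
  ((h.mul (C c) (degreeOf_C _ _)).mono (Nat.mul_le_mul_right _ (l1_C_le c))).congr
    (fun x v _ => by simp)

lemma Exp.mulv {g : (Fin n → ℝ) → ℝ → ℝ} {N : ℕ} (h : Exp r g N) :
    Exp r (fun x v => v * g x v) N :=
  ((h.mul (X 1) (degreeOf_X_of_ne (by decide))).mono
    ((Nat.mul_le_mul_right _ (l1_X_le 1)).trans (by simp))).congr (fun x v _ => by simp)

lemma Exp.sum {ι : Type} (s : Finset ι) {g : ι → (Fin n → ℝ) → ℝ → ℝ} {N : ι → ℕ}
    (h : ∀ i ∈ s, Exp r (g i) (N i)) :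
    Exp r (fun x v => ∑ i ∈ s, g i x v) (∑ i ∈ s, N i) := by
  classical
  induction s using Finset.induction_on with
  | empty => simpa using Exp.zero
  | insert a s ha ih =>
    simp only [Finset.sum_insert ha]
    exact (h a (Finset.mem_insert_self _ _)).add
      (ih fun i hi => h i (Finset.mem_insert_of_mem hi))

lemma Exp.basis (b : Fin n → Fin 5) : Exp r (fun x _ => mon x b) 1 := by
  classical
  refine ⟨fun b' => if b' = b then 1 else 0, ?_, fun b' => ?_, fun x v T _ => ?_⟩
  · rw [Finset.sum_eq_single b]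
    · simpa using l1_one_le
    · intro b' _ hb; simp [hb, l1_zero]
    · simp
  · beta_reduce
    split_ifs <;> simp
  · rw [Finset.sum_eq_single b]
    · simp
    · intro b' _ hb; simp [hb]
    · simp

lemma exp_poly {d N : ℕ}
    (h : ∀ α : Fin n →₀ ℕ, (α.sum fun _ e => e) ≤ d → Exp r (fun x _ => ∏ i, x i ^ α i) N)
    (p : MvPolynomial (Fin n) ℤ) (hp : p.totalDegree ≤ d) :
    Exp r (fun x _ => aeval x p) (l1 p * N) := by
  have h1 := Exp.sum (r := r) p.support
    (g := fun m x _ => ((p.coeff m : ℤ) : ℝ) * ∏ i, x i ^ m i)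
    (N := fun m => (p.coeff m).natAbs * N)
    (fun m hm => (h m ((le_totalDegree hm).trans hp)).smul _)
  refine (h1.mono ?_).congr fun x v _ => ?_
  · rw [← Finset.sum_mul]; rfl
  · rw [aeval_def, eval₂_eq']
    simp

lemma exp_mon {c : ℕ} (hc : 1 ≤ c) (hr : ∀ i, (r i).totalDegree ≤ 3) (hl : ∀ i, l1 (r i) ≤ c)
    (d : ℕ) : ∀ α : Fin n →₀ ℕ, (α.sum fun _ e => e) ≤ d →
      Exp r (fun x _ => ∏ i, x i ^ α i) (c ^ d) := by
  induction d using Nat.strong_induction_on with
  | _ d ih =>
    intro α hα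
    by_cases h : ∀ i, α i < 5
    · exact ((Exp.basis (r := r) (fun i => ⟨α i, h i⟩)).mono (Nat.one_le_pow _ _ hc)).congr
        (fun x v _ => rfl)
    · push Not at h
      obtain ⟨i, hi⟩ := h
      set β := α - Finsupp.single i 5 with hβ
      have h2 : α = β + Finsupp.single i 5 := by
        ext j
        by_cases hj : j = i
        · subst hj; simp [hβ]; omega
        · simp [hβ, Finsupp.single_apply, Ne.symm hj]
      have h3 : (α.sum fun _ e => e) = (β.sum fun _ e => e) + 5 := by
        conv_lhs => rw [h2]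
        rw [Finsupp.sum_add_index' (by simp) (by simp)]
        simp
      have h4 := exp_poly (ih (d - 2) (by omega)) (monomial β 1 * r i) (by
        refine (totalDegree_mul _ _).trans ?_
        have h5 := totalDegree_monomial_le β (1 : ℤ)
        have h6 := hr i
        simp only [Function.id_def] at h5
        omega)
      refine (h4.mulv.mono ?_).congr fun x v hcr => ?_
      · have h5 : l1 (monomial β 1 * r i) ≤ c := by
          refine (l1_mul_le _ _).trans ?_
          have := Nat.mul_le_mul (l1_monomial_le β 1) (hl i)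
          simpa using this
        calc l1 (monomial β 1 * r i) * c ^ (d - 2) ≤ c * c ^ (d - 2) := Nat.mul_le_mul_right _ h5
          _ = c ^ (d - 2 + 1) := by ring
          _ ≤ c ^ d := Nat.pow_le_pow_right hc (by omega)
      · have h5 : ∏ j, x j ^ α j = (∏ j, x j ^ β j) * x i ^ 5 := by
          conv_lhs => rw [h2]
          simp only [Finsupp.add_apply, pow_add, Finset.prod_mul_distrib]
          congr 1
          rw [Finset.prod_eq_single i]
          · simp
          · intro j _ hj; simp [Finsupp.single_apply, Ne.symm hj]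
          · simp
        rw [h5, hcr i, map_mul, aeval_monomial, Finsupp.prod_fintype _ _ (by simp)]
        simp only [map_one]
        ring

lemma exists_elim {g : (Fin n → ℝ) → ℝ → ℝ} {N : ℕ}
    (h : ∀ b, Exp r (fun x v => g x v * mon x b) N) :
    ∃ χ : MvPolynomial (Fin 2) ℤ, χ ≠ 0 ∧ l1 χ ≤ (5 ^ n * (N + 1)) ^ 5 ^ n ∧
      χ.degreeOf 0 ≤ 5 ^ n ∧ ∀ x v, Crit r x v → aeval ![g x v, v] χ = 0 := by
  classical
  choose a h1 h2 h3 using h
  have hcard : Fintype.card (Fin n → Fin 5) = 5 ^ n := by simp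
  let M : Matrix (Fin n → Fin 5) (Fin n → Fin 5) (MvPolynomial (Fin 2) ℤ) :=
    fun b b' => (if b = b' then X 0 else 0) - a b b'
  have hMl : ∀ b b', l1 (M b b') ≤ N + 1 := by
    intro b b'
    refine (l1_sub_le _ _).trans ?_
    have h4 : l1 (a b b') ≤ N :=
      (Finset.single_le_sum (f := fun b' => l1 (a b b')) (fun _ _ => Nat.zero_le _)
        (Finset.mem_univ b')).trans (h1 b)
    have h5 : l1 (if b = b' then X 0 else 0 : MvPolynomial (Fin 2) ℤ) ≤ 1 := by
      split_ifs
      · exact l1_X_le _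
      · simp [l1_zero]
    omega
  have hMd : ∀ b b', (M b b').degreeOf 0 ≤ 1 := by
    intro b b'
    refine (degreeOf_sub_le _ _ _).trans ?_
    rw [h2]
    split_ifs <;> simp
  have hev : ∀ T v : ℝ, aeval ![T, v] M.det = (M.map (aeval ![T, v])).det := by
    intro T v
    exact AlgHom.map_det (aeval ![T, v]) M
  refine ⟨M.det, ?_, ?_, ?_, ?_⟩
  · intro h0
    let A : Matrix (Fin n → Fin 5) (Fin n → Fin 5) ℝ := fun b b' => aeval ![0, 0] (a b b')
    have h4 : ∀ T : ℝ, A.charpoly.eval T = 0 := by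
      intro T
      rw [Matrix.eval_charpoly]
      have h5 := hev T 0
      rw [h0, map_zero] at h5
      rw [h5]
      congr 1
      ext b b'
      by_cases hb : b = b'
      · subst hb
        simp [M, A, aeval_indep (h2 b b) T 0]
      · simp [M, A, hb, aeval_indep (h2 b b') T 0]
    exact A.charpoly_monic.ne_zero (Polynomial.funext (by simpa using h4))
  · rw [Matrix.det_apply]
    refine (l1_sum_le _ _).trans ?_
    have h4 : ∀ s : Equiv.Perm (Fin n → Fin 5),
        l1 (Equiv.Perm.sign s • ∏ i, M (s i) i) ≤ (N + 1) ^ 5 ^ n := by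
      intro s
      have h5 : l1 (∏ i, M (s i) i) ≤ (N + 1) ^ 5 ^ n := by
        refine (l1_prod_le _ _).trans ?_
        refine (Finset.prod_le_pow_card _ _ (N + 1) fun i _ => hMl _ _).trans ?_
        rw [Finset.card_univ, hcard]
      rcases Int.units_eq_one_or (Equiv.Perm.sign s) with h | h
      · simpa [h] using h5
      · simpa [h, l1_neg] using h5
    refine (Finset.sum_le_card_nsmul _ _ _ fun s _ => h4 s).trans ?_
    rw [Finset.card_univ, Fintype.card_perm, hcard, smul_eq_mul, mul_pow]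
    exact Nat.mul_le_mul_right _ (Nat.factorial_le_pow _)
  · rw [Matrix.det_apply]
    refine (degreeOf_sum_le _ _ _).trans (Finset.sup_le fun s _ => ?_)
    have h5 : (∏ i, M (s i) i).degreeOf 0 ≤ 5 ^ n := by
      refine (degreeOf_prod_le _ _ _).trans ?_
      refine (Finset.sum_le_card_nsmul _ _ 1 fun i _ => hMd _ _).trans ?_
      rw [Finset.card_univ, hcard]; simp
    rcases Int.units_eq_one_or (Equiv.Perm.sign s) with h | h
    · simpa [h] using h5
    · simpa [h, degreeOf_neg] using h5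
  · intro x v hc
    rw [hev, ← Matrix.exists_mulVec_eq_zero_iff]
    refine ⟨mon x, ?_, ?_⟩
    · intro h0
      have := congrFun h0 0
      simp [mon] at this
    · ext b
      have h4 := h3 b x v (g x v) hc
      simp only [Matrix.mulVec, dotProduct, Matrix.map_apply, M, map_sub, sub_mul,
        Finset.sum_sub_distrib, Pi.zero_apply]
      rw [← h4, Finset.sum_eq_single b]
      · simp
      · intro b' _ hb; simp [Ne.symm hb]
      · simp

end Pool.Agent.MP_485bb6_lc
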