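import Mathlib
import Pool.Agent.MP_485bb6_lc.Elim

/-! Doubly exponential bounds for real zeros of nonnegative quartic integer polynomials. -/

namespace Pool.Agent.MP_485bb6_lc

open MvPolynomial

variable {n : ℕ}

lemma continuous_aeval' (F : MvPolynomial (Fin n) ℤ) :
    Continuous fun x : Fin n → ℝ => aeval x F := by
  induction F using MvPolynomial.induction_on with
  | C a => simpa using continuous_const
  | add p q hp hq => simp only [map_add]; exact hp.add hq
  | mul_X p i hp => simp only [map_mul, aeval_X]; exact hp.mul (continuous_apply i)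

lemma hasDerivAt_aeval (F : MvPolynomial (Fin n) ℤ) (x : Fin n → ℝ) (i : Fin n) :
    HasDerivAt (fun t => aeval (Function.update x i t) F) (aeval x (pderiv i F)) (x i) := by
  induction F using MvPolynomial.induction_on with
  | C a => simpa using hasDerivAt_const (x i) (a : ℝ)
  | add p q hp hq => simp only [map_add]; exact hp.add hq
  | mul_X p j hp =>
    by_cases hj : j = i
    · subst hj
      have h1 := hp.mul (hasDerivAt_id (x j))
      simp only [map_mul, aeval_X, Function.update_self, Derivation.leibniz, pderiv_X_self,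
        smul_eq_mul, mul_one, map_add]
      simp only [id, Function.update_eq_self, mul_one] at h1
      refine h1.congr_deriv ?_
      ring
    · have h1 := hp.mul_const (x j)
      simp only [map_mul, aeval_X, Function.update_of_ne hj, Derivation.leibniz,
        pderiv_X_of_ne hj, smul_eq_mul, mul_zero, zero_add]
      refine h1.congr_deriv ?_
      ring

/-- The perturbed function. -/
noncomputable def Gv (F : MvPolynomial (Fin n) ℤ) (v : ℝ) (x : Fin n → ℝ) : ℝ :=
  6 * v * aeval x F + ∑ i, x i ^ 6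

lemma continuous_Gv (F : MvPolynomial (Fin n) ℤ) (v : ℝ) : Continuous (Gv F v) := by
  unfold Gv
  have := continuous_aeval' F
  fun_prop

lemma bounded_six (K : ℝ) : Bornology.IsBounded {x : Fin n → ℝ | ∑ i, x i ^ 6 ≤ K} := by
  refine (Metric.isBounded_closedBall (x := (0 : Fin n → ℝ)) (r := max 1 K)).subset fun x hx => ?_
  rw [mem_closedBall_zero_iff, pi_norm_le_iff_of_nonneg (by positivity)]
  intro i
  have h1 : x i ^ 6 ≤ K :=
    (Finset.single_le_sum (f := fun i => x i ^ 6) (fun j _ => by positivity)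
      (Finset.mem_univ i)).trans hx
  by_cases h : |x i| ≤ 1
  · exact h.trans (le_max_left _ _)
  · push Not at h
    refine le_trans ?_ (le_max_right _ _)
    have h2 : |x i| ^ 1 ≤ |x i| ^ 6 := pow_le_pow_right₀ h.le (by norm_num)
    have h3 : |x i| ^ 6 = x i ^ 6 := Even.pow_abs (by decide) _
    rw [pow_one, h3] at h2
    exact h2.trans h1

lemma exists_min {F : MvPolynomial (Fin n) ℤ} (hF : ∀ x : Fin n → ℝ, 0 ≤ aeval x F) {v : ℝ}
    (hv : 0 ≤ v) : ∃ x, ∀ y, Gv F v x ≤ Gv F v y := by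
  refine (continuous_Gv F v).exists_forall_le_of_isBounded 0 ?_
  refine (bounded_six (Gv F v 0)).subset fun x hx => ?_
  have h1 : Gv F v x ≤ Gv F v 0 := hx
  have h2 : 0 ≤ 6 * v * aeval x F := by have := hF x; positivity
  show ∑ i, x i ^ 6 ≤ Gv F v 0
  unfold Gv at h1 ⊢
  linarith

lemma crit_of_min {F : MvPolynomial (Fin n) ℤ} {v : ℝ} {x : Fin n → ℝ}
    (h : ∀ y, Gv F v x ≤ Gv F v y) : Crit (fun i => -pderiv i F) x v := by
  intro i
  have h1 : HasDerivAt (fun t => Gv F v (Function.update x i t))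
      (6 * v * aeval x (pderiv i F) + 6 * x i ^ 5) (x i) := by
    unfold Gv
    refine ((hasDerivAt_aeval F x i).const_mul (6 * v)).add ?_
    have h2 := hasDerivAt_aeval (∑ j, X j ^ 6 : MvPolynomial (Fin n) ℤ) x i
    simp only [map_sum, map_pow, aeval_X] at h2
    refine h2.congr_deriv ?_
    rw [Finset.sum_eq_single i]
    · simp
    · intro j _ hj; simp [pderiv_X_of_ne hj]
    · simp
  have h2 : IsLocalMin (fun t => Gv F v (Function.update x i t)) (x i) :=
    Filter.Eventually.of_forall fun t => by simpa using h _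
  have h3 := h2.hasDerivAt_eq_zero h1
  simp only [map_neg]
  linarith

/-- The height bound. -/
def hb (n L : ℕ) : ℕ := (5 ^ n * ((6 * L + n) * (4 * L + 1) ^ (4 * n + 6) + 1)) ^ 5 ^ n

lemma exists_chi {F : MvPolynomial (Fin n) ℤ} (hd : F.totalDegree ≤ 4) {L : ℕ} (hL : l1 F ≤ L) :
    ∃ χ : MvPolynomial (Fin 2) ℤ, χ ≠ 0 ∧ l1 χ ≤ hb n L ∧ χ.degreeOf 0 ≤ 5 ^ n ∧
      ∀ x v, Crit (fun i => -pderiv i F) x v → aeval ![Gv F v x, v] χ = 0 := by
  classical
  refine exists_elim (r := fun i => -pderiv i F) (g := fun x v => Gv F v x) fun b => ?_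
  have hm := exp_mon (r := fun i => -pderiv i F) (c := 4 * L + 1) (by omega)
    (fun i => by
      rw [totalDegree_neg]
      have := totalDegree_pderiv_le i F
      omega)
    (fun i => by
      rw [l1_neg]
      have h1 := l1_pderiv_le i F
      have h2 := Nat.mul_le_mul hd hL
      omega) (4 * n + 6)
  let β : Fin n →₀ ℕ := Finsupp.equivFunOnFinite.symm fun i => (b i : ℕ)
  have hβ : (monomial β (1 : ℤ)).totalDegree ≤ 4 * n := by
    refine (totalDegree_monomial_le _ _).trans ?_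
    rw [Finsupp.sum_fintype _ _ (by simp)]
    refine (Finset.sum_le_card_nsmul _ _ 4 fun i _ => ?_).trans (by simp [mul_comm])
    have := (b i).2
    simp only [β, Finsupp.equivFunOnFinite_symm_apply_apply, id]
    omega
  have hev : ∀ x : Fin n → ℝ, aeval x (monomial β (1 : ℤ)) = mon x b := by
    intro x
    rw [aeval_monomial, Finsupp.prod_fintype _ _ (by simp)]
    simp [mon, β]
  have h1 := exp_poly hm (C 6 * F * monomial β 1) (by
    refine (totalDegree_mul _ _).trans ?_
    have h2 := totalDegree_mul (C 6) F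
    rw [totalDegree_C] at h2
    omega)
  have h2 := exp_poly hm ((∑ j, X j ^ 6) * monomial β 1) (by
    refine (totalDegree_mul _ _).trans ?_
    have h2 : (∑ j, X j ^ 6 : MvPolynomial (Fin n) ℤ).totalDegree ≤ 6 :=
      totalDegree_finsetSum_le fun j _ => by simp [totalDegree_X_pow]
    omega)
  refine ((h1.mulv.add h2).mono ?_).congr fun x v _ => ?_
  · rw [← add_mul]
    refine Nat.mul_le_mul_right _ (Nat.add_le_add ?_ ?_)
    · refine (l1_mul_le _ _).trans ?_
      have h3 := Nat.mul_le_mul ((l1_mul_le (C 6) F).trans (Nat.mul_le_mul (l1_C_le 6) hL))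
        (l1_monomial_le β 1)
      simpa using h3
    · refine (l1_mul_le _ _).trans ?_
      have h3 : l1 (∑ j, X j ^ 6 : MvPolynomial (Fin n) ℤ) ≤ n := by
        refine (l1_sum_le _ _).trans ?_
        refine (Finset.sum_le_card_nsmul _ _ 1 fun j _ => ?_).trans (by simp)
        refine (l1_pow_le _ _).trans ?_
        simpa using Nat.pow_le_pow_left (l1_X_le j) 6
      simpa using Nat.mul_le_mul h3 (l1_monomial_le β 1)
  · simp only [Gv, map_mul, hev, map_sum, map_pow, aeval_X, aeval_C]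
    simp only [algebraMap_int_eq, eq_intCast, Int.cast_ofNat]
    ring

lemma zero_of_bounded {F : MvPolynomial (Fin n) ℤ} (hF : ∀ x : Fin n → ℝ, 0 ≤ aeval x F)
    {K v1 : ℝ} (h : ∀ v, v1 ≤ v → 0 < v → ∃ x, Gv F v x ≤ K) :
    ∃ x : Fin n → ℝ, aeval x F = 0 ∧ ∑ i, x i ^ 6 ≤ K := by
  have hsub : ∀ v x, 0 < v → Gv F v x ≤ K → ∑ i, x i ^ 6 ≤ K ∧ 6 * v * aeval x F ≤ K := by
    intro v x hv hx
    have h1 : 0 ≤ 6 * v * aeval x F := by have := hF x; positivity
    have h2 : 0 ≤ ∑ i, x i ^ 6 := Finset.sum_nonneg fun i _ => by positivity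
    unfold Gv at hx
    constructor <;> linarith
  have hc : IsCompact {x : Fin n → ℝ | ∑ i, x i ^ 6 ≤ K} :=
    Metric.isCompact_of_isClosed_isBounded (isClosed_le (by fun_prop) continuous_const)
      (bounded_six K)
  obtain ⟨x1, hx1⟩ := h (max v1 1) (le_max_left _ _) (by positivity)
  obtain ⟨x0, hx0, hmin⟩ := hc.exists_isMinOn ⟨x1, (hsub _ _ (by positivity) hx1).1⟩
    (continuous_aeval' F).continuousOn
  refine ⟨x0, le_antisymm ?_ (hF x0), hx0⟩
  by_contra hpos
  push Not at hpos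
  set v := max v1 (max 1 (K / aeval x0 F)) with hv
  have hv1 : 1 ≤ v := (le_max_left _ _).trans (le_max_right _ _)
  have hv2 : K / aeval x0 F ≤ v := (le_max_right _ _).trans (le_max_right _ _)
  obtain ⟨x, hx⟩ := h v (le_max_left _ _) (by linarith)
  obtain ⟨h1, h2⟩ := hsub v x (by linarith) hx
  have h3 : aeval x0 F ≤ aeval x F := hmin h1
  rw [div_le_iff₀ hpos] at hv2
  nlinarith

theorem quant1 {F : MvPolynomial (Fin n) ℤ} (hF : ∀ x : Fin n → ℝ, 0 ≤ aeval x F)
    (hd : F.totalDegree ≤ 4) {L : ℕ} (hL : l1 F ≤ L) {x0 : Fin n → ℝ} (h0 : aeval x0 F = 0) :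
    ∃ x : Fin n → ℝ, aeval x F = 0 ∧ ∑ i, x i ^ 6 ≤ hb n L := by
  obtain ⟨χ, h1, h2, h3, h4⟩ := exists_chi hd hL
  refine zero_of_bounded hF (v1 := hb n L * (∑ i, x0 i ^ 6) ^ 5 ^ n) fun v hv hv0 => ?_
  obtain ⟨x, hx⟩ := exists_min hF hv0.le
  refine ⟨x, ?_⟩
  by_contra hcon
  push Not at hcon
  have h5 : Gv F v x ≤ ∑ i, x0 i ^ 6 := by
    have := hx x0
    simp only [Gv, h0, mul_zero, zero_add] at this ⊢
    exact this
  refine root_free h1 h2 h3 hcon.le (le_trans ?_ hv) (h4 x v (crit_of_min hx))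
  have h6 : (0 : ℝ) ≤ Gv F v x := le_trans (Nat.cast_nonneg _) hcon.le
  gcongr

theorem quant2 {F : MvPolynomial (Fin n) ℤ} (hF : ∀ x : Fin n → ℝ, 0 ≤ aeval x F)
    (hd : F.totalDegree ≤ 4) {L : ℕ} (hL : l1 F ≤ L) {T v1 : ℝ} (hT : (hb n L : ℝ) ≤ T)
    (hv1 : hb n L * T ^ 5 ^ n ≤ v1) (hv0 : 0 < v1) {x1 : Fin n → ℝ} (hx1 : Gv F v1 x1 < T) :
    ∃ x : Fin n → ℝ, aeval x F = 0 := by
  obtain ⟨χ, h1, h2, h3, h4⟩ := exists_chi hd hL
  have hex : ∀ v : ℝ, ∃ x, 0 ≤ v → ∀ y, Gv F v x ≤ Gv F v y := by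
    intro v
    by_cases hv : 0 ≤ v
    · obtain ⟨x, hx⟩ := exists_min hF hv
      exact ⟨x, fun _ => hx⟩
    · exact ⟨0, fun h => absurd h hv⟩
  choose xm hxm using hex
  set μ : ℝ → ℝ := fun v => Gv F v (xm v) with hμ
  have hne : ∀ v, v1 ≤ v → μ v ≠ T := by
    intro v hv he
    have h5 := h4 (xm v) v (crit_of_min (hxm v (by linarith)))
    have h6 : Gv F v (xm v) = T := he
    rw [h6] at h5
    exact root_free h1 h2 h3 hT (hv1.trans hv) h5
  have hmono : ∀ v w, 0 ≤ v → v ≤ w → μ v ≤ μ w := by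
    intro v w hv hvw
    refine (hxm v hv (xm w)).trans ?_
    simp only [hμ, Gv]
    have := hF (xm w)
    nlinarith
  have hscale : ∀ v w, v1 ≤ v → v ≤ w → μ w - μ v ≤ (w - v) * (μ v / v1) := by
    intro v w hv hvw
    have h5 := hxm w (by linarith) (xm v)
    have h6 := hF (xm v)
    have h7 : 0 ≤ ∑ i, xm v i ^ 6 := Finset.sum_nonneg fun i _ => by positivity
    have h8 : 6 * aeval (xm v) F ≤ μ v / v1 := by
      rw [le_div_iff₀ hv0]
      simp only [hμ, Gv]
      nlinarith
    have h9 : μ w - μ v ≤ (w - v) * (6 * aeval (xm v) F) := by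
      simp only [hμ, Gv] at h5 ⊢
      linarith
    exact h9.trans (mul_le_mul_of_nonneg_left h8 (by linarith))
  have hlt : ∀ v, v1 ≤ v → μ v < T := by
    intro v2 hv2
    by_contra hcon
    push Not at hcon
    have hμ0 : 0 ≤ μ v2 / v1 := by
      have : (0 : ℝ) ≤ μ v2 := le_trans (le_trans (Nat.cast_nonneg _) hT) hcon
      positivity
    have hcont : ContinuousOn μ (Set.Icc v1 v2) := by
      refine (LipschitzOnWith.of_dist_le_mul (K := ⟨μ v2 / v1, hμ0⟩) fun v hv w hw => ?_).continuousOn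
      have key : ∀ v w, v ∈ Set.Icc v1 v2 → w ∈ Set.Icc v1 v2 → v ≤ w →
          |μ v - μ w| ≤ μ v2 / v1 * |v - w| := by
        intro v w hv hw hvw
        have h5 := hmono v w (by linarith [hv.1]) hvw
        have h6 := hscale v w hv.1 hvw
        have h7 : μ v / v1 ≤ μ v2 / v1 := by
          have := hmono v v2 (by linarith [hv.1]) hv.2
          gcongr
        rw [abs_of_nonpos (by linarith), abs_of_nonpos (by linarith)]
        nlinarith
      simp only [Real.dist_eq, NNReal.coe_mk]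
      rcases le_total v w with h | h
      · exact key v w hv hw h
      · rw [abs_sub_comm (μ v), abs_sub_comm v]; exact key w v hw hv h
    have h5 : μ v1 ≤ T := ((hxm v1 hv0.le x1).trans hx1.le)
    obtain ⟨v, hv, hvT⟩ := intermediate_value_Icc hv2 hcont ⟨h5, hcon⟩
    exact hne v hv.1 hvT
  obtain ⟨x, hx, -⟩ := zero_of_bounded hF (K := T) (v1 := v1) fun v hv _ => ⟨xm v, (hlt v hv).le⟩
  exact ⟨x, hx⟩

end Pool.Agent.MP_485bb6_lc
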