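import Mathlib
import Pool.Agent.MP_485bb6_lc.Quant

/-! Systems of basic quadratic equations: small solutions, and approximate solutions. -/

namespace Pool.Agent.MP_485bb6_lc

open MvPolynomial

/-- A basic constraint (op, i, j, k). -/
abbrev QC := ℕ × ℕ × ℕ × ℕ

/-- The residual of a basic constraint. -/
def res (q : QC) (x : ℕ → ℝ) : ℝ :=
  if q.1 = 0 then x q.2.2.2 - 1
  else if q.1 = 1 then x q.2.1 + x q.2.2.1 - x q.2.2.2
  else x q.2.1 * x q.2.2.1 - x q.2.2.2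

/-- Solvability of a system of basic constraints. -/
def QSat (L : List QC) : Prop := ∃ x : ℕ → ℝ, ∀ q ∈ L, res q x = 0

/-- All indices and the length are bounded by s. -/
def QBound (L : List QC) (s : ℕ) : Prop :=
  1 ≤ s ∧ L.length ≤ s ∧ ∀ q ∈ L, q.2.1 < s ∧ q.2.2.1 < s ∧ q.2.2.2 < s

/-- Variable, or zero when out of range. -/
noncomputable def Xn (s i : ℕ) : MvPolynomial (Fin s) ℤ := if h : i < s then X ⟨i, h⟩ else 0

/-- Extension by zero. -/
def ext0 {s : ℕ} (y : Fin s → ℝ) (i : ℕ) : ℝ := if h : i < s then y ⟨i, h⟩ else 0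

/-- The residual as a polynomial. -/
noncomputable def resP (s : ℕ) (q : QC) : MvPolynomial (Fin s) ℤ :=
  if q.1 = 0 then Xn s q.2.2.2 - 1
  else if q.1 = 1 then Xn s q.2.1 + Xn s q.2.2.1 - Xn s q.2.2.2
  else Xn s q.2.1 * Xn s q.2.2.1 - Xn s q.2.2.2

lemma aeval_Xn {s : ℕ} (y : Fin s → ℝ) (i : ℕ) : aeval y (Xn s i) = ext0 y i := by
  unfold Xn ext0
  split_ifs <;> simp

lemma aeval_resP {s : ℕ} (y : Fin s → ℝ) (q : QC) : aeval y (resP s q) = res q (ext0 y) := by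
  unfold resP res
  split_ifs <;> simp [aeval_Xn]

lemma l1_Xn (s i : ℕ) : l1 (Xn s i) ≤ 1 := by
  unfold Xn
  split_ifs
  · exact l1_X_le _
  · simp [l1_zero]

lemma deg_Xn (s i : ℕ) : (Xn s i).totalDegree ≤ 1 := by
  unfold Xn
  split_ifs <;> simp

lemma l1_resP (s : ℕ) (q : QC) : l1 (resP s q) ≤ 3 := by
  have h1 := l1_Xn s q.2.1
  have h2 := l1_Xn s q.2.2.1
  have h3 := l1_Xn s q.2.2.2
  unfold resP
  split_ifs
  · have := l1_sub_le (Xn s q.2.2.2) 1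
    have := l1_one_le (σ := Fin s)
    omega
  · have := l1_sub_le (Xn s q.2.1 + Xn s q.2.2.1) (Xn s q.2.2.2)
    have := l1_add_le (Xn s q.2.1) (Xn s q.2.2.1)
    omega
  · have := l1_sub_le (Xn s q.2.1 * Xn s q.2.2.1) (Xn s q.2.2.2)
    have := (l1_mul_le (Xn s q.2.1) (Xn s q.2.2.1)).trans (Nat.mul_le_mul h1 h2)
    omega

lemma deg_resP (s : ℕ) (q : QC) : (resP s q).totalDegree ≤ 2 := by
  have h1 := deg_Xn s q.2.1
  have h2 := deg_Xn s q.2.2.1
  have h3 := deg_Xn s q.2.2.2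
  unfold resP
  split_ifs
  · refine (totalDegree_sub _ _).trans (max_le (by omega) (by simp))
  · refine (totalDegree_sub _ _).trans (max_le ?_ (by omega))
    exact (totalDegree_add _ _).trans (max_le (by omega) (by omega))
  · refine (totalDegree_sub _ _).trans (max_le ?_ (by omega))
    exact (totalDegree_mul _ _).trans (by omega)

/-- The sum of squares of the residuals. -/
noncomputable def sqP (s : ℕ) (L : List QC) : MvPolynomial (Fin s) ℤ :=
  (L.map fun q => resP s q ^ 2).sum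

lemma l1_sqP (s : ℕ) (L : List QC) : l1 (sqP s L) ≤ 9 * L.length := by
  induction L with
  | nil => simp [sqP, l1_zero]
  | cons q L ih =>
    simp only [sqP, List.map_cons, List.sum_cons, List.length_cons] at ih ⊢
    refine (l1_add_le _ _).trans ?_
    have h1 := (l1_pow_le (resP s q) 2).trans (Nat.pow_le_pow_left (l1_resP s q) 2)
    omega

lemma deg_sqP (s : ℕ) (L : List QC) : (sqP s L).totalDegree ≤ 4 := by
  induction L with
  | nil => simp [sqP]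
  | cons q L ih =>
    simp only [sqP, List.map_cons, List.sum_cons] at ih ⊢
    refine (totalDegree_add _ _).trans (max_le ?_ ih)
    have h1 := totalDegree_pow (resP s q) 2
    have h2 := deg_resP s q
    omega

lemma aeval_sqP {s : ℕ} (L : List QC) (y : Fin s → ℝ) :
    aeval y (sqP s L) = (L.map fun q => res q (ext0 y) ^ 2).sum := by
  induction L with
  | nil => simp [sqP]
  | cons q L ih =>
    simp only [sqP, List.map_cons, List.sum_cons, map_add, map_pow, aeval_resP] at ih ⊢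
    rw [ih]

lemma sum_sq_nonneg (L : List QC) (x : ℕ → ℝ) : 0 ≤ (L.map fun q => res q x ^ 2).sum :=
  List.sum_nonneg (by
    intro a ha
    obtain ⟨q, -, rfl⟩ := List.mem_map.1 ha
    positivity)

lemma sum_sq_eq_zero (L : List QC) (x : ℕ → ℝ) :
    (L.map fun q => res q x ^ 2).sum = 0 ↔ ∀ q ∈ L, res q x = 0 := by
  induction L with
  | nil => simp
  | cons q L ih =>
    simp only [List.map_cons, List.sum_cons, List.forall_mem_cons]
    have h1 := sum_sq_nonneg L x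
    have h2 := sq_nonneg (res q x)
    rw [← ih]
    constructor
    · intro h
      exact ⟨pow_eq_zero_iff (two_ne_zero) |>.1 (by linarith), by linarith⟩
    · rintro ⟨h3, h4⟩
      rw [h3, h4]; simp

lemma sum_sq_le (L : List QC) (x : ℕ → ℝ) {δ : ℝ} (h : ∀ q ∈ L, |res q x| ≤ δ) :
    (L.map fun q => res q x ^ 2).sum ≤ L.length * δ ^ 2 := by
  induction L with
  | nil => simp
  | cons q L ih =>
    simp only [List.map_cons, List.sum_cons, List.length_cons]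
    have h1 := ih fun q hq => h q (List.mem_cons_of_mem _ hq)
    have h2 := h q List.mem_cons_self
    have h3 : res q x ^ 2 ≤ δ ^ 2 := by
      rw [← sq_abs]
      exact pow_le_pow_left₀ (abs_nonneg _) h2 2
    push_cast
    linarith

lemma res_ext0 {L : List QC} {s : ℕ} (hb : QBound L s) (x : ℕ → ℝ) {q : QC} (hq : q ∈ L) :
    res q (ext0 fun i : Fin s => x i) = res q x := by
  obtain ⟨h1, h2, h3⟩ := hb.2.2 q hq
  simp [res, ext0, h1, h2, h3]

lemma hb_le {s : ℕ} (hs : 1 ≤ s) : hb s (9 * s) ≤ 2 ^ 2 ^ (5 * s + 7) := by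
  have h0 : s < 2 ^ s := Nat.lt_two_pow_self
  have h1 : 4 * (9 * s) + 1 ≤ 2 ^ (s + 6) := by rw [pow_add]; omega
  have h2 : 6 * (9 * s) + s ≤ 2 ^ (s + 6) := by rw [pow_add]; omega
  have h3 : 5 ^ s ≤ 2 ^ (3 * s) := by
    rw [pow_mul]; exact Nat.pow_le_pow_left (by norm_num) _
  have h4 : (6 * (9 * s) + s) * (4 * (9 * s) + 1) ^ (4 * s + 6) ≤ 2 ^ ((s + 6) * (4 * s + 7)) := by
    calc _ ≤ 2 ^ (s + 6) * (2 ^ (s + 6)) ^ (4 * s + 6) :=
          Nat.mul_le_mul h2 (Nat.pow_le_pow_left h1 _)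
      _ = _ := by rw [← pow_mul, ← pow_add]; congr 1; ring
  have h5 : (6 * (9 * s) + s) * (4 * (9 * s) + 1) ^ (4 * s + 6) + 1
      ≤ 2 ^ ((s + 6) * (4 * s + 7) + 1) := by
    have : 1 ≤ 2 ^ ((s + 6) * (4 * s + 7)) := Nat.one_le_two_pow
    rw [pow_succ 2]; omega
  have h6 : 3 * s + ((s + 6) * (4 * s + 7) + 1) ≤ 2 ^ (2 * s + 7) := by
    have : 2 ^ (2 * s + 7) = 128 * (2 ^ s * 2 ^ s) := by ring
    rw [this]
    nlinarith
  unfold hb
  calc _ ≤ (2 ^ (3 * s) * 2 ^ ((s + 6) * (4 * s + 7) + 1)) ^ 5 ^ s :=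
        Nat.pow_le_pow_left (Nat.mul_le_mul h3 h5) _
    _ = 2 ^ ((3 * s + ((s + 6) * (4 * s + 7) + 1)) * 5 ^ s) := by rw [← pow_add, ← pow_mul]
    _ ≤ 2 ^ (2 ^ (2 * s + 7) * 2 ^ (3 * s)) :=
        Nat.pow_le_pow_right (by norm_num) (Nat.mul_le_mul h6 h3)
    _ = _ := by rw [← pow_add]; congr 2; ring

theorem qs_small {L : List QC} {s : ℕ} (hb' : QBound L s) (h : QSat L) :
    ∃ x : ℕ → ℝ, (∀ q ∈ L, res q x = 0) ∧ ∀ i < s, |x i| ≤ 2 ^ 2 ^ (5 * s + 7) := by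
  obtain ⟨x0, hx0⟩ := h
  have hF : ∀ y : Fin s → ℝ, 0 ≤ aeval y (sqP s L) := fun y => by
    rw [aeval_sqP]; exact sum_sq_nonneg _ _
  have hL : l1 (sqP s L) ≤ 9 * s := (l1_sqP s L).trans (Nat.mul_le_mul_left _ hb'.2.1)
  obtain ⟨y, hy1, hy2⟩ := quant1 hF (deg_sqP s L) hL (x0 := fun i : Fin s => x0 i) (by
    rw [aeval_sqP, sum_sq_eq_zero]
    intro q hq
    rw [res_ext0 hb' x0 hq, hx0 q hq])
  rw [aeval_sqP, sum_sq_eq_zero] at hy1
  refine ⟨ext0 y, hy1, fun i hi => ?_⟩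
  have h1 : y ⟨i, hi⟩ ^ 6 ≤ hb s (9 * s) :=
    (Finset.single_le_sum (f := fun i => y i ^ 6) (fun j _ => by positivity)
      (Finset.mem_univ _)).trans hy2
  have h2 : ((hb s (9 * s) : ℕ) : ℝ) ≤ 2 ^ 2 ^ (5 * s + 7) := by exact_mod_cast hb_le hb'.1
  simp only [ext0, hi, dif_pos]
  by_cases h : |y ⟨i, hi⟩| ≤ 1
  · exact h.trans (one_le_pow₀ (by norm_num))
  · push Not at h
    have h3 : |y ⟨i, hi⟩| ^ 1 ≤ |y ⟨i, hi⟩| ^ 6 := pow_le_pow_right₀ h.le (by norm_num)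
    have h4 : |y ⟨i, hi⟩| ^ 6 = y ⟨i, hi⟩ ^ 6 := Even.pow_abs (by decide) _
    rw [pow_one, h4] at h3
    linarith

theorem qs_approx {L : List QC} {s : ℕ} (hb' : QBound L s) {x : ℕ → ℝ} {δ : ℝ}
    (h1 : ∀ i < s, |x i| ≤ 2 ^ 2 ^ (5 * s + 8)) (h2 : ∀ q ∈ L, |res q x| ≤ δ) (hδ0 : 0 ≤ δ)
    (hδ : δ * 2 ^ 2 ^ (8 * s + 11) < 1) : QSat L := by
  have hs := hb'.1
  have hF : ∀ y : Fin s → ℝ, 0 ≤ aeval y (sqP s L) := fun y => by
    rw [aeval_sqP]; exact sum_sq_nonneg _ _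
  have hL : l1 (sqP s L) ≤ 9 * s := (l1_sqP s L).trans (Nat.mul_le_mul_left _ hb'.2.1)
  set a : ℕ := 2 ^ (5 * s + 8) with ha
  have h0 : s < 2 ^ s := Nat.lt_two_pow_self
  have has : s + 3 ≤ a := by
    have : 5 * s + 8 < a := Nat.lt_two_pow_self
    omega
  have hhb : hb s (9 * s) ≤ 2 ^ a :=
    (hb_le hs).trans (Nat.pow_le_pow_right (by norm_num)
      (Nat.pow_le_pow_right (by norm_num) (by omega)))
  have hT : s * (2 ^ a) ^ 6 + 2 ^ a ≤ 2 ^ (7 * a) := by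
    have e1 : 2 ^ a ≤ (2 ^ a) ^ 6 := Nat.le_self_pow (by norm_num) _
    have e2 : s + 1 ≤ 2 ^ a := le_trans h0 (Nat.pow_le_pow_right (by norm_num) (by omega))
    calc _ ≤ (s + 1) * (2 ^ a) ^ 6 := by nlinarith
      _ ≤ 2 ^ a * (2 ^ a) ^ 6 := Nat.mul_le_mul_right _ e2
      _ = _ := by ring
  have h3 : 5 ^ s ≤ 2 ^ (3 * s) := by
    rw [pow_mul]; exact Nat.pow_le_pow_left (by norm_num) _
  have hv : hb s (9 * s) * (s * (2 ^ a) ^ 6 + 2 ^ a) ^ 5 ^ s ≤ 2 ^ 2 ^ (8 * s + 11) := by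
    have e1 : 1 ≤ 2 ^ (3 * s) := Nat.one_le_two_pow
    calc _ ≤ 2 ^ a * (2 ^ (7 * a)) ^ 5 ^ s := Nat.mul_le_mul hhb (Nat.pow_le_pow_left hT _)
      _ = 2 ^ (a + 7 * a * 5 ^ s) := by rw [← pow_mul, ← pow_add]
      _ ≤ 2 ^ (8 * a * 2 ^ (3 * s)) := by
        refine Nat.pow_le_pow_right (by norm_num) ?_
        nlinarith
      _ = _ := by rw [ha]; congr 1; ring
  have h6s : 6 * s ≤ 2 ^ a := by
    have : 2 ^ (s + 3) ≤ 2 ^ a := Nat.pow_le_pow_right (by norm_num) has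
    rw [pow_add] at this
    omega
  obtain ⟨y, hy⟩ := quant2 hF (deg_sqP s L) hL (T := s * (2 ^ a) ^ 6 + 2 ^ a)
    (v1 := 2 ^ 2 ^ (8 * s + 11)) (x1 := fun i : Fin s => x i)
    (by
      have : ((hb s (9 * s) : ℕ) : ℝ) ≤ 2 ^ a := by exact_mod_cast hhb
      have : (0 : ℝ) ≤ s * (2 ^ a) ^ 6 := by positivity
      linarith)
    (by exact_mod_cast hv) (by positivity)
    (by
      unfold Gv
      have e1 : aeval (fun i : Fin s => x i) (sqP s L) ≤ s * δ ^ 2 := by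
        rw [aeval_sqP]
        refine (sum_sq_le L _ (δ := δ) fun q hq => ?_).trans ?_
        · rw [res_ext0 hb' x hq]; exact h2 q hq
        · have : (L.length : ℝ) ≤ s := by exact_mod_cast hb'.2.1
          gcongr
      have e2 : ∑ i : Fin s, x i ^ 6 ≤ s * ((2 : ℝ) ^ a) ^ 6 := by
        refine (Finset.sum_le_card_nsmul _ _ (((2 : ℝ) ^ a) ^ 6) fun i _ => ?_).trans (by simp)
        rw [← Even.pow_abs (by decide)]
        exact pow_le_pow_left₀ (abs_nonneg _) (h1 i i.2) 6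
      set V : ℝ := 2 ^ 2 ^ (8 * s + 11) with hV
      have hV1 : 1 ≤ V := one_le_pow₀ (by norm_num)
      have e3 : V * δ ^ 2 < 1 := by nlinarith
      have e4 : (6 * s : ℝ) ≤ 2 ^ a := by exact_mod_cast h6s
      have e5 : (1 : ℝ) ≤ s := by exact_mod_cast hs
      have e6 : 6 * V * aeval (fun i : Fin s => x i) (sqP s L) ≤ 6 * V * (s * δ ^ 2) := by gcongr
      nlinarith)
  rw [aeval_sqP, sum_sq_eq_zero] at hy
  exact ⟨_, hy⟩

end Pool.Agent.MP_485bb6_lc
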