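import Mathlib
import Pool.Agent.MP_485bb6_lc.QSys

/-! From basic quadratic systems to homogeneous strict systems, and to systems near one. -/

namespace Pool.Agent.MP_485bb6_lc

open Filter Topology

/-- A strict test (is it a product test, i, j, k, l). -/
abbrev TC := Bool × ℕ × ℕ × ℕ × ℕ

/-- The meaning of a test. -/
def holds (t : TC) (y : ℕ → ℝ) : Prop :=
  if t.1 = true then y t.2.1 * y t.2.2.1 < y t.2.2.2.1 * y t.2.2.2.2
  else y t.2.1 + y t.2.2.1 < y t.2.2.2.1 + y t.2.2.2.2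

@[simp] lemma holds_true (i j k l : ℕ) (y : ℕ → ℝ) :
    holds (true, i, j, k, l) y ↔ y i * y j < y k * y l := by simp [holds]

@[simp] lemma holds_false (i j k l : ℕ) (y : ℕ → ℝ) :
    holds (false, i, j, k, l) y ↔ y i + y j < y k + y l := by simp [holds]

/-- Solvability with the variable zero set to zero. -/
def SSat (L : List TC) : Prop := ∃ y : ℕ → ℝ, y 0 = 0 ∧ ∀ t ∈ L, holds t y

/-- Tests for one basic constraint. -/
def genS (q : QC) : List TC :=
  if q.1 = 0 then [(false, 8 * q.2.2.2 + 4, 0, 1, 0), (false, 1, 0, 8 * q.2.2.2 + 3, 0)]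
  else if q.1 = 1 then [(false, 8 * q.2.2.2 + 4, 0, 8 * q.2.1 + 2, 8 * q.2.2.1 + 2),
    (false, 8 * q.2.1 + 2, 8 * q.2.2.1 + 2, 8 * q.2.2.2 + 3, 0)]
  else [(true, 1, 8 * q.2.2.2 + 4, 8 * q.2.1 + 2, 8 * q.2.2.1 + 2),
    (true, 8 * q.2.1 + 2, 8 * q.2.2.1 + 2, 1, 8 * q.2.2.2 + 3)]

/-- Tests for the two squaring chains. -/
def genC (k : ℕ) : List TC :=
  [(false, 0, 0, 8 * k + 5, 0), (false, 0, 0, 8 * k + 6, 0),
    (true, 8 * (k + 1) + 5, 1, 8 * k + 5, 8 * k + 5), (true, 8 * (k + 1) + 6, 1, 8 * k + 6, 8 * k + 6)]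

/-- Tests for one variable. -/
def genV (s i : ℕ) : List TC :=
  [(false, 8 * i + 3, 0, 8 * i + 2, 8 * (8 * s + 11) + 6),
    (false, 8 * i + 2, 0, 8 * i + 4, 8 * (8 * s + 11) + 6),
    (false, 8 * i + 2, 0, 8 * (5 * s + 8) + 5, 0), (false, 0, 0, 8 * i + 2, 8 * (5 * s + 8) + 5)]

/-- The strict system attached to a basic system. -/
def toStrict (L : List QC) (s : ℕ) : List TC :=
  [(false, 0, 0, 1, 0), (false, 8 * 0 + 5, 0, 1, 1), (false, 8 * 0 + 6, 8 * 0 + 6, 1, 0)] ++
    ((List.range (8 * s + 12)).flatMap genC ++ ((List.range s).flatMap (genV s) ++ L.flatMap genS))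

/-- The valuation used in the forward direction. -/
noncomputable def valS (x : ℕ → ℝ) (d : ℝ) (n : ℕ) : ℝ :=
  if n % 8 = 0 then 0 else if n % 8 = 1 then 1 else if n % 8 = 2 then x (n / 8)
  else if n % 8 = 3 then x (n / 8) + d / 2 else if n % 8 = 4 then x (n / 8) - d / 2
  else if n % 8 = 5 then 5 / 4 * (3 / 2) ^ 2 ^ (n / 8) else 3 / 2 * (1 / 4) ^ 2 ^ (n / 8)

lemma md8 (i r : ℕ) (hr : r < 8) : (8 * i + r) % 8 = r ∧ (8 * i + r) / 8 = i := by omega

lemma valS0 (x : ℕ → ℝ) (d : ℝ) : valS x d 0 = 0 := by simp [valS]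
lemma valS1 (x : ℕ → ℝ) (d : ℝ) : valS x d 1 = 1 := by simp [valS]
lemma valS2 (x : ℕ → ℝ) (d : ℝ) (i : ℕ) : valS x d (8 * i + 2) = x i := by
  simp only [valS, md8 i 2 (by norm_num)]; simp
lemma valS3 (x : ℕ → ℝ) (d : ℝ) (i : ℕ) : valS x d (8 * i + 3) = x i + d / 2 := by
  simp only [valS, md8 i 3 (by norm_num)]; simp
lemma valS4 (x : ℕ → ℝ) (d : ℝ) (i : ℕ) : valS x d (8 * i + 4) = x i - d / 2 := by
  simp only [valS, md8 i 4 (by norm_num)]; simp
lemma valS5 (x : ℕ → ℝ) (d : ℝ) (i : ℕ) : valS x d (8 * i + 5) = 5 / 4 * (3 / 2) ^ 2 ^ i := by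
  simp only [valS, md8 i 5 (by norm_num)]; simp
lemma valS6 (x : ℕ → ℝ) (d : ℝ) (i : ℕ) : valS x d (8 * i + 6) = 3 / 2 * (1 / 4) ^ 2 ^ i := by
  simp only [valS, md8 i 6 (by norm_num)]; simp

theorem toStrict_of_qsat {L : List QC} {s : ℕ} (hb : QBound L s) (h : QSat L) :
    SSat (toStrict L s) := by
  obtain ⟨x, hx, hxb⟩ := qs_small hb h
  set d : ℝ := 3 / 2 * (1 / 4) ^ 2 ^ (8 * s + 11) with hd
  have hd0 : 0 < d := by positivity
  refine ⟨valS x d, valS0 x d, fun t ht => ?_⟩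
  simp only [toStrict, List.mem_append, List.mem_flatMap, List.mem_range] at ht
  rcases ht with ht | ⟨k, -, ht⟩ | ⟨i, hi, ht⟩ | ⟨q, hq, ht⟩
  · simp only [List.mem_cons, List.not_mem_nil, or_false] at ht
    rcases ht with rfl | rfl | rfl <;>
      simp only [holds_false, valS0, valS1, valS5, valS6] <;> norm_num
  · simp only [genC, List.mem_cons, List.not_mem_nil, or_false] at ht
    have h1 : (0 : ℝ) < (3 / 2) ^ 2 ^ k := by positivity
    have h2 : (0 : ℝ) < (1 / 4) ^ 2 ^ k := by positivity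
    rcases ht with rfl | rfl | rfl | rfl <;>
      simp only [holds_false, holds_true, valS0, valS1, valS5, valS6, pow_succ 2 k, pow_mul] <;>
      nlinarith
  · simp only [genV, List.mem_cons, List.not_mem_nil, or_false] at ht
    have h1 := abs_le.1 (hxb i hi)
    have h2 : (2 : ℝ) ^ 2 ^ (5 * s + 7) ≤ (3 / 2) ^ 2 ^ (5 * s + 8) := by
      rw [pow_succ' 2 (5 * s + 7), pow_mul]
      exact pow_le_pow_left₀ (by norm_num) (by norm_num) _
    have h3 : (0 : ℝ) < (3 / 2) ^ 2 ^ (5 * s + 8) := by positivity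
    rcases ht with rfl | rfl | rfl | rfl <;>
      simp only [holds_false, valS0, valS2, valS3, valS4, valS5, valS6, ← hd] <;> linarith
  · have h1 := hx q hq
    unfold genS at ht
    unfold res at h1
    split_ifs at ht h1 <;> simp only [List.mem_cons, List.not_mem_nil, or_false] at ht <;>
      rcases ht with rfl | rfl <;>
      simp only [holds_false, holds_true, valS0, valS1, valS2, valS3, valS4] <;> linarith

theorem qsat_of_toStrict {L : List QC} {s : ℕ} (hb : QBound L s) (h : SSat (toStrict L s)) :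
    QSat L := by
  obtain ⟨y, hy0, hy⟩ := h
  simp only [toStrict, List.mem_append, List.mem_flatMap, List.mem_range] at hy
  have hη : 0 < y 1 := by
    have := hy (false, 0, 0, 1, 0) (Or.inl (by simp))
    simpa [hy0] using this
  have hC : ∀ k < 8 * s + 12, ∀ t ∈ genC k, holds t y := fun k hk t ht =>
    hy t (Or.inr (Or.inl ⟨k, hk, ht⟩))
  have hV : ∀ i < s, ∀ t ∈ genV s i, holds t y := fun i hi t ht =>
    hy t (Or.inr (Or.inr (Or.inl ⟨i, hi, ht⟩)))
  have hS : ∀ q ∈ L, ∀ t ∈ genS q, holds t y := fun q hq t ht =>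
    hy t (Or.inr (Or.inr (Or.inr ⟨q, hq, ht⟩)))
  simp only [genC, genV, List.forall_mem_cons, holds_true, holds_false, hy0, add_zero,
    List.not_mem_nil, false_imp_iff, implies_true, and_true] at hC hV
  have hR : ∀ k < 8 * s + 12, y (8 * k + 5) < y 1 * 2 ^ 2 ^ k := by
    intro k hk
    induction k with
    | zero =>
      have := hy (false, 8 * 0 + 5, 0, 1, 1) (Or.inl (by simp))
      simp only [holds_false, hy0] at this
      rw [pow_zero, pow_one]
      linarith
    | succ k ih =>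
      have h1 := ih (by omega)
      obtain ⟨h2, -, h3, -⟩ := hC k (by omega)
      have h4 : y (8 * k + 5) * y (8 * k + 5) < (y 1 * 2 ^ 2 ^ k) * (y 1 * 2 ^ 2 ^ k) :=
        mul_lt_mul'' h1 h1 h2.le h2.le
      rw [pow_succ 2 k, pow_mul]
      refine lt_of_mul_lt_mul_right (a := y 1) ?_ hη.le
      nlinarith
  have hD : ∀ k < 8 * s + 12, y (8 * k + 6) * 2 ^ 2 ^ k < y 1 := by
    intro k hk
    induction k with
    | zero =>
      have := hy (false, 8 * 0 + 6, 8 * 0 + 6, 1, 0) (Or.inl (by simp))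
      simp only [holds_false, hy0] at this
      rw [pow_zero, pow_one]
      linarith
    | succ k ih =>
      have h1 := ih (by omega)
      obtain ⟨-, h2, -, h3⟩ := hC k (by omega)
      have h0 : (0 : ℝ) < 2 ^ 2 ^ k := by positivity
      have h5 : 0 ≤ y (8 * k + 6) * 2 ^ 2 ^ k := by positivity
      have h4 : (y (8 * k + 6) * 2 ^ 2 ^ k) * (y (8 * k + 6) * 2 ^ 2 ^ k) < y 1 * y 1 :=
        mul_lt_mul'' h1 h1 h5 h5
      rw [pow_succ 2 k, pow_mul]
      refine lt_of_mul_lt_mul_right (a := y 1) ?_ hη.le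
      have h6 : y (8 * (k + 1) + 6) * y 1 * (2 ^ 2 ^ k) ^ 2
          < y (8 * k + 6) * y (8 * k + 6) * (2 ^ 2 ^ k) ^ 2 := by gcongr
      nlinarith
  have hD0 := (hC (8 * s + 11) (by omega)).2.1
  refine qs_approx hb (x := fun i => y (8 * i + 2) / y 1) (δ := y (8 * (8 * s + 11) + 6) / y 1)
    (fun i hi => ?_) (fun q hq => ?_) (by positivity) ?_
  · obtain ⟨-, -, h1, h2⟩ := hV i hi
    have h3 := hR (5 * s + 8) (by omega)
    rw [abs_div, abs_of_pos hη, div_le_iff₀ hη, abs_le]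
    constructor <;> linarith
  · obtain ⟨hi, hj, hk⟩ := hb.2.2 q hq
    obtain ⟨h1, h2, -, -⟩ := hV _ hk
    have h3 := hS q hq
    unfold genS at h3
    unfold res
    set D := y (8 * (8 * s + 11) + 6) with hDdef
    split_ifs at h3 ⊢ <;>
      simp only [List.forall_mem_cons, holds_true, holds_false, hy0, add_zero,
        List.not_mem_nil, false_imp_iff, implies_true, and_true] at h3 <;>
      obtain ⟨h4, h5⟩ := h3
    · have e : y (8 * q.2.2.2 + 2) / y 1 - 1 = (y (8 * q.2.2.2 + 2) - y 1) / y 1 := by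
        field_simp
      rw [e, abs_div, abs_of_pos hη]
      gcongr
      rw [abs_le]; constructor <;> linarith
    · rw [← add_div, ← sub_div, abs_div, abs_of_pos hη]
      gcongr
      rw [abs_le]; constructor <;> linarith
    · have e : y (8 * q.2.1 + 2) / y 1 * (y (8 * q.2.2.1 + 2) / y 1) - y (8 * q.2.2.2 + 2) / y 1
          = (y (8 * q.2.1 + 2) * y (8 * q.2.2.1 + 2) - y 1 * y (8 * q.2.2.2 + 2)) / y 1 / y 1 := by
        field_simp
      rw [e, abs_div, abs_of_pos hη]
      gcongr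
      rw [abs_div, abs_of_pos hη, div_le_iff₀ hη, abs_le]
      constructor <;> nlinarith
  · have := hD (8 * s + 11) (by omega)
    rw [div_mul_eq_mul_div, div_lt_one hη]
    exact this

/-- Solvability in positive reals. -/
def NSat (L : List TC) : Prop := ∃ A : ℕ → ℝ, (∀ i, 0 < A i) ∧ ∀ t ∈ L, holds t A

/-- Solvability arbitrarily close to the all-ones point. -/
def NNear (L : List TC) : Prop :=
  ∃ A : ℝ → ℕ → ℝ, (∀ i, Tendsto (fun t => A t i) (𝓝[>] 0) (𝓝 1)) ∧
    ∀ t > 0, ∀ q ∈ L, holds q (A t)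

/-- Tests near one for one homogeneous test. -/
def genN (c : ℕ) (q : TC) : List TC :=
  if q.1 = true then
    [(true, 5 * q.2.1, 5 * q.2.2.1, 5 * c + 1, 5 * 0),
      (true, 5 * c + 2, 5 * 0, 5 * q.2.2.2.1, 5 * q.2.2.2.2),
      (false, 5 * c + 1, 5 * q.2.2.2.1, 5 * c + 3, 5 * 0),
      (false, 5 * c + 4, 5 * 0, 5 * c + 2, 5 * q.2.1),
      (false, 5 * c + 3, 5 * q.2.2.2.2, 5 * c + 4, 5 * q.2.2.1)]
  else [(false, 5 * q.2.1, 5 * q.2.2.1, 5 * q.2.2.2.1, 5 * q.2.2.2.2)]

/-- The system near one attached to a homogeneous strict system. -/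
def toNear (L : List TC) : List TC :=
  (List.range L.length).flatMap fun c => genN c (L.getD c (false, 0, 0, 0, 0))

/-- Auxiliary values in the forward direction. -/
noncomputable def auxN (y : ℕ → ℝ) (q : TC) (r : ℕ) (t : ℝ) : ℝ :=
  if r = 1 then (1 + t * y q.2.1) * (1 + t * y q.2.2.1)
    + t ^ 2 * (y q.2.2.2.1 * y q.2.2.2.2 - y q.2.1 * y q.2.2.1) / 10
  else if r = 2 then (1 + t * y q.2.2.2.1) * (1 + t * y q.2.2.2.2)
    - t ^ 2 * (y q.2.2.2.1 * y q.2.2.2.2 - y q.2.1 * y q.2.2.1) / 10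
  else if r = 3 then (1 + t * y q.2.1) * (1 + t * y q.2.2.1) + t * y q.2.2.2.1
    + 2 * (t ^ 2 * (y q.2.2.2.1 * y q.2.2.2.2 - y q.2.1 * y q.2.2.1) / 10)
  else (1 + t * y q.2.2.2.1) * (1 + t * y q.2.2.2.2) + t * y q.2.1
    - 2 * (t ^ 2 * (y q.2.2.2.1 * y q.2.2.2.2 - y q.2.1 * y q.2.2.1) / 10)

/-- The valuation used in the forward direction. -/
noncomputable def valN (L : List TC) (y : ℕ → ℝ) (t : ℝ) (n : ℕ) : ℝ :=
  if n % 5 = 0 then 1 + t * y (n / 5) else auxN y (L.getD (n / 5) (false, 0, 0, 0, 0)) (n % 5) t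

lemma valN0 (L : List TC) (y : ℕ → ℝ) (t : ℝ) (i : ℕ) : valN L y t (5 * i) = 1 + t * y i := by
  simp [valN]

lemma valNr (L : List TC) (y : ℕ → ℝ) (t : ℝ) (c r : ℕ) (h0 : 0 < r) (h5 : r < 5) :
    valN L y t (5 * c + r) = auxN y (L.getD c (false, 0, 0, 0, 0)) r t := by
  have h1 : (5 * c + r) % 5 = r := by omega
  have h2 : (5 * c + r) / 5 = c := by omega
  simp only [valN, h1, h2, h0.ne', if_false]

lemma getD_mem {α : Type} (L : List α) (d : α) {c : ℕ} (hc : c < L.length) : L.getD c d ∈ L := by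
  rw [List.getD_eq_getElem _ _ hc]
  exact List.getElem_mem hc

lemma exists_getD {α : Type} (L : List α) (d : α) {a : α} (ha : a ∈ L) :
    ∃ c < L.length, L.getD c d = a := by
  obtain ⟨c, hc, rfl⟩ := List.getElem_of_mem ha
  exact ⟨c, hc, List.getD_eq_getElem _ _ hc⟩

theorem toNear_of_ssat {L : List TC} (h : SSat L) : NNear (toNear L) := by
  obtain ⟨y, hy0, hy⟩ := h
  refine ⟨valN L y, fun i => ?_, fun t ht q hq => ?_⟩
  · refine Tendsto.mono_left ?_ nhdsWithin_le_nhds
    have hc : Continuous fun t => valN L y t i := by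
      unfold valN auxN
      split_ifs <;> fun_prop
    have h0 : valN L y 0 i = 1 := by
      unfold valN auxN
      split_ifs <;> simp
    simpa [h0] using hc.tendsto 0
  · simp only [toNear, List.mem_flatMap, List.mem_range] at hq
    obtain ⟨c, hc, hq⟩ := hq
    have h1 := hy _ (getD_mem L (false, 0, 0, 0, 0) hc)
    unfold genN at hq
    unfold holds at h1
    have ht2 : 0 < t ^ 2 := by positivity
    split_ifs at hq h1
    · have h2 := mul_pos ht2 (sub_pos.2 h1)
      simp only [List.mem_cons, List.not_mem_nil, or_false] at hq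
      rcases hq with rfl | rfl | rfl | rfl | rfl <;>
        simp only [holds_true, holds_false, valN0, hy0, valNr L y t c 1 (by norm_num) (by norm_num),
          valNr L y t c 2 (by norm_num) (by norm_num), valNr L y t c 3 (by norm_num) (by norm_num),
          valNr L y t c 4 (by norm_num) (by norm_num), auxN, if_true, if_false, OfNat.ofNat_ne_one,
          Nat.reduceEqDiff] <;> nlinarith
    · simp only [List.mem_cons, List.not_mem_nil, or_false] at hq
      subst hq
      simp only [holds_false, valN0]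
      nlinarith

theorem ssat_of_toNear {L : List TC} (h : NSat (toNear L)) : SSat L := by
  obtain ⟨A, hA, h⟩ := h
  have h0 := hA 0
  refine ⟨fun i => A (5 * i) - A 0, by simp, fun q hq => ?_⟩
  obtain ⟨c, hc, rfl⟩ := exists_getD L (false, 0, 0, 0, 0) hq
  have h1 : ∀ t ∈ genN c (L.getD c (false, 0, 0, 0, 0)), holds t A := fun t ht =>
    h t (by simp only [toNear, List.mem_flatMap, List.mem_range]; exact ⟨c, hc, ht⟩)
  unfold genN at h1
  unfold holds
  split_ifs at h1 ⊢ <;>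
    simp only [List.forall_mem_cons, holds_true, holds_false, mul_zero,
      List.not_mem_nil, false_imp_iff, implies_true, and_true] at h1
  · obtain ⟨h2, h3, h4, h5, h6⟩ := h1
    nlinarith
  · linarith

end Pool.Agent.MP_485bb6_lc
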