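import Mathlib
import Pool.Agent.MP_485bb6_lc.Strict

/-! From systems near one to systems of quadrilateral tests. -/

namespace Pool.Agent.MP_485bb6_lc

open Filter Topology

/-- Four indices. -/
abbrev N4 := ℕ × ℕ × ℕ × ℕ

/-- Four slope indices and four height indices. -/
abbrev Quad := N4 × N4

/-- Cyclic selection. -/
def sel (t : N4) (k : ℕ) : ℕ :=
  if k % 4 = 0 then t.1 else if k % 4 = 1 then t.2.1 else if k % 4 = 2 then t.2.2.1 else t.2.2.2

/-- The horizontal displacement along the closed path. -/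
def qF (q : Quad) (u w : ℕ → ℝ) : ℝ :=
  u q.1.1 * (w q.2.2.1 - w q.2.1) + u q.1.2.1 * (w q.2.2.2.1 - w q.2.2.1)
    + u q.1.2.2.1 * (w q.2.2.2.2 - w q.2.2.2.1) + u q.1.2.2.2 * (w q.2.1 - w q.2.2.2.2)

/-- Cyclically consecutive entries differ. -/
def Cyc (t : N4) : Prop := t.1 ≠ t.2.1 ∧ t.2.1 ≠ t.2.2.1 ∧ t.2.2.1 ≠ t.2.2.2 ∧ t.2.2.2 ≠ t.1

/-- Nondegenerate and closing up at the base point. -/
def QGen (q : Quad) : Prop := Cyc q.1 ∧ Cyc q.2 ∧ qF q (fun n => n) (fun n => n) = 0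

/-- Solvable near the base point. -/
def QNear (L : List Quad) : Prop :=
  ∃ u w : ℝ → ℕ → ℝ, (∀ s, Tendsto (fun t => u t s) (𝓝[>] 0) (𝓝 s)) ∧
    (∀ s, Tendsto (fun t => w t s) (𝓝[>] 0) (𝓝 s)) ∧
    ∀ q ∈ L, ∀ᶠ t in 𝓝[>] 0, 0 < qF q (u t) (w t)

/-- Solvable with the right order of slopes and heights. -/
def QSatO (L : List Quad) : Prop :=
  ∃ u w : ℕ → ℝ, StrictMonoOn u {s | ∃ q ∈ L, ∃ j, sel q.1 j = s} ∧
    StrictMonoOn w {s | ∃ q ∈ L, ∃ j, sel q.2 j = s} ∧ ∀ q ∈ L, 0 < qF q u w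

/-- The zigzag test. -/
def zig (a b c d : ℕ) : Quad := ((c, d, b, a), (0, 1, 0, 1))

lemma qF_zig (a b c d : ℕ) (u w : ℕ → ℝ) :
    qF (zig a b c d) u w = ((u c - u d) - (u a - u b)) * (w 1 - w 0) := by
  simp only [qF, zig]; ring

/-- Quadrilateral tests for one test near one. -/
def genQ (c : ℕ) (q : TC) : List Quad :=
  if q.1 = true then
    [zig (8 * q.2.1 + 1) (8 * q.2.1) (8 * c + 3) (8 * c + 2),
      zig (8 * c + 4) (8 * c + 3) (8 * q.2.2.2.1 + 1) (8 * q.2.2.2.1),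
      zig (8 * q.2.2.1 + 1) (8 * q.2.2.1) (8 * c + 6) (8 * c + 5),
      zig (8 * c + 7) (8 * c + 6) (8 * q.2.2.2.2 + 1) (8 * q.2.2.2.2),
      ((8 * c + 3, 8 * c + 4, 8 * c + 3, 8 * c + 2), (2 * c + 3, 0, 1, 2 * c + 2)),
      ((8 * c + 6, 8 * c + 7, 8 * c + 6, 8 * c + 5), (1, 2 * c + 2, 2 * c + 3, 0))]
  else
    [zig (8 * q.2.1 + 1) (8 * q.2.1) (8 * c + 3) (8 * c + 2),
      zig (8 * q.2.2.1 + 1) (8 * q.2.2.1) (8 * c + 4) (8 * c + 3),
      zig (8 * c + 6) (8 * c + 5) (8 * q.2.2.2.1 + 1) (8 * q.2.2.2.1),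
      zig (8 * c + 7) (8 * c + 6) (8 * q.2.2.2.2 + 1) (8 * q.2.2.2.2),
      zig (8 * c + 4) (8 * c + 2) (8 * c + 7) (8 * c + 5)]

/-- The quadrilateral system attached to a system near one. -/
def toQuad (L : List TC) : List Quad :=
  (List.range L.length).flatMap fun c => genQ c (L.getD c (false, 0, 0, 0, 0))

theorem qgen_toQuad (L : List TC) : ∀ q ∈ toQuad L, QGen q := by
  intro q hq
  simp only [toQuad, List.mem_flatMap, List.mem_range] at hq
  obtain ⟨c, -, hq⟩ := hq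
  unfold genQ at hq
  split_ifs at hq <;> simp only [List.mem_cons, List.not_mem_nil, or_false] at hq
  · rcases hq with rfl | rfl | rfl | rfl | rfl | rfl <;>
      refine ⟨?_, ?_, ?_⟩ <;> simp only [Cyc, zig, qF] <;> first | omega | (push_cast; ring)
  · rcases hq with rfl | rfl | rfl | rfl | rfl <;>
      refine ⟨?_, ?_, ?_⟩ <;> simp only [Cyc, zig, qF] <;> first | omega | (push_cast; ring)

/-- The slack parameter. -/
noncomputable def slackQ (q : TC) (A : ℕ → ℝ) : ℝ :=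
  if q.1 = true then (A q.2.2.2.1 * A q.2.2.2.2 - A q.2.1 * A q.2.2.1) / 10
  else (A q.2.2.2.1 + A q.2.2.2.2 - (A q.2.1 + A q.2.2.1)) / 10

/-- Private slopes. -/
noncomputable def auxU (q : TC) (A : ℕ → ℝ) (r : ℕ) : ℝ :=
  if r = 2 then 2 else if r = 3 then 2 + (A q.2.1 + slackQ q A)
  else if r = 4 then 2 + (A q.2.1 + slackQ q A) +
    (if q.1 = true then A q.2.2.2.1 - slackQ q A else A q.2.2.1 + slackQ q A)
  else if r = 5 then 5
  else if r = 6 then 5 + (if q.1 = true then A q.2.2.1 + slackQ q A else A q.2.2.2.1 - slackQ q A)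
  else 5 + (if q.1 = true then A q.2.2.1 + slackQ q A else A q.2.2.2.1 - slackQ q A)
    + (A q.2.2.2.2 - slackQ q A)

/-- Slopes in the forward direction. -/
noncomputable def valU (L : List TC) (A : ℕ → ℝ) (n : ℕ) : ℝ :=
  8 * (n / 8 : ℕ) + if n % 8 = 0 then 0 else if n % 8 = 1 then A (n / 8)
    else auxU (L.getD (n / 8) (false, 0, 0, 0, 0)) A (n % 8)

/-- The private ratio. -/
noncomputable def auxW (q : TC) (A : ℕ → ℝ) : ℝ :=
  ((A q.2.2.1 + slackQ q A) / (A q.2.2.2.2 - slackQ q A)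
    + (A q.2.2.2.1 - slackQ q A) / (A q.2.1 + slackQ q A)) / 2

/-- Heights in the forward direction. -/
noncomputable def valW (L : List TC) (A : ℕ → ℝ) (n : ℕ) : ℝ :=
  if n % 2 = 0 ∨ n = 1 then n else (n - 1 : ℕ) + auxW (L.getD (n / 2 - 1) (false, 0, 0, 0, 0)) A

lemma valU0 (L : List TC) (A : ℕ → ℝ) (i : ℕ) : valU L A (8 * i) = 8 * i := by
  simp [valU]

lemma valU1 (L : List TC) (A : ℕ → ℝ) (i : ℕ) : valU L A (8 * i + 1) = 8 * i + A i := by
  simp only [valU, md8 i 1 (by norm_num)]; simp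

lemma valUr (L : List TC) (A : ℕ → ℝ) (c r : ℕ) (h2 : 2 ≤ r) (h8 : r < 8) :
    valU L A (8 * c + r) = 8 * c + auxU (L.getD c (false, 0, 0, 0, 0)) A r := by
  have h0 : r ≠ 0 := by omega
  have h1 : r ≠ 1 := by omega
  simp only [valU, md8 c r h8, h0, h1, if_false]

lemma valW0 (L : List TC) (A : ℕ → ℝ) : valW L A 0 = 0 := by simp [valW]
lemma valW1 (L : List TC) (A : ℕ → ℝ) : valW L A 1 = 1 := by simp [valW]
lemma valW2 (L : List TC) (A : ℕ → ℝ) (c : ℕ) : valW L A (2 * c + 2) = 2 * c + 2 := by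
  have h : (2 * c + 2) % 2 = 0 := by omega
  simp only [valW, h, true_or, if_true]; push_cast; ring
lemma valW3 (L : List TC) (A : ℕ → ℝ) (c : ℕ) :
    valW L A (2 * c + 3) = 2 * c + 2 + auxW (L.getD c (false, 0, 0, 0, 0)) A := by
  have h : ¬ ((2 * c + 3) % 2 = 0 ∨ 2 * c + 3 = 1) := by omega
  have h1 : (2 * c + 3) / 2 - 1 = c := by omega
  have h2 : 2 * c + 3 - 1 = 2 * c + 2 := by omega
  simp only [valW, h, if_false, h1, h2]; push_cast; ring

lemma tendsto_slackQ {A : ℝ → ℕ → ℝ} {F : Filter ℝ} (hA : ∀ i, Tendsto (fun t => A t i) F (𝓝 1))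
    (q : TC) : Tendsto (fun t => slackQ q (A t)) F (𝓝 0) := by
  unfold slackQ
  split_ifs
  · simpa using (((hA q.2.2.2.1).mul (hA q.2.2.2.2)).sub ((hA q.2.1).mul (hA q.2.2.1))).div_const 10
  · simpa using (((hA q.2.2.2.1).add (hA q.2.2.2.2)).sub ((hA q.2.1).add (hA q.2.2.1))).div_const 10

theorem qnear_of_nnear {L : List TC} (h : NNear L) : QNear (toQuad L) := by
  obtain ⟨A, hA, hL⟩ := h
  have hp : ∀ (q : TC) (i : ℕ), Tendsto (fun t => A t i + slackQ q (A t)) (𝓝[>] 0) (𝓝 1) :=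
    fun q i => by simpa using (hA i).add (tendsto_slackQ hA q)
  have hm : ∀ (q : TC) (i : ℕ), Tendsto (fun t => A t i - slackQ q (A t)) (𝓝[>] 0) (𝓝 1) :=
    fun q i => by simpa using (hA i).sub (tendsto_slackQ hA q)
  refine ⟨fun t => valU L (A t), fun t => valW L (A t), fun s => ?_, fun s => ?_, fun q hq => ?_⟩
  · have e : (s : ℝ) = 8 * (s / 8 : ℕ) + (s % 8 : ℕ) := by
      exact_mod_cast (Nat.div_add_mod s 8).symm
    rw [e]
    unfold valU
    refine tendsto_const_nhds.add ?_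
    set q := L.getD (s / 8) (false, 0, 0, 0, 0)
    have hi1 : Tendsto (fun t => if q.1 = true then A t q.2.2.2.1 - slackQ q (A t)
        else A t q.2.2.1 + slackQ q (A t)) (𝓝[>] 0) (𝓝 1) := by
      split_ifs
      · exact hm _ _
      · exact hp _ _
    have hi2 : Tendsto (fun t => if q.1 = true then A t q.2.2.1 + slackQ q (A t)
        else A t q.2.2.2.1 - slackQ q (A t)) (𝓝[>] 0) (𝓝 1) := by
      split_ifs
      · exact hp _ _
      · exact hm _ _
    have h8 : s % 8 < 8 := Nat.mod_lt _ (by norm_num)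
    generalize s % 8 = r at h8
    interval_cases r <;> simp only [auxU, if_true, if_false, OfNat.ofNat_ne_one,
      OfNat.ofNat_ne_zero, one_ne_zero, Nat.reduceEqDiff]
    · simp
    · simpa using hA _
    · simp
    · convert (hp q q.2.1).const_add 2 using 2; norm_num
    · convert ((hp q q.2.1).const_add 2).add hi1 using 2; norm_num
    · simp
    · convert hi2.const_add 5 using 2; norm_num
    · convert (hi2.const_add 5).add (hm q q.2.2.2.2) using 2; norm_num
  · simp only [valW]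
    split_ifs with hs
    · exact tendsto_const_nhds
    · have e : (s : ℝ) = (s - 1 : ℕ) + 1 := by
        have : s = s - 1 + 1 := by omega
        exact_mod_cast this
      rw [e]
      refine tendsto_const_nhds.add ?_
      unfold auxW
      set q := L.getD (s / 2 - 1) (false, 0, 0, 0, 0)
      have := (((hp q q.2.2.1).div (hm q q.2.2.2.2) one_ne_zero).add
        ((hm q q.2.2.2.1).div (hp q q.2.1) one_ne_zero)).div_const 2
      norm_num at this
      exact this
  · simp only [toQuad, List.mem_flatMap, List.mem_range] at hq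
    obtain ⟨c, hc, hq⟩ := hq
    set r := L.getD c (false, 0, 0, 0, 0) with hr
    have hrL : r ∈ L := getD_mem L _ hc
    have e1 := (hp r r.2.1).eventually (lt_mem_nhds (show (0 : ℝ) < 1 by norm_num))
    have e2 := (hm r r.2.2.2.2).eventually (lt_mem_nhds (show (0 : ℝ) < 1 by norm_num))
    have e3 := (((hA r.2.1).add (hA r.2.2.1)).add ((hA r.2.2.2.1).add (hA r.2.2.2.2))).eventually
      (gt_mem_nhds (show (1 + 1 + (1 + 1) : ℝ) < 10 by norm_num))
    filter_upwards [e1, e2, e3, self_mem_nhdsWithin] with t h1 h2 h3 ht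
    have h4 := hL t ht r hrL
    unfold genQ at hq
    unfold holds at h4
    have hU := fun k h2 h8 => valUr L (A t) c k h2 h8
    rw [← hr] at hU
    split_ifs at hq h4 with hb <;> simp only [List.mem_cons, List.not_mem_nil, or_false] at hq
    · have hz : 0 < slackQ r (A t) := by simp only [slackQ, hb, if_true]; linarith
      have h5 : (A t r.2.1 + slackQ r (A t)) * (A t r.2.2.1 + slackQ r (A t))
          < (A t r.2.2.2.1 - slackQ r (A t)) * (A t r.2.2.2.2 - slackQ r (A t)) := by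
        have e : A t r.2.2.2.1 * A t r.2.2.2.2 - A t r.2.1 * A t r.2.2.1 = 10 * slackQ r (A t) := by
          simp only [slackQ, hb, if_true]; ring
        nlinarith
      have h6 : (A t r.2.2.1 + slackQ r (A t)) / (A t r.2.2.2.2 - slackQ r (A t))
          < (A t r.2.2.2.1 - slackQ r (A t)) / (A t r.2.1 + slackQ r (A t)) := by
        rw [div_lt_div_iff₀ h2 h1]; linarith
      have h7 : auxW r (A t) * (A t r.2.1 + slackQ r (A t)) < A t r.2.2.2.1 - slackQ r (A t) := by
        rw [← lt_div_iff₀ h1]; unfold auxW; linarith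
      have h8 : A t r.2.2.1 + slackQ r (A t) < auxW r (A t) * (A t r.2.2.2.2 - slackQ r (A t)) := by
        rw [← div_lt_iff₀ h2]; unfold auxW; linarith
      rcases hq with rfl | rfl | rfl | rfl | rfl | rfl <;>
        simp only [qF, zig, valU0, valU1, valW0, valW1, valW2, valW3, ← hr,
          hU 2 (by norm_num) (by norm_num), hU 3 (by norm_num) (by norm_num),
          hU 4 (by norm_num) (by norm_num), hU 5 (by norm_num) (by norm_num),
          hU 6 (by norm_num) (by norm_num), hU 7 (by norm_num) (by norm_num), auxU, hb,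
          if_true, if_false, Nat.reduceEqDiff] <;> linarith
    · have hz : 0 < slackQ r (A t) := by simp only [slackQ, hb, if_false]; simp; linarith
      have e : A t r.2.2.2.1 + A t r.2.2.2.2 - (A t r.2.1 + A t r.2.2.1) = 10 * slackQ r (A t) := by
        simp only [slackQ, hb, if_false]; simp; ring
      rcases hq with rfl | rfl | rfl | rfl | rfl <;>
        simp only [qF, zig, valU0, valU1, valW0, valW1, valW2, valW3, ← hr,
          hU 2 (by norm_num) (by norm_num), hU 3 (by norm_num) (by norm_num),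
          hU 4 (by norm_num) (by norm_num), hU 5 (by norm_num) (by norm_num),
          hU 6 (by norm_num) (by norm_num), hU 7 (by norm_num) (by norm_num), auxU, hb,
          if_true, if_false, Nat.reduceEqDiff, Bool.false_eq_true] <;> linarith

lemma sel_mem (t : N4) :
    (∃ j, sel t j = t.1) ∧ (∃ j, sel t j = t.2.1) ∧ (∃ j, sel t j = t.2.2.1) ∧
      (∃ j, sel t j = t.2.2.2) :=
  ⟨⟨0, rfl⟩, ⟨1, rfl⟩, ⟨2, rfl⟩, ⟨3, rfl⟩⟩

theorem nsat_of_qsato {L : List TC} (h : QSatO (toQuad L)) : NSat L := by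
  obtain ⟨u, w, hu, hw, hF⟩ := h
  refine ⟨fun i => if 0 < u (8 * i + 1) - u (8 * i) then u (8 * i + 1) - u (8 * i) else 1,
    fun i => by beta_reduce; split_ifs with h <;> [exact h; exact one_pos], fun r hr => ?_⟩
  obtain ⟨c, hc, rfl⟩ := exists_getD L (false, 0, 0, 0, 0) hr
  set r := L.getD c (false, 0, 0, 0, 0) with hr
  have hmem : ∀ q ∈ genQ c r, q ∈ toQuad L := fun q hq => by
    simp only [toQuad, List.mem_flatMap, List.mem_range]; exact ⟨c, hc, hq⟩
  have hz : ∀ a b c d, zig a b c d ∈ toQuad L → 0 < w 1 - w 0 ∧ u a - u b < u c - u d ∧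
      (b < a → 0 < u a - u b) ∧ (d < c → 0 < u c - u d) := by
    intro a b c d hq
    obtain ⟨s1, s2, s3, s4⟩ := sel_mem (zig a b c d).1
    obtain ⟨t1, t2, -, -⟩ := sel_mem (zig a b c d).2
    have h1 : w 0 < w 1 := hw ⟨_, hq, t1⟩ ⟨_, hq, t2⟩ (show 0 < 1 by norm_num)
    have h2 := hF _ hq
    rw [qF_zig] at h2
    refine ⟨by linarith, ?_, fun hab => ?_, fun hcd => ?_⟩
    · have := (mul_pos_iff_of_pos_right (sub_pos.2 h1)).1 h2
      linarith
    · exact sub_pos.2 (hu ⟨_, hq, s3⟩ ⟨_, hq, s4⟩ hab)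
    · exact sub_pos.2 (hu ⟨_, hq, s2⟩ ⟨_, hq, s1⟩ hcd)
  unfold genQ at hmem
  unfold holds
  split_ifs at hmem ⊢ with hb <;>
    simp only [List.forall_mem_cons, List.not_mem_nil, false_imp_iff, implies_true, and_true] at hmem
  · obtain ⟨m1, m2, m3, m4, m5, m6⟩ := hmem
    obtain ⟨w01, a1, a2, a3⟩ := hz _ _ _ _ m1
    obtain ⟨-, b1, b2, b3⟩ := hz _ _ _ _ m2
    obtain ⟨-, c1, c2, c3⟩ := hz _ _ _ _ m3
    obtain ⟨-, d1, d2, d3⟩ := hz _ _ _ _ m4
    replace a2 := a2 (by omega)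
    replace a3 := a3 (by omega)
    replace b2 := b2 (by omega)
    replace b3 := b3 (by omega)
    replace c2 := c2 (by omega)
    replace c3 := c3 (by omega)
    replace d2 := d2 (by omega)
    replace d3 := d3 (by omega)
    have w23 : w (2 * c + 2) < w (2 * c + 3) := 
      hw (a := 2 * c + 2) ⟨_, m5, 3, rfl⟩ (b := 2 * c + 3) ⟨_, m5, 0, rfl⟩ (by omega)
    have f5 := hF _ m5
    have f6 := hF _ m6
    simp only [qF] at f5 f6
    simp only [a2, b3, c2, d3, if_true]
    set p2 := u (8 * c + 3) - u (8 * c + 2)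
    set p1 := u (8 * c + 4) - u (8 * c + 3)
    set p4 := u (8 * c + 6) - u (8 * c + 5)
    set p3 := u (8 * c + 7) - u (8 * c + 6)
    set Q1 := w 1 - w 0
    set Q2 := w (2 * c + 3) - w (2 * c + 2)
    have hQ2 : 0 < Q2 := sub_pos.2 w23
    have g5 : p2 * Q2 < p1 * Q1 := by simp only [p1, p2, Q1, Q2]; linarith
    have g6 : p4 * Q1 < p3 * Q2 := by simp only [p3, p4, Q1, Q2]; linarith
    have g7 : p2 * p4 < p1 * p3 := by
      have := mul_lt_mul'' g5 g6 (by positivity) (by positivity)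
      have h0 : 0 < Q1 * Q2 := by positivity
      refine lt_of_mul_lt_mul_right (a := Q1 * Q2) ?_ h0.le
      linarith
    have g8 := mul_lt_mul'' a1 c1 a2.le c2.le
    have g9 := mul_lt_mul'' b1 d1 b2.le d2.le
    linarith
  · obtain ⟨m1, m2, m3, m4, m5⟩ := hmem
    obtain ⟨w01, a1, a2, -⟩ := hz _ _ _ _ m1
    obtain ⟨-, b1, b2, -⟩ := hz _ _ _ _ m2
    obtain ⟨-, c1, -, c3⟩ := hz _ _ _ _ m3
    obtain ⟨-, d1, -, d3⟩ := hz _ _ _ _ m4
    obtain ⟨-, e1, -, -⟩ := hz _ _ _ _ m5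
    replace a2 := a2 (by omega)
    replace b2 := b2 (by omega)
    replace c3 := c3 (by omega)
    replace d3 := d3 (by omega)
    simp only [a2, b2, c3, d3, if_true]
    linarith

end Pool.Agent.MP_485bb6_lc
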