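import Mathlib

/-! Sign matrices: removing incidences, and reducing the dimension. -/

namespace Pool.Agent.MP_485bb6_lc

open Filter Topology

/-- Vectors in three-space. -/
abbrev V3 := Fin 3 → ℝ

/-- A prescribed strict sign. -/
def sgn (b : Bool) (x : ℝ) : Prop := if b = true then 0 < x else x < 0

@[simp] lemma sgn_true (x : ℝ) : sgn true x ↔ 0 < x := by simp [sgn]
@[simp] lemma sgn_false (x : ℝ) : sgn false x ↔ x < 0 := by simp [sgn]

/-- Meaning of an entry of the matrix with incidences. -/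
def entOK (e : ℕ) (x : ℝ) : Prop := if e = 0 then 0 < x else if e = 1 then x < 0 else x = 0

/-- The entry of the strict matrix. -/
def strict (e : ℕ) (s s' : Bool × Bool) : Bool :=
  if e = 0 then true else if e = 1 then false else if e = 2 then s.1 else if e = 3 then s.2
  else if e = 4 then s'.1 else s'.2

lemma sgn_pos_mul {b : Bool} {x c : ℝ} (hc : 0 < c) (h : sgn b x) : sgn b (c * x) := by
  cases b
  · simp only [sgn_false] at h ⊢; exact mul_neg_of_pos_of_neg hc h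
  · simp only [sgn_true] at h ⊢; exact mul_pos hc h

lemma sgn_comb {b : Bool} {x y s t : ℝ} (hs : 0 ≤ s) (ht : 0 ≤ t) (hst : s + t = 1)
    (hx : sgn b x) (hy : sgn b y) : sgn b (s * x + t * y) := by
  cases b
  · simp only [sgn_false] at hx hy ⊢
    rcases hs.eq_or_lt with h | h
    · have : t = 1 := by linarith
      subst h; simpa [this] using hy
    · nlinarith [mul_nonneg ht (neg_nonneg.2 hy.le), mul_pos h (neg_pos.2 hx)]
  · simp only [sgn_true] at hx hy ⊢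
    rcases hs.eq_or_lt with h | h
    · have : t = 1 := by linarith
      subst h; simpa [this] using hy
    · nlinarith [mul_nonneg ht hy.le, mul_pos h hx]

lemma ev_sgn {b : Bool} {g : ℝ → ℝ} {F : Filter ℝ} {x : ℝ} (hg : Tendsto g F (𝓝 x))
    (h : sgn b x) : ∀ᶠ t in F, sgn b (g t) := by
  cases b
  · simp only [sgn_false] at h ⊢; exact hg.eventually (gt_mem_nhds h)
  · simp only [sgn_true] at h ⊢; exact hg.eventually (lt_mem_nhds h)

lemma ev_sgn0 {b : Bool} {g : ℝ → ℝ} (hg : Continuous g) (h : sgn b (g 0)) :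
    ∀ᶠ t in 𝓝[>] 0, sgn b (g t) :=
  ev_sgn ((hg.tendsto 0).mono_left nhdsWithin_le_nhds) h

lemma conv_sgn {ι : Type} {u : ι → V3} {x w : V3} {b : Bool}
    (hx : x ∈ convexHull ℝ (Set.range u)) (h : ∀ s, sgn b (u s ⬝ᵥ w)) : sgn b (x ⬝ᵥ w) := by
  have hc : Convex ℝ {x : V3 | sgn b (x ⬝ᵥ w)} := by
    intro y hy z hz s t hs ht hst
    show sgn b ((s • y + t • z) ⬝ᵥ w)
    rw [add_dotProduct, smul_dotProduct, smul_dotProduct]
    exact sgn_comb hs ht hst hy hz
  exact convexHull_min (by rintro _ ⟨s, rfl⟩; exact h s) hc hx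

lemma exists_comb {x y : ℝ} (hx : 0 < x) (hy : y < 0) :
    ∃ s t : ℝ, 0 ≤ s ∧ 0 ≤ t ∧ s + t = 1 ∧ s * x + t * y = 0 := by
  have h : 0 < x - y := by linarith
  refine ⟨-y / (x - y), x / (x - y), div_nonneg (by linarith) h.le, div_nonneg hx.le h.le, ?_, ?_⟩
  · field_simp; ring
  · field_simp; ring

lemma zero1 {Φ : Set V3} (hΦ : Φ.Subsingleton) {x y : V3} (hx : ∀ φ ∈ Φ, 0 < x ⬝ᵥ φ)
    (hy : ∀ φ ∈ Φ, y ⬝ᵥ φ < 0) :
    ∃ s t : ℝ, 0 ≤ s ∧ 0 ≤ t ∧ s + t = 1 ∧ ∀ φ ∈ Φ, (s • x + t • y) ⬝ᵥ φ = 0 := by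
  rcases hΦ.eq_empty_or_singleton with rfl | ⟨φ, rfl⟩
  · exact ⟨1, 0, zero_le_one, le_rfl, by norm_num, by simp⟩
  · obtain ⟨s, t, hs, ht, hst, h⟩ := exists_comb (hx φ rfl) (hy φ rfl)
    refine ⟨s, t, hs, ht, hst, ?_⟩
    rintro _ rfl
    rw [add_dotProduct, smul_dotProduct, smul_dotProduct]
    exact h

lemma zero2 (u : Bool × Bool → V3) {Φ Ψ : Set V3} (hΦ : Φ.Subsingleton) (hΨ : Ψ.Subsingleton)
    (h1 : ∀ φ ∈ Φ, ∀ s, sgn s.1 (u s ⬝ᵥ φ)) (h2 : ∀ φ ∈ Ψ, ∀ s, sgn s.2 (u s ⬝ᵥ φ)) :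
    ∃ x ∈ convexHull ℝ (Set.range u), (∀ φ ∈ Φ, x ⬝ᵥ φ = 0) ∧ ∀ φ ∈ Ψ, x ⬝ᵥ φ = 0 := by
  have key : ∀ b : Bool, ∃ x ∈ convexHull ℝ (Set.range u),
      (∀ φ ∈ Φ, sgn b (x ⬝ᵥ φ)) ∧ ∀ φ ∈ Ψ, x ⬝ᵥ φ = 0 := by
    intro b
    obtain ⟨s, t, hs, ht, hst, h⟩ := zero1 hΨ (x := u (b, true)) (y := u (b, false))
      (fun φ hφ => by simpa using h2 φ hφ (b, true)) (fun φ hφ => by simpa using h2 φ hφ (b, false))
    refine ⟨_, (convex_convexHull ℝ _) (subset_convexHull ℝ _ (Set.mem_range_self (b, true)))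
      (subset_convexHull ℝ _ (Set.mem_range_self (b, false))) hs ht hst, fun φ hφ => ?_, h⟩
    rw [add_dotProduct, smul_dotProduct, smul_dotProduct]
    exact sgn_comb hs ht hst (h1 φ hφ (b, true)) (h1 φ hφ (b, false))
  obtain ⟨x, hx, hx1, hx2⟩ := key true
  obtain ⟨y, hy, hy1, hy2⟩ := key false
  obtain ⟨s, t, hs, ht, hst, h⟩ := zero1 hΦ (x := x) (y := y)
    (fun φ hφ => by simpa using hx1 φ hφ) (fun φ hφ => by simpa using hy1 φ hφ)
  refine ⟨_, (convex_convexHull ℝ _) hx hy hs ht hst, h, fun φ hφ => ?_⟩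
  rw [add_dotProduct, smul_dotProduct, smul_dotProduct, hx2 φ hφ, hy2 φ hφ]
  simp

/-- A configuration in which every incidence is one of at most two defining incidences. -/
structure Constructible {P L : Type} (SP : Set P) (SL : Set L) (ent : P → L → ℕ)
    (lp : P → ℕ) (ll : L → ℕ) (N : ℕ) : Prop where
  bp : ∀ p ∈ SP, lp p < N
  bl : ∀ l ∈ SL, ll l < N
  lev1 : ∀ p ∈ SP, ∀ l ∈ SL, ent p l = 2 ∨ ent p l = 3 → ll l < lp p
  lev2 : ∀ p ∈ SP, ∀ l ∈ SL, 4 ≤ ent p l → lp p < ll l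
  u2 : ∀ p ∈ SP, ∀ l ∈ SL, ∀ l' ∈ SL, ent p l = 2 → ent p l' = 2 → l = l'
  u3 : ∀ p ∈ SP, ∀ l ∈ SL, ∀ l' ∈ SL, ent p l = 3 → ent p l' = 3 → l = l'
  u4 : ∀ l ∈ SL, ∀ p ∈ SP, ∀ p' ∈ SP, ent p l = 4 → ent p' l = 4 → p = p'
  u5 : ∀ l ∈ SL, ∀ p ∈ SP, ∀ p' ∈ SP, 5 ≤ ent p l → 5 ≤ ent p' l → p = p'

theorem unstrict {P L : Type} {SP : Set P} {SL : Set L} {ent : P → L → ℕ} {lp : P → ℕ}
    {ll : L → ℕ} {N : ℕ} (hC : Constructible SP SL ent lp ll N)
    (u : P → Bool × Bool → V3) (v : L → Bool × Bool → V3)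
    (h : ∀ p ∈ SP, ∀ l ∈ SL, ∀ s s', sgn (strict (ent p l) s s') (u p s ⬝ᵥ v l s')) :
    ∃ (a : P → V3) (b : L → V3), ∀ p ∈ SP, ∀ l ∈ SL, entOK (ent p l) (a p ⬝ᵥ b l) := by
  classical
  have key : ∀ n : ℕ, ∃ (a : P → V3) (b : L → V3),
      (∀ p, a p ∈ convexHull ℝ (Set.range (u p))) ∧ (∀ l, b l ∈ convexHull ℝ (Set.range (v l))) ∧
      (∀ p ∈ SP, ∀ l ∈ SL, ent p l = 2 ∨ ent p l = 3 → lp p < n → a p ⬝ᵥ b l = 0) ∧
      (∀ p ∈ SP, ∀ l ∈ SL, 4 ≤ ent p l → ll l < n → a p ⬝ᵥ b l = 0) := by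
    intro n
    induction n with
    | zero =>
      exact ⟨fun p => u p default, fun l => v l default, fun p => subset_convexHull ℝ _ ⟨_, rfl⟩,
        fun l => subset_convexHull ℝ _ ⟨_, rfl⟩, by simp, by simp⟩
    | succ n ih =>
      obtain ⟨a, b, ha, hb, h1, h2⟩ := ih
      have hP : ∀ p, ∃ x ∈ convexHull ℝ (Set.range (u p)), p ∈ SP →
          ∀ l ∈ SL, ent p l = 2 ∨ ent p l = 3 → x ⬝ᵥ b l = 0 := by
        intro p
        by_cases hp : p ∈ SP
        · obtain ⟨x, hx, hx1, hx2⟩ := zero2 (u p) (Φ := b '' {l | l ∈ SL ∧ ent p l = 2})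
            (Ψ := b '' {l | l ∈ SL ∧ ent p l = 3})
            (Set.Subsingleton.image (fun l hl l' hl' => hC.u2 p hp l hl.1 l' hl'.1 hl.2 hl'.2) _)
            (Set.Subsingleton.image (fun l hl l' hl' => hC.u3 p hp l hl.1 l' hl'.1 hl.2 hl'.2) _)
            (by
              rintro _ ⟨l, hl, rfl⟩ s
              rw [dotProduct_comm]
              refine conv_sgn (hb l) fun s' => ?_
              rw [dotProduct_comm]
              simpa [strict, hl.2] using h p hp l hl.1 s s')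
            (by
              rintro _ ⟨l, hl, rfl⟩ s
              rw [dotProduct_comm]
              refine conv_sgn (hb l) fun s' => ?_
              rw [dotProduct_comm]
              simpa [strict, hl.2] using h p hp l hl.1 s s')
          refine ⟨x, hx, fun _ l hl he => ?_⟩
          rcases he with he | he
          · exact hx1 _ ⟨l, ⟨hl, he⟩, rfl⟩
          · exact hx2 _ ⟨l, ⟨hl, he⟩, rfl⟩
        · exact ⟨a p, ha p, fun h => absurd h hp⟩
      have hL : ∀ l, ∃ x ∈ convexHull ℝ (Set.range (v l)), l ∈ SL →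
          ∀ p ∈ SP, 4 ≤ ent p l → a p ⬝ᵥ x = 0 := by
        intro l
        by_cases hl : l ∈ SL
        · obtain ⟨x, hx, hx1, hx2⟩ := zero2 (v l) (Φ := a '' {p | p ∈ SP ∧ ent p l = 4})
            (Ψ := a '' {p | p ∈ SP ∧ 5 ≤ ent p l})
            (Set.Subsingleton.image (fun p hp p' hp' => hC.u4 l hl p hp.1 p' hp'.1 hp.2 hp'.2) _)
            (Set.Subsingleton.image (fun p hp p' hp' => hC.u5 l hl p hp.1 p' hp'.1 hp.2 hp'.2) _)
            (by
              rintro _ ⟨p, hp, rfl⟩ s'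
              rw [dotProduct_comm]
              refine conv_sgn (ha p) fun s => ?_
              simpa [strict, hp.2] using h p hp.1 l hl s s')
            (by
              rintro _ ⟨p, hp, rfl⟩ s'
              rw [dotProduct_comm]
              refine conv_sgn (ha p) fun s => ?_
              have h5 := hp.2
              have e : strict (ent p l) s s' = s'.2 := by
                unfold strict
                split_ifs <;> first | rfl | omega
              simpa [e] using h p hp.1 l hl s s')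
          refine ⟨x, hx, fun _ p hp he => ?_⟩
          rw [dotProduct_comm]
          rcases he.eq_or_lt with he | he
          · exact hx1 _ ⟨p, ⟨hp, he.symm⟩, rfl⟩
          · exact hx2 _ ⟨p, ⟨hp, he⟩, rfl⟩
        · exact ⟨b l, hb l, fun h => absurd h hl⟩
      choose a' ha' ha'' using hP
      choose b' hb' hb'' using hL
      refine ⟨fun p => if lp p = n then a' p else a p, fun l => if ll l = n then b' l else b l,
        fun p => ?_, fun l => ?_, fun p hp l hl he hn => ?_, fun p hp l hl he hn => ?_⟩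
      · beta_reduce; split_ifs <;> [exact ha' p; exact ha p]
      · beta_reduce; split_ifs <;> [exact hb' l; exact hb l]
      · have h3 := hC.lev1 p hp l hl he
        have h4 : ll l ≠ n := by omega
        simp only [h4, if_false]
        split_ifs with h5
        · exact ha'' p hp l hl he
        · exact h1 p hp l hl he (by omega)
      · have h3 := hC.lev2 p hp l hl he
        have h4 : lp p ≠ n := by omega
        simp only [h4, if_false]
        split_ifs with h5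
        · exact hb'' l hl p hp he
        · exact h2 p hp l hl he (by omega)
  obtain ⟨a, b, ha, hb, h1, h2⟩ := key N
  refine ⟨a, b, fun p hp l hl => ?_⟩
  have key2 : ∀ β : Bool, (∀ s s', strict (ent p l) s s' = β) → sgn β (a p ⬝ᵥ b l) := by
    intro β hβ
    refine conv_sgn (ha p) fun s => ?_
    rw [dotProduct_comm]
    refine conv_sgn (hb l) fun s' => ?_
    rw [dotProduct_comm, ← hβ s s']
    exact h p hp l hl s s'
  unfold entOK
  split_ifs with h3 h4
  · simpa using key2 true (by simp [strict, h3])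
  · simpa using key2 false (by simp [strict, h4])
  · by_cases h5 : 4 ≤ ent p l
    · exact h2 p hp l hl h5 (hC.bl l hl)
    · exact h1 p hp l hl (by omega) (hC.bp p hp)

theorem tostrict {P L : Type} {SP : Set P} {SL : Set L} {ent : P → L → ℕ} {lp : P → ℕ}
    {ll : L → ℕ} {N : ℕ} (hC : Constructible SP SL ent lp ll N) (hP : SP.Finite) (hL : SL.Finite)
    (a : P → V3) (b : L → V3) (h : ∀ p ∈ SP, ∀ l ∈ SL, entOK (ent p l) (a p ⬝ᵥ b l))
    (dp : P → Bool × Bool → V3) (dl : L → Bool × Bool → V3)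
    (hd2 : ∀ p ∈ SP, ∀ l ∈ SL, ∀ s, ent p l = 2 → sgn s.1 (dp p s ⬝ᵥ b l))
    (hd3 : ∀ p ∈ SP, ∀ l ∈ SL, ∀ s, ent p l = 3 → sgn s.2 (dp p s ⬝ᵥ b l))
    (hd4 : ∀ p ∈ SP, ∀ l ∈ SL, ∀ s, ent p l = 4 → sgn s.1 (a p ⬝ᵥ dl l s))
    (hd5 : ∀ p ∈ SP, ∀ l ∈ SL, ∀ s, 5 ≤ ent p l → sgn s.2 (a p ⬝ᵥ dl l s))
    (e f : V3) (hf : ∀ p ∈ SP, 0 < a p ⬝ᵥ f) (he : ∀ l ∈ SL, 0 < e ⬝ᵥ b l) :
    ∃ (u : P → Bool × Bool → V3) (v : L → Bool × Bool → V3),
      (∀ p ∈ SP, ∀ l ∈ SL, ∀ s s', sgn (strict (ent p l) s s') (u p s ⬝ᵥ v l s')) ∧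
      (∀ p ∈ SP, ∀ s, 0 < u p s ⬝ᵥ f) ∧ ∀ l ∈ SL, ∀ s, 0 < e ⬝ᵥ v l s := by
  let u : ℝ → P → Bool × Bool → V3 := fun t p s => a p + t ^ (N - lp p) • dp p s
  let v : ℝ → L → Bool × Bool → V3 := fun t l s => b l + t ^ (N - ll l) • dl l s
  have hexp : ∀ t p l s s', u t p s ⬝ᵥ v t l s' = a p ⬝ᵥ b l + t ^ (N - lp p) * (dp p s ⬝ᵥ b l)
      + t ^ (N - ll l) * (a p ⬝ᵥ dl l s') + t ^ (N - lp p) * t ^ (N - ll l) * (dp p s ⬝ᵥ dl l s') := by
    intro t p l s s'
    simp only [u, v, add_dotProduct, dotProduct_add, smul_dotProduct, dotProduct_smul, smul_eq_mul]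
    ring
  have E1 : ∀ᶠ t in 𝓝[>] (0 : ℝ), ∀ p ∈ SP, ∀ l ∈ SL, ∀ s s',
      sgn (strict (ent p l) s s') (u t p s ⬝ᵥ v t l s') := by
    refine (eventually_all_finite hP).2 fun p hp => (eventually_all_finite hL).2 fun l hl => ?_
    refine eventually_all.2 fun s => eventually_all.2 fun s' => ?_
    have h1 := h p hp l hl
    have hα : N - lp p ≠ 0 := by have := hC.bp p hp; omega
    have hβ : N - ll l ≠ 0 := by have := hC.bl l hl; omega
    simp only [hexp]
    by_cases h01 : ent p l = 0 ∨ ent p l = 1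
    · refine ev_sgn0 (by fun_prop) ?_
      simp only [zero_pow hα, zero_pow hβ, zero_mul, add_zero]
      rcases h01 with h0 | h0 <;> simpa [strict, entOK, h0] using h1
    · have h0 : a p ⬝ᵥ b l = 0 := by
        unfold entOK at h1
        rwa [if_neg (by omega), if_neg (by omega)] at h1
      by_cases h23 : ent p l = 2 ∨ ent p l = 3
      · have h2 := hC.lev1 p hp l hl h23
        have h3 := hC.bp p hp
        obtain ⟨k, hk⟩ : ∃ k, N - ll l = (N - lp p) + (k + 1) := ⟨lp p - ll l - 1, by omega⟩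
        have h4 : sgn (strict (ent p l) s s') (dp p s ⬝ᵥ b l) := by
          rcases h23 with h5 | h5
          · simpa [strict, h5] using hd2 p hp l hl s h5
          · simpa [strict, h5] using hd3 p hp l hl s h5
        have h5 := ev_sgn0 (b := strict (ent p l) s s') (g := fun t : ℝ => dp p s ⬝ᵥ b l
          + t ^ (k + 1) * (a p ⬝ᵥ dl l s') + t ^ (N - ll l) * (dp p s ⬝ᵥ dl l s')) (by fun_prop)
          (by simpa [zero_pow hβ] using h4)
        filter_upwards [h5, self_mem_nhdsWithin] with t ht ht0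
        have h6 := sgn_pos_mul (pow_pos (show 0 < t from ht0) (N - lp p)) ht
        convert h6 using 1
        rw [h0]
        nth_rewrite 1 [hk]
        ring
      · have h2 := hC.lev2 p hp l hl (by omega)
        have h3 := hC.bl l hl
        obtain ⟨k, hk⟩ : ∃ k, N - lp p = (N - ll l) + (k + 1) := ⟨ll l - lp p - 1, by omega⟩
        have h4 : sgn (strict (ent p l) s s') (a p ⬝ᵥ dl l s') := by
          by_cases h5 : ent p l = 4
          · simpa [strict, h5] using hd4 p hp l hl s' h5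
          · have e : strict (ent p l) s s' = s'.2 := by
              unfold strict
              split_ifs <;> first | rfl | omega
            rw [e]
            exact hd5 p hp l hl s' (by omega)
        have h5 := ev_sgn0 (b := strict (ent p l) s s') (g := fun t : ℝ => a p ⬝ᵥ dl l s'
          + t ^ (k + 1) * (dp p s ⬝ᵥ b l) + t ^ (N - lp p) * (dp p s ⬝ᵥ dl l s')) (by fun_prop)
          (by simpa [zero_pow hα] using h4)
        filter_upwards [h5, self_mem_nhdsWithin] with t ht ht0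
        have h6 := sgn_pos_mul (pow_pos (show 0 < t from ht0) (N - ll l)) ht
        convert h6 using 1
        rw [h0]
        nth_rewrite 1 [hk]
        ring
  have E2 : ∀ᶠ t in 𝓝[>] (0 : ℝ), ∀ p ∈ SP, ∀ s, 0 < u t p s ⬝ᵥ f := by
    refine (eventually_all_finite hP).2 fun p hp => eventually_all.2 fun s => ?_
    have hα : N - lp p ≠ 0 := by have := hC.bp p hp; omega
    have := ev_sgn0 (b := true) (g := fun t : ℝ => a p ⬝ᵥ f + t ^ (N - lp p) * (dp p s ⬝ᵥ f))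
      (by fun_prop) (by simpa [zero_pow hα] using hf p hp)
    simpa [u] using this
  have E3 : ∀ᶠ t in 𝓝[>] (0 : ℝ), ∀ l ∈ SL, ∀ s, 0 < e ⬝ᵥ v t l s := by
    refine (eventually_all_finite hL).2 fun l hl => eventually_all.2 fun s => ?_
    have hα : N - ll l ≠ 0 := by have := hC.bl l hl; omega
    have := ev_sgn0 (b := true) (g := fun t : ℝ => e ⬝ᵥ b l + t ^ (N - ll l) * (e ⬝ᵥ dl l s))
      (by fun_prop) (by simpa [zero_pow hα] using he l hl)
    simpa [v] using this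
  obtain ⟨t, h1, h2, h3⟩ := (E1.and (E2.and E3)).exists
  exact ⟨u t, v t, h1, h2, h3⟩

lemma affine_form {e f x y : V3} (hef : e ⬝ᵥ f = 0) (he : e ≠ 0) (hf : f ≠ 0) :
    x ⬝ᵥ y = (x ⬝ᵥ f) * (f ⬝ᵥ y) / (f ⬝ᵥ f) + (x ⬝ᵥ e) * (e ⬝ᵥ y) / (e ⬝ᵥ e)
      + (x ⬝ᵥ crossProduct e f) * (crossProduct e f ⬝ᵥ y) / ((e ⬝ᵥ e) * (f ⬝ᵥ f)) := by
  have h1 : e ⬝ᵥ e ≠ 0 := fun h => he (dotProduct_self_eq_zero.1 h)
  have h2 : f ⬝ᵥ f ≠ 0 := fun h => hf (dotProduct_self_eq_zero.1 h)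
  field_simp
  simp only [crossProduct, LinearMap.mk₂_apply, Matrix.vec3_dotProduct, Matrix.cons_val_zero,
    Matrix.cons_val_one, Matrix.cons_val, dotProduct, Fin.sum_univ_three] at hef ⊢
  linear_combination ((x 0 * y 0 + x 1 * y 1 + x 2 * y 2) * (e 0 * f 0 + e 1 * f 1 + e 2 * f 2)
    - (x 0 * e 0 + x 1 * e 1 + x 2 * e 2) * (f 0 * y 0 + f 1 * y 1 + f 2 * y 2)
    - (x 0 * f 0 + x 1 * f 1 + x 2 * f 2) * (e 0 * y 0 + e 1 * y 1 + e 2 * y 2)) * hef

theorem to_affine {P L : Type} {SP : Set P} {SL : Set L} {M : P → L → Bool}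
    (u : P → V3) (v : L → V3) (h : ∀ p ∈ SP, ∀ l ∈ SL, sgn (M p l) (u p ⬝ᵥ v l))
    {e f : V3} (hef : e ⬝ᵥ f = 0) (hf : ∀ p ∈ SP, 0 < u p ⬝ᵥ f) (he : ∀ l ∈ SL, 0 < e ⬝ᵥ v l) :
    ∃ (y1 y2 : P → ℝ) (α ν : L → ℝ), ∀ p ∈ SP, ∀ l ∈ SL, sgn (M p l) (α l + y1 p + ν l * y2 p) := by
  refine ⟨fun p => (u p ⬝ᵥ e) / (u p ⬝ᵥ f) / (e ⬝ᵥ e),
    fun p => (u p ⬝ᵥ crossProduct e f) / (u p ⬝ᵥ f) / ((e ⬝ᵥ e) * (f ⬝ᵥ f)),
    fun l => (f ⬝ᵥ v l) / (e ⬝ᵥ v l) / (f ⬝ᵥ f),
    fun l => (crossProduct e f ⬝ᵥ v l) / (e ⬝ᵥ v l), fun p hp l hl => ?_⟩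
  have h1 := hf p hp
  have h2 := he l hl
  have he0 : e ≠ 0 := by rintro rfl; simp at h2
  have hf0 : f ≠ 0 := by rintro rfl; simp at h1
  have h3 := sgn_pos_mul (c := 1 / ((u p ⬝ᵥ f) * (e ⬝ᵥ v l))) (by positivity) (h p hp l hl)
  convert h3 using 1
  rw [affine_form (x := u p) (y := v l) hef he0 hf0]
  have h4 : e ⬝ᵥ e ≠ 0 := fun h => he0 (dotProduct_self_eq_zero.1 h)
  have h5 : f ⬝ᵥ f ≠ 0 := fun h => hf0 (dotProduct_self_eq_zero.1 h)
  field_simp

theorem dim_reduce {P L : Type} {SP : Set P} {SL : Set L} (M : P → L → Bool) (hne : SP.Nonempty)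
    (k : ℕ) : ∀ (V : Type) [AddCommGroup V] [Module ℝ V] [FiniteDimensional ℝ V],
      Module.finrank ℝ V = 3 + k → ∀ (c : P → List Bool → V) (φ : L → Module.Dual ℝ V)
      (n : ℕ → Module.Dual ℝ V),
      (∀ p ∈ SP, ∀ τ : List Bool, τ.length = k → (∀ l ∈ SL, sgn (M p l) (φ l (c p τ))) ∧
        ∀ i < k, sgn (τ.getD i false) (n i (c p τ))) →
      ∃ (u : P → V3) (v : L → V3), ∀ p ∈ SP, ∀ l ∈ SL, sgn (M p l) (u p ⬝ᵥ v l) := by
  induction k with
  | zero =>
    intro V _ _ _ hV c φ n h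
    let B := Module.finBasisOfFinrankEq ℝ V hV
    refine ⟨fun p i => B.repr (c p []) i, fun l i => φ l (B i), fun p hp l hl => ?_⟩
    have h1 := (h p hp [] rfl).1 l hl
    convert h1 using 1
    conv_rhs => rw [← B.sum_repr (c p []), map_sum]
    simp only [dotProduct, map_smul, smul_eq_mul]
  | succ k ih =>
    intro V _ _ _ hV c φ n h
    have hn : n 0 ≠ 0 := by
      obtain ⟨p, hp⟩ := hne
      have := (h p hp (List.replicate (k + 1) true) (by simp)).2 0 (by omega)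
      intro h0
      simp [h0, List.replicate_succ] at this
    have hk : Module.finrank ℝ (LinearMap.ker (n 0)) = 3 + k := by
      have := Module.Dual.finrank_ker_add_one_of_ne_zero hn
      omega
    have hc : ∀ (p : P) (τ : List Bool), ∃ x : LinearMap.ker (n 0), p ∈ SP → τ.length = k →
        (∀ l ∈ SL, sgn (M p l) (φ l x)) ∧ ∀ i < k, sgn (τ.getD i false) (n (i + 1) x) := by
      intro p τ
      by_cases hp : p ∈ SP ∧ τ.length = k
      · obtain ⟨h1, h2⟩ := h p hp.1 (true :: τ) (by simp [hp.2])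
        obtain ⟨h3, h4⟩ := h p hp.1 (false :: τ) (by simp [hp.2])
        obtain ⟨s, t, hs, ht, hst, h5⟩ := exists_comb (x := n 0 (c p (true :: τ)))
          (y := n 0 (c p (false :: τ))) (by simpa using h2 0 (by omega))
          (by simpa using h4 0 (by omega))
        refine ⟨⟨s • c p (true :: τ) + t • c p (false :: τ), by simpa using h5⟩, fun _ _ =>
          ⟨fun l hl => ?_, fun i hi => ?_⟩⟩
        · simp only [map_add, map_smul, smul_eq_mul]
          exact sgn_comb hs ht hst (h1 l hl) (h3 l hl)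
        · simp only [map_add, map_smul, smul_eq_mul]
          exact sgn_comb hs ht hst (by simpa using h2 (i + 1) (by omega))
            (by simpa using h4 (i + 1) (by omega))
      · exact ⟨0, fun h1 h2 => absurd ⟨h1, h2⟩ hp⟩
    choose c' hc' using hc
    exact ih (LinearMap.ker (n 0)) hk c' (fun l => (φ l).domRestrict _)
      (fun i => (n (i + 1)).domRestrict _) fun p hp τ hτ => hc' p τ hp hτ

end Pool.Agent.MP_485bb6_lc
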