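import Mathlib
import Pool.Agent.MP_485bb6_lc.Quad
import Pool.Agent.MP_485bb6_lc.Sign

/-! The point-line configuration attached to a system of quadrilateral tests. -/

namespace Pool.Agent.MP_485bb6_lc

open Filter Topology

/-- Codes of points and lines: (tag, index, position, quadrilateral). -/
abbrev Code := ℕ × ℕ × ℕ × Quad

/-- The dummy quadrilateral. -/
def dq : Quad := ((0, 0, 0, 0), (0, 0, 0, 0))

/-- Comparison entry. -/
def cmpE (x y z : ℕ) : ℕ := if x = y then z else if y < x then 0 else 1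

/-- Sign entry of a product of two differences. -/
def prodE (a b c d : ℕ) : ℕ := if (b < a ∧ d < c) ∨ (a < b ∧ c < d) then 0 else 1

/-- Entries inside one quadrilateral. -/
def tabE (q : Quad) (k j : ℕ) : ℕ :=
  if k = j then 4 else if k = j + 1 then 3 else if k + 3 = j then 1
  else if k % 4 = (j + 2) % 4 then
    prodE (sel q.1 (j + 1)) (sel q.1 j) (sel q.2 (j + 2)) (sel q.2 (j + 1))
  else prodE (sel q.1 (j + 3)) (sel q.1 j) (sel q.2 (j + 3)) (sel q.2 j)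

/-- The matrix with incidences. -/
def ent (p l : Code) : ℕ :=
  if p.1 = 0 then (if l.1 = 0 then 2 else if l.1 = 1 then 4 else 1)
  else if p.1 = 1 then
    (if l.1 = 0 then 2 else if l.1 = 1 then 0 else cmpE p.2.1 (sel l.2.2.2.1 l.2.2.1) 5)
  else if l.1 = 0 then 0 else if l.1 = 1 then cmpE (sel p.2.2.2.2 p.2.2.1) l.2.1 2
  else if p.2.1 = l.2.1 then tabE p.2.2.2 p.2.2.1 l.2.2.1 else cmpE p.2.1 l.2.1 0

/-- The list of points. -/
def ptList (L : List Quad) : List Code :=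
  (0, 0, 0, dq) :: (List.range L.length).flatMap fun c => (List.range 4).flatMap fun k =>
    [(1, sel (L.getD c dq).1 k, 0, dq), (2, c, k, L.getD c dq)]

/-- The list of lines. -/
def lnList (L : List Quad) : List Code :=
  (0, 0, 0, dq) :: (List.range L.length).flatMap fun c => (List.range 4).flatMap fun k =>
    [(1, sel (L.getD c dq).2 k, 0, dq), (2, c, k, L.getD c dq)]

lemma mem_ptList {L : List Quad} {p : Code} : p ∈ ptList L ↔ p = (0, 0, 0, dq) ∨
    ∃ c < L.length, ∃ k < 4, p = (1, sel (L.getD c dq).1 k, 0, dq) ∨ p = (2, c, k, L.getD c dq) := by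
  simp only [ptList, List.mem_cons, List.mem_flatMap, List.mem_range, List.not_mem_nil, or_false]

lemma mem_lnList {L : List Quad} {p : Code} : p ∈ lnList L ↔ p = (0, 0, 0, dq) ∨
    ∃ c < L.length, ∃ k < 4, p = (1, sel (L.getD c dq).2 k, 0, dq) ∨ p = (2, c, k, L.getD c dq) := by
  simp only [lnList, List.mem_cons, List.mem_flatMap, List.mem_range, List.not_mem_nil, or_false]

/-- Level of a point. -/
def lvP (p : Code) : ℕ := if p.1 ≤ 1 then 1 else 3 + 2 * p.2.2.1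

/-- Level of a line. -/
def lvL (l : Code) : ℕ := if l.1 = 0 then 0 else if l.1 = 1 then 2 else 4 + 2 * l.2.2.1

lemma prodE_le (a b c d : ℕ) : prodE a b c d ≤ 1 := by unfold prodE; split_ifs <;> omega

lemma tabE_cases (q : Quad) (k j : ℕ) :
    (tabE q k j = 4 ∧ k = j) ∨ (tabE q k j = 3 ∧ k = j + 1) ∨ tabE q k j ≤ 1 := by
  unfold tabE
  split_ifs with h1 h2 h3 h4
  · exact Or.inl ⟨rfl, h1⟩
  · exact Or.inr (Or.inl ⟨rfl, h2⟩)
  · exact Or.inr (Or.inr le_rfl)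
  · exact Or.inr (Or.inr (prodE_le _ _ _ _))
  · exact Or.inr (Or.inr (prodE_le _ _ _ _))

lemma cmpE_cases (x y z : ℕ) : (cmpE x y z = z ∧ x = y) ∨ cmpE x y z ≤ 1 := by
  unfold cmpE
  split_ifs with h1 h2
  · exact Or.inl ⟨rfl, h1⟩
  · omega
  · omega

lemma ent_cases {L : List Quad} {p l : Code} (hp : p ∈ ptList L) (hl : l ∈ lnList L) :
    ent p l ≤ 1 ∨
    (ent p l = 2 ∧ lvL l < lvP p ∧
      l = if p.1 ≤ 1 then (0, 0, 0, dq) else (1, sel p.2.2.2.2 p.2.2.1, 0, dq)) ∨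
    (ent p l = 3 ∧ lvL l < lvP p ∧ p.1 = 2 ∧ l = (2, p.2.1, p.2.2.1 - 1, p.2.2.2)) ∨
    (ent p l = 4 ∧ lvP p < lvL l ∧ l.1 ≠ 0 ∧ p = if l.1 = 1 then (0, 0, 0, dq) else l) ∨
    (ent p l = 5 ∧ lvP p < lvL l ∧ l.1 = 2 ∧ p = (1, sel l.2.2.2.1 l.2.2.1, 0, dq)) := by
  rcases mem_ptList.1 hp with rfl | ⟨c, -, k, -, rfl | rfl⟩ <;>
    rcases mem_lnList.1 hl with rfl | ⟨c', -, j, -, rfl | rfl⟩
  · simp [ent, lvL, lvP]
  · simp [ent, lvL, lvP]
  · simp [ent]
  · simp [ent, lvL, lvP]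
  · simp [ent]
  · rcases cmpE_cases (sel (L.getD c dq).1 k) (sel (L.getD c' dq).1 j) 5 with ⟨h1, h2⟩ | h
    · right; right; right; right
      refine ⟨by simpa [ent] using h1, by simp [lvL, lvP]; omega, rfl, by rw [h2]⟩
    · left; simpa [ent] using h
  · simp [ent]
  · rcases cmpE_cases (sel (L.getD c dq).2 k) (sel (L.getD c' dq).2 j) 2 with ⟨h1, h2⟩ | h
    · right; left
      refine ⟨by simpa [ent] using h1, by simp [lvL, lvP]; omega, by rw [← h2]; simp⟩
    · left; simpa [ent] using h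
  · by_cases hc : c = c'
    · subst hc
      rcases tabE_cases (L.getD c dq) k j with ⟨h1, h2⟩ | ⟨h1, h2⟩ | h
      · right; right; right; left
        refine ⟨by simpa [ent] using h1, by simp [lvL, lvP]; omega, by simp, by simp [h2]⟩
      · right; right; left
        refine ⟨by simpa [ent] using h1, by simp [lvL, lvP]; omega, rfl, by simp [h2]⟩
      · left; simpa [ent] using h
    · left
      rcases cmpE_cases c c' 0 with ⟨h1, h2⟩ | h
      · exact absurd h2 hc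
      · simpa [ent, hc] using h

theorem constructible (L : List Quad) :
    Constructible {p | p ∈ ptList L} {l | l ∈ lnList L} ent lvP lvL 11 where
  bp p hp := by
    rcases mem_ptList.1 hp with rfl | ⟨c, -, k, hk, rfl | rfl⟩ <;> simp [lvP]
    omega
  bl l hl := by
    rcases mem_lnList.1 hl with rfl | ⟨c, -, k, hk, rfl | rfl⟩ <;> simp [lvL]
    omega
  lev1 p hp l hl h := by rcases ent_cases hp hl with h | h | h | h | h <;> omega
  lev2 p hp l hl h := by rcases ent_cases hp hl with h | h | h | h | h <;> omega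
  u2 p hp l hl l' hl' h h' := by
    rcases ent_cases hp hl with h1 | h1 | h1 | h1 | h1 <;> try omega
    rcases ent_cases hp hl' with h2 | h2 | h2 | h2 | h2 <;> try omega
    exact h1.2.2.trans h2.2.2.symm
  u3 p hp l hl l' hl' h h' := by
    rcases ent_cases hp hl with h1 | h1 | h1 | h1 | h1 <;> try omega
    rcases ent_cases hp hl' with h2 | h2 | h2 | h2 | h2 <;> try omega
    exact h1.2.2.2.trans h2.2.2.2.symm
  u4 l hl p hp p' hp' h h' := by
    rcases ent_cases hp hl with h1 | h1 | h1 | h1 | h1 <;> try omega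
    rcases ent_cases hp' hl with h2 | h2 | h2 | h2 | h2 <;> try omega
    exact h1.2.2.2.trans h2.2.2.2.symm
  u5 l hl p hp p' hp' h h' := by
    rcases ent_cases hp hl with h1 | h1 | h1 | h1 | h1 <;> try omega
    rcases ent_cases hp' hl with h2 | h2 | h2 | h2 | h2 <;> try omega
    exact h1.2.2.2.trans h2.2.2.2.symm

lemma sel_mod (t : N4) (j : ℕ) : sel t (j % 4) = sel t j := by simp [sel]

lemma expand3 {X Y Z i j k : V3} (h1 : i ⬝ᵥ X ≠ 0) (h2 : i ⬝ᵥ Y = 0) (h3 : i ⬝ᵥ Z = 0)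
    (h4 : j ⬝ᵥ Y ≠ 0) (h5 : j ⬝ᵥ Z = 0) (h6 : k ⬝ᵥ Z ≠ 0) (φ : V3) :
    ∃ l : ℝ × ℝ × ℝ, ∀ x : V3, x ⬝ᵥ φ = l.1 * (x ⬝ᵥ X) + l.2.1 * (x ⬝ᵥ Y) + l.2.2 * (x ⬝ᵥ Z) := by
  have hli : LinearIndependent ℝ ![X, Y, Z] := by
    rw [Fintype.linearIndependent_iff]
    intro g hg
    simp only [Fin.sum_univ_three, Matrix.cons_val_zero, Matrix.cons_val_one, Matrix.cons_val] at hg
    have e : ∀ x : V3, g 0 * (x ⬝ᵥ X) + g 1 * (x ⬝ᵥ Y) + g 2 * (x ⬝ᵥ Z) = 0 := by
      intro x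
      have := congrArg (fun v => x ⬝ᵥ v) hg
      simpa [dotProduct_add, dotProduct_smul] using this
    have e0 : g 0 = 0 := by simpa [h1, h2, h3] using e i
    have e1 : g 1 = 0 := by simpa [e0, h4, h5] using e j
    have e2 : g 2 = 0 := by simpa [e0, e1, h6] using e k
    intro t
    fin_cases t
    · exact e0
    · exact e1
    · exact e2
  have hsp := hli.span_eq_top_of_card_eq_finrank (by simp)
  have hφ : φ ∈ Submodule.span ℝ (Set.range ![X, Y, Z]) := by rw [hsp]; trivial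
  obtain ⟨g, hg⟩ := (Submodule.mem_span_range_iff_exists_fun ℝ).1 hφ
  refine ⟨(g 0, g 1, g 2), fun x => ?_⟩
  rw [← hg]
  simp [Fin.sum_univ_three, dotProduct_add, dotProduct_smul]

theorem qsato_of_config {L : List Quad} (a b : Code → V3)
    (h : ∀ p ∈ ptList L, ∀ l ∈ lnList L, entOK (ent p l) (a p ⬝ᵥ b l)) : QSatO L := by
  rcases L.eq_nil_or_concat with rfl | ⟨L', q', hL⟩
  · exact ⟨fun _ => 0, fun _ => 0, by simp [StrictMonoOn], by simp [StrictMonoOn], by simp⟩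
  have h0 : 0 < L.length := by simp [hL]
  clear hL
  have mI0 : ((0, 0, 0, dq) : Code) ∈ ptList L := mem_ptList.2 (Or.inl rfl)
  have mL0 : ((0, 0, 0, dq) : Code) ∈ lnList L := mem_lnList.2 (Or.inl rfl)
  have mI : ∀ c < L.length, ∀ k < 4, ((1, sel (L.getD c dq).1 k, 0, dq) : Code) ∈ ptList L :=
    fun c hc k hk => mem_ptList.2 (Or.inr ⟨c, hc, k, hk, Or.inl rfl⟩)
  have mP : ∀ c < L.length, ∀ k < 4, ((2, c, k, L.getD c dq) : Code) ∈ ptList L :=
    fun c hc k hk => mem_ptList.2 (Or.inr ⟨c, hc, k, hk, Or.inr rfl⟩)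
  have mH : ∀ c < L.length, ∀ k < 4, ((1, sel (L.getD c dq).2 k, 0, dq) : Code) ∈ lnList L :=
    fun c hc k hk => mem_lnList.2 (Or.inr ⟨c, hc, k, hk, Or.inl rfl⟩)
  have mL : ∀ c < L.length, ∀ k < 4, ((2, c, k, L.getD c dq) : Code) ∈ lnList L :=
    fun c hc k hk => mem_lnList.2 (Or.inr ⟨c, hc, k, hk, Or.inr rfl⟩)
  set X := b (2, 0, 0, L.getD 0 dq) with hX
  set Y := b (1, sel (L.getD 0 dq).2 0, 0, dq) with hY
  set Z := b (0, 0, 0, dq) with hZ
  set i := a (0, 0, 0, dq) with hi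
  have iL : ∀ c < L.length, ∀ k < 4, i ⬝ᵥ b (2, c, k, L.getD c dq) < 0 := fun c hc k hk => by
    simpa [ent, entOK] using h _ mI0 _ (mL c hc k hk)
  have iH : ∀ c < L.length, ∀ k < 4, i ⬝ᵥ b (1, sel (L.getD c dq).2 k, 0, dq) = 0 :=
    fun c hc k hk => by simpa [ent, entOK] using h _ mI0 _ (mH c hc k hk)
  have iZ : i ⬝ᵥ Z = 0 := by simpa [ent, entOK] using h _ mI0 _ mL0
  have jH : ∀ c < L.length, ∀ k < 4, ∀ c' < L.length, ∀ k' < 4,
      0 < a (1, sel (L.getD c dq).1 k, 0, dq) ⬝ᵥ b (1, sel (L.getD c' dq).2 k', 0, dq) :=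
    fun c hc k hk c' hc' k' hk' => by simpa [ent, entOK] using h _ (mI c hc k hk) _ (mH c' hc' k' hk')
  have jZ : ∀ c < L.length, ∀ k < 4, a (1, sel (L.getD c dq).1 k, 0, dq) ⬝ᵥ Z = 0 :=
    fun c hc k hk => by simpa [ent, entOK] using h _ (mI c hc k hk) _ mL0
  have pZ : ∀ c < L.length, ∀ k < 4, 0 < a (2, c, k, L.getD c dq) ⬝ᵥ Z :=
    fun c hc k hk => by simpa [ent, entOK] using h _ (mP c hc k hk) _ mL0
  have iX := iL 0 h0 0 (by norm_num)
  have iY := iH 0 h0 0 (by norm_num)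
  rw [← hX] at iX
  rw [← hY] at iY
  choose lam hlam using expand3 (X := X) (Y := Y) (Z := Z) iX.ne iY iZ
    (jH 0 h0 0 (by norm_num) 0 h0 0 (by norm_num)).ne' (jZ 0 h0 0 (by norm_num))
    (pZ 0 h0 0 (by norm_num)).ne'
  let u : ℕ → ℝ := fun s => (a (1, s, 0, dq) ⬝ᵥ X) / (a (1, s, 0, dq) ⬝ᵥ Y)
  let w : ℕ → ℝ := fun s => -(lam (b (1, s, 0, dq))).2.2 / (lam (b (1, s, 0, dq))).2.1
  have HH : ∀ c < L.length, ∀ k < 4, ∃ μ > 0, ∀ x : V3, x ⬝ᵥ b (1, sel (L.getD c dq).2 k, 0, dq)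
      = μ * (x ⬝ᵥ Y - w (sel (L.getD c dq).2 k) * (x ⬝ᵥ Z)) := by
    intro c hc k hk
    have e := hlam (b (1, sel (L.getD c dq).2 k, 0, dq))
    have e1 := e i
    rw [iH c hc k hk, iY, iZ] at e1
    have e2 : (lam (b (1, sel (L.getD c dq).2 k, 0, dq))).1 = 0 := by
      simpa [iX.ne] using e1
    have e3 := e (a (1, sel (L.getD 0 dq).1 0, 0, dq))
    rw [e2, jZ 0 h0 0 (by norm_num)] at e3
    have e4 := jH 0 h0 0 (by norm_num) c hc k hk
    have e5 := jH 0 h0 0 (by norm_num) 0 h0 0 (by norm_num)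
    rw [← hY] at e5
    have e6 : 0 < (lam (b (1, sel (L.getD c dq).2 k, 0, dq))).2.1 := by
      rw [e3] at e4
      simp only [zero_mul, mul_zero, zero_add, add_zero] at e4
      exact (mul_pos_iff_of_pos_right e5).1 e4
    refine ⟨_, e6, fun x => ?_⟩
    rw [e x, e2]
    simp only [w]
    field_simp
    ring
  have HL : ∀ c < L.length, ∀ k < 4, ∃ μ > 0, ∃ γ : ℝ, ∀ x : V3, x ⬝ᵥ b (2, c, k, L.getD c dq)
      = μ * (x ⬝ᵥ X - u (sel (L.getD c dq).1 k) * (x ⬝ᵥ Y) - γ * (x ⬝ᵥ Z)) := by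
    intro c hc k hk
    have e := hlam (b (2, c, k, L.getD c dq))
    have e1 := e i
    have e2 := iL c hc k hk
    rw [e1, iY, iZ] at e2
    simp only [mul_zero, add_zero] at e2
    have e3 : 0 < (lam (b (2, c, k, L.getD c dq))).1 := by
      by_contra hcon
      push Not at hcon
      nlinarith
    have e4 : a (1, sel (L.getD c dq).1 k, 0, dq) ⬝ᵥ b (2, c, k, L.getD c dq) = 0 := by
      simpa [ent, entOK, cmpE] using h _ (mI c hc k hk) _ (mL c hc k hk)
    rw [e, jZ c hc k hk] at e4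
    have e5 := jH c hc k hk 0 h0 0 (by norm_num)
    rw [← hY] at e5
    refine ⟨_, e3, -(lam (b (2, c, k, L.getD c dq))).2.2 / (lam (b (2, c, k, L.getD c dq))).1,
      fun x => ?_⟩
    have e6 : (lam (b (2, c, k, L.getD c dq))).2.1
        = -(lam (b (2, c, k, L.getD c dq))).1 * u (sel (L.getD c dq).1 k) := by
      simp only [u]
      field_simp
      linarith
    rw [e x, e6]
    field_simp
    ring
  have pY : ∀ c < L.length, ∀ k < 4, a (2, c, k, L.getD c dq) ⬝ᵥ Y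
      = w (sel (L.getD c dq).2 k) * (a (2, c, k, L.getD c dq) ⬝ᵥ Z) := by
    intro c hc k hk
    obtain ⟨μ, hμ, e⟩ := HH c hc k hk
    have e1 : a (2, c, k, L.getD c dq) ⬝ᵥ b (1, sel (L.getD c dq).2 k, 0, dq) = 0 := by
      simpa [ent, entOK, cmpE] using h _ (mP c hc k hk) _ (mH c hc k hk)
    rw [e] at e1
    have := (mul_eq_zero.1 e1).resolve_left hμ.ne'
    linarith
  have used : ∀ (f : Quad → N4) (s : ℕ), (∃ q ∈ L, ∃ j, sel (f q) j = s) →
      ∃ c < L.length, ∃ k < 4, sel (f (L.getD c dq)) k = s := by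
    rintro f s ⟨q, hq, j, rfl⟩
    obtain ⟨c, hc, rfl⟩ := exists_getD L dq hq
    exact ⟨c, hc, j % 4, Nat.mod_lt _ (by norm_num), sel_mod _ _⟩
  refine ⟨u, w, fun s hs s' hs' hss => ?_, fun s hs s' hs' hss => ?_, fun q hq => ?_⟩
  · obtain ⟨c, hc, k, hk, rfl⟩ := used Prod.fst s hs
    obtain ⟨c', hc', k', hk', rfl⟩ := used Prod.fst s' hs'
    obtain ⟨μ, hμ, γ, e⟩ := HL c' hc' k' hk'
    have e1 : a (1, sel (L.getD c dq).1 k, 0, dq) ⬝ᵥ b (2, c', k', L.getD c' dq) < 0 := by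
      have := h _ (mI c hc k hk) _ (mL c' hc' k' hk')
      simp only [ent, cmpE, hss.ne, hss.not_gt, if_false, if_true, one_ne_zero,
        OfNat.ofNat_ne_zero, OfNat.ofNat_ne_one, entOK] at this
      exact this
    rw [e, jZ c hc k hk] at e1
    have e2 := jH c hc k hk 0 h0 0 (by norm_num)
    rw [← hY] at e2
    have e3 := neg_of_mul_neg_right e1 hμ.le
    show (_ ⬝ᵥ X) / (_ ⬝ᵥ Y) < _
    rw [div_lt_iff₀ e2]
    linarith
  · obtain ⟨c, hc, k, hk, rfl⟩ := used Prod.snd s hs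
    obtain ⟨c', hc', k', hk', rfl⟩ := used Prod.snd s' hs'
    obtain ⟨μ, hμ, e⟩ := HH c hc k hk
    have e1 : 0 < a (2, c', k', L.getD c' dq) ⬝ᵥ b (1, sel (L.getD c dq).2 k, 0, dq) := by
      have := h _ (mP c' hc' k' hk') _ (mH c hc k hk)
      simp only [ent, cmpE, hss.ne', hss, if_false, if_true, one_ne_zero,
        OfNat.ofNat_ne_zero, OfNat.ofNat_ne_one, entOK] at this
      exact this
    rw [e, pY c' hc' k' hk', ← sub_mul] at e1
    have e2 := (mul_pos_iff_of_pos_left hμ).1 e1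
    have e3 := (mul_pos_iff_of_pos_right (pZ c' hc' k' hk')).1 e2
    linarith
  · obtain ⟨c, hc, rfl⟩ := exists_getD L dq hq
    set q := L.getD c dq with hq'
    let x : ℕ → ℝ := fun k => (a (2, c, k, q) ⬝ᵥ X) / (a (2, c, k, q) ⬝ᵥ Z)
    have key : ∀ j < 4, ∃ γ : ℝ, ∀ k < 4, entOK (tabE q k j)
        (x k - u (sel q.1 j) * w (sel q.2 k) - γ) := by
      intro j hj
      obtain ⟨μ, hμ, γ, e⟩ := HL c hc j hj
      refine ⟨γ, fun k hk => ?_⟩
      have e1 : entOK (tabE q k j) (a (2, c, k, q) ⬝ᵥ b (2, c, j, q)) := by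
        have := h _ (mP c hc k hk) _ (mL c hc j hj)
        simp only [ent, if_false, if_true, OfNat.ofNat_ne_zero, OfNat.ofNat_ne_one] at this
        exact this
      have e2 := pZ c hc k hk
      rw [e, pY c hc k hk] at e1
      rw [← hq'] at e1 e2
      have e3 : μ * (a (2, c, k, q) ⬝ᵥ X - u (sel q.1 j) * (w (sel q.2 k) * (a (2, c, k, q) ⬝ᵥ Z))
          - γ * (a (2, c, k, q) ⬝ᵥ Z)) = (μ * (a (2, c, k, q) ⬝ᵥ Z)) *
            (x k - u (sel q.1 j) * w (sel q.2 k) - γ) := by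
        simp only [x]
        field_simp
      rw [e3] at e1
      have e4 : 0 < μ * (a (2, c, k, q) ⬝ᵥ Z) := mul_pos hμ e2
      unfold entOK at e1 ⊢
      split_ifs at e1 ⊢
      · exact (mul_pos_iff_of_pos_left e4).1 e1
      · exact neg_of_mul_neg_right e1 e4.le
      · exact (mul_eq_zero.1 e1).resolve_left e4.ne'
    obtain ⟨γ0, g0⟩ := key 0 (by norm_num)
    obtain ⟨γ1, g1⟩ := key 1 (by norm_num)
    obtain ⟨γ2, g2⟩ := key 2 (by norm_num)
    obtain ⟨γ3, g3⟩ := key 3 (by norm_num)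
    have f00 := g0 0 (by norm_num)
    have f01 := g0 1 (by norm_num)
    have f11 := g1 1 (by norm_num)
    have f12 := g1 2 (by norm_num)
    have f22 := g2 2 (by norm_num)
    have f23 := g2 3 (by norm_num)
    have f33 := g3 3 (by norm_num)
    have f30 := g3 0 (by norm_num)
    simp [tabE, entOK, sel] at f00 f01 f11 f12 f22 f23 f33 f30
    unfold qF
    linarith

end Pool.Agent.MP_485bb6_lc
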