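import Mathlib
import Pool.Prelude.Def_F_458e953d

namespace Pool.Agent.MP_485bb6_lc

/-- Hyperbolic d-space, hyperboloid model. -/
def Hyp (d : ℕ) : Type := {x : ℝ × (Fin d → ℝ) // 0 < x.1 ∧ x.1 ^ 2 - ∑ i, x.2 i ^ 2 = 1}

/-- The hyperbolic metric of curvature -1. -/
noncomputable def hdist {d : ℕ} (x y : Hyp d) : ℝ :=
  Real.arcosh (x.1.1 * y.1.1 - ∑ i, x.1.2 i * y.1.2 i)

/-- Unit ball graphs in hyperbolic d-space; the radius is part of the realisation. -/
def IsUnitBallGraph (d : ℕ) {n : ℕ} (G : SimpleGraph (Fin n)) : Prop :=
  ∃ r : ℝ, 0 < r ∧ ∃ c : Fin n → Hyp d, ∀ u v, u ≠ v → (G.Adj u v ↔ hdist (c u) (c v) ≤ 2 * r)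

open Classical in
/-- The adjacency matrix, written row by row. -/
noncomputable def graphCode {n : ℕ} (G : SimpleGraph (Fin n)) : List Bool :=
  (List.finRange n).flatMap fun i => (List.finRange n).map fun j => decide (G.Adj i j)

open Classical in
/-- The recognition problem as a language of bit strings. -/
noncomputable def UBG (d : ℕ) (x : List Bool) : Bool :=
  decide (∃ (n : ℕ) (G : SimpleGraph (Fin n)), graphCode G = x ∧ IsUnitBallGraph d G)

/-- Polynomial terms with integer coefficients; variables are named by bit strings. -/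
inductive PTerm : Type
  | var (name : List Bool) : PTerm
  | zero : PTerm
  | one : PTerm
  | neg (s : PTerm) : PTerm
  | add (s t : PTerm) : PTerm
  | mul (s t : PTerm) : PTerm

/-- Quantifier-free formulas. -/
inductive Formula : Type
  | eq (s t : PTerm) : Formula
  | lt (s t : PTerm) : Formula
  | not (p : Formula) : Formula
  | and (p q : Formula) : Formula
  | or (p q : Formula) : Formula

/-- Value of a term. -/
def PTerm.eval (ρ : List Bool → ℝ) : PTerm → ℝ
  | .var name => ρ name
  | .zero => 0
  | .one => 1
  | .neg s => -s.eval ρ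
  | .add s t => s.eval ρ + t.eval ρ
  | .mul s t => s.eval ρ * t.eval ρ

/-- Truth of a formula. -/
def Formula.Holds (ρ : List Bool → ℝ) : Formula → Prop
  | .eq s t => s.eval ρ = t.eval ρ
  | .lt s t => s.eval ρ < t.eval ρ
  | .not p => ¬ p.Holds ρ
  | .and p q => p.Holds ρ ∧ q.Holds ρ
  | .or p q => p.Holds ρ ∨ q.Holds ρ

/-- The token of the k-th operation symbol. -/
def opTok (k : ℕ) : List Bool := false :: List.replicate k true

/-- A term in postfix order, as a list of tokens. -/
def PTerm.tokens : PTerm → List (List Bool)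
  | .var name => [true :: name]
  | .zero => [opTok 0]
  | .one => [opTok 1]
  | .neg s => s.tokens ++ [opTok 2]
  | .add s t => s.tokens ++ t.tokens ++ [opTok 3]
  | .mul s t => s.tokens ++ t.tokens ++ [opTok 4]

/-- A formula in postfix order, as a list of tokens. -/
def Formula.tokens : Formula → List (List Bool)
  | .eq s t => s.tokens ++ t.tokens ++ [opTok 5]
  | .lt s t => s.tokens ++ t.tokens ++ [opTok 6]
  | .not p => p.tokens ++ [opTok 7]
  | .and p q => p.tokens ++ q.tokens ++ [opTok 8]
  | .or p q => p.tokens ++ q.tokens ++ [opTok 9]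

/-- The bit string of a formula: its tokens, each self-delimited, concatenated. -/
def Formula.code (p : Formula) : List Bool := (p.tokens.map N487b59b3.delimit).flatten

open Classical in
/-- The existential theory of the reals as a language of bit strings. -/
noncomputable def ETR (x : List Bool) : Bool :=
  decide (∃ p : Formula, p.code = x ∧ ∃ ρ : List Bool → ℝ, p.Holds ρ)

/-- The class of problems that reduce to ETR by polynomial-time many-one reductions. -/
def ExistsR : Set N68a2faeb.DecisionProblem := {L | N793a5b8e.ManyOneReducible L ETR}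

/-- Complete: ETR reduces to it, and it lies in the class. -/
def IsExistsRComplete (L : N68a2faeb.DecisionProblem) : Prop :=
  N793a5b8e.ManyOneReducible ETR L ∧ L ∈ ExistsR

end Pool.Agent.MP_485bb6_lc
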