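import Mathlib
import Pool.Agent.MP_485bb6_lc.Config

/-! Realising the configuration near the base point. -/

namespace Pool.Agent.MP_485bb6_lc

open Filter Topology

/-- Horizontal offset of the k-th vertex. -/
def off (q : Quad) (u w : ℕ → ℝ) (k : ℕ) : ℝ :=
  ∑ i ∈ Finset.range k, u (sel q.1 i) * (w (sel q.2 (i + 1)) - w (sel q.2 i))

/-- Value of the j-th edge functional at the k-th vertex. -/
def qval (q : Quad) (u w : ℕ → ℝ) (k j : ℕ) : ℝ :=
  off q u w k - off q u w j - u (sel q.1 j) * (w (sel q.2 k) - w (sel q.2 j))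

/-- Point vectors. -/
def aC (Θ : ℝ) (u w : ℕ → ℝ) (p : Code) : V3 :=
  if p.1 = 0 then ![-1, 0, 0] else if p.1 = 1 then ![u p.2.1, 1, 0]
  else ![Θ * p.2.1 + off p.2.2.2 u w p.2.2.1, w (sel p.2.2.2.2 p.2.2.1), 1]

/-- Line vectors. -/
def bC (Θ : ℝ) (u w : ℕ → ℝ) (l : Code) : V3 :=
  if l.1 = 0 then ![0, 0, 1] else if l.1 = 1 then ![0, 1, -w l.2.1]
  else ![1, -u (sel l.2.2.2.1 l.2.2.1), -(Θ * l.2.1 + off l.2.2.2 u w l.2.2.1
    - u (sel l.2.2.2.1 l.2.2.1) * w (sel l.2.2.2.2 l.2.2.1))]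

lemma ev_entOK {e : ℕ} (he : e ≤ 1) {g : ℝ → ℝ} {F : Filter ℝ} {x : ℝ} (hg : Tendsto g F (𝓝 x))
    (h : entOK e x) : ∀ᶠ t in F, entOK e (g t) := by
  interval_cases e
  · simp only [entOK, if_true] at h ⊢; exact hg.eventually (lt_mem_nhds h)
  · simp only [entOK, one_ne_zero, if_false, if_true] at h ⊢; exact hg.eventually (gt_mem_nhds h)

lemma entOK_prodE {a b c d : ℕ} (h1 : a ≠ b) (h2 : c ≠ d) :
    entOK (prodE a b c d) (((a : ℝ) - b) * ((c : ℝ) - d)) := by
  unfold prodE
  split_ifs with h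
  · simp only [entOK, if_true]
    rcases h with ⟨h3, h4⟩ | ⟨h3, h4⟩
    · exact mul_pos (sub_pos.2 (by exact_mod_cast h3)) (sub_pos.2 (by exact_mod_cast h4))
    · exact mul_pos_of_neg_of_neg (sub_neg.2 (by exact_mod_cast h3))
        (sub_neg.2 (by exact_mod_cast h4))
  · simp only [entOK, one_ne_zero, if_false, if_true]
    rcases lt_or_gt_of_ne h1 with h3 | h3
    · have h4 : d < c := by omega
      exact mul_neg_of_neg_of_pos (sub_neg.2 (by exact_mod_cast h3))
        (sub_pos.2 (by exact_mod_cast h4))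
    · have h4 : c < d := by omega
      exact mul_neg_of_pos_of_neg (sub_pos.2 (by exact_mod_cast h3))
        (sub_neg.2 (by exact_mod_cast h4))

lemma ev_tab {q : Quad} (hq : QGen q) {u w : ℝ → ℕ → ℝ} {F : Filter ℝ}
    (hu : ∀ s, Tendsto (fun t => u t s) F (𝓝 s)) (hw : ∀ s, Tendsto (fun t => w t s) F (𝓝 s))
    (hF : ∀ᶠ t in F, 0 < qF q (u t) (w t)) {k j : ℕ} (hk : k < 4) (hj : j < 4) :
    ∀ᶠ t in F, entOK (tabE q k j) (qval q (u t) (w t) k j) := by
  have hlim : Tendsto (fun t => qval q (u t) (w t) k j) F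
      (𝓝 (qval q (fun n => n) (fun n => n) k j)) := by
    unfold qval off
    refine ((tendsto_finsetSum _ fun i _ => (hu _).mul ((hw _).sub (hw _))).sub
      (tendsto_finsetSum _ fun i _ => (hu _).mul ((hw _).sub (hw _)))).sub
      ((hu _).mul ((hw _).sub (hw _)))
  obtain ⟨⟨a1, a2, a3, a4⟩, ⟨b1, b2, b3, b4⟩, h0⟩ := hq
  unfold qF at h0
  have key : ∀ {a b c d : ℕ}, tabE q k j = prodE a b c d → a ≠ b → c ≠ d →
      qval q (fun n => n) (fun n => n) k j = ((a : ℝ) - b) * ((c : ℝ) - d) →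
      ∀ᶠ t in F, entOK (tabE q k j) (qval q (u t) (w t) k j) := by
    intro a b c d e h1 h2 e2
    rw [e]
    exact ev_entOK (prodE_le _ _ _ _) hlim (by rw [e2]; exact entOK_prodE h1 h2)
  beta_reduce at h0
  have s0 : ∀ t : N4, sel t 0 = t.1 := fun _ => rfl
  have s1 : ∀ t : N4, sel t 1 = t.2.1 := fun _ => rfl
  have s2 : ∀ t : N4, sel t 2 = t.2.2.1 := fun _ => rfl
  have s3 : ∀ t : N4, sel t 3 = t.2.2.2 := fun _ => rfl
  have s4 : ∀ t : N4, sel t 4 = t.1 := fun _ => rfl
  have s5 : ∀ t : N4, sel t 5 = t.2.1 := fun _ => rfl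
  have s6 : ∀ t : N4, sel t 6 = t.2.2.1 := fun _ => rfl
  interval_cases k <;> interval_cases j
  all_goals first
    | (refine Eventually.of_forall fun t => ?_
       simp [tabE, entOK, qval, off, Finset.sum_range_succ]
       done)
    | (refine hF.mono fun t ht => ?_
       simp only [tabE, entOK, qval, off, Finset.sum_range_succ, qF, Finset.range_zero,
         Finset.sum_empty, Nat.reduceAdd, s0, s1, s2, s3, Nat.reduceEqDiff, if_true, if_false,
         OfNat.zero_ne_ofNat, one_ne_zero] at ht ⊢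
       linarith)
    | (refine key rfl ?_ ?_ ?_
       · simp only [Nat.reduceAdd, s0, s1, s2, s3, s4, s5, s6]; omega
       · simp only [Nat.reduceAdd, s0, s1, s2, s3, s4, s5, s6]; omega
       · simp only [qval, off, Finset.sum_range_succ, Finset.range_zero, Finset.sum_empty,
           Nat.reduceAdd, s0, s1, s2, s3, s4, s5, s6]
         first | ring1 | linear_combination h0 | linear_combination -h0)

lemma ev_cmp {g : ℝ → ℕ → ℝ} {F : Filter ℝ} (hg : ∀ s, Tendsto (fun t => g t s) F (𝓝 s))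
    (x y : ℕ) {z : ℕ} (hz : 2 ≤ z) : ∀ᶠ t in F, entOK (cmpE x y z) (g t x - g t y) := by
  unfold cmpE
  split_ifs with h1 h2
  · subst h1
    refine Eventually.of_forall fun t => ?_
    unfold entOK
    rw [if_neg (by omega), if_neg (by omega), sub_self]
  · refine ev_entOK (by norm_num) ((hg x).sub (hg y)) ?_
    simp only [entOK, if_true]
    exact sub_pos.2 (by exact_mod_cast h2)
  · refine ev_entOK (by norm_num) ((hg x).sub (hg y)) ?_
    simp only [entOK, one_ne_zero, if_false, if_true]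
    exact sub_neg.2 (by exact_mod_cast (show x < y by omega))

lemma ev_far {c c' : ℕ} (h : c ≠ c') (K : ℝ) :
    ∀ᶠ Θ : ℝ in atTop, entOK (cmpE c c' 0) (Θ * (c - c') + K) := by
  unfold cmpE
  rw [if_neg h]
  split_ifs with h2
  · simp only [entOK, if_true]
    have h3 : (1 : ℝ) ≤ c - c' := by
      have : ((c' + 1 : ℕ) : ℝ) ≤ c := by exact_mod_cast h2
      push_cast at this
      linarith
    filter_upwards [eventually_gt_atTop |K|] with Θ hΘ
    nlinarith [neg_abs_le K, abs_nonneg K]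
  · simp only [entOK, one_ne_zero, if_false, if_true]
    have h3 : (1 : ℝ) ≤ c' - c := by
      have : ((c + 1 : ℕ) : ℝ) ≤ c' := by exact_mod_cast (show c + 1 ≤ c' by omega)
      push_cast at this
      linarith
    filter_upwards [eventually_gt_atTop |K|] with Θ hΘ
    nlinarith [le_abs_self K, abs_nonneg K]

theorem config_of_qnear {L : List Quad} (hG : ∀ q ∈ L, QGen q) (h : QNear L) :
    ∃ (Θ : ℝ) (u w : ℕ → ℝ), ∀ p ∈ ptList L, ∀ l ∈ lnList L,
      entOK (ent p l) (aC Θ u w p ⬝ᵥ bC Θ u w l) := by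
  obtain ⟨u, w, hu, hw, hF⟩ := h
  have E : ∀ᶠ t in 𝓝[>] (0 : ℝ), ∀ p ∈ {p | p ∈ ptList L}, ∀ l ∈ {l | l ∈ lnList L},
      ∀ᶠ Θ : ℝ in atTop, entOK (ent p l) (aC Θ (u t) (w t) p ⬝ᵥ bC Θ (u t) (w t) l) := by
    refine (eventually_all_finite (List.finite_toSet _)).2 fun p hp =>
      (eventually_all_finite (List.finite_toSet _)).2 fun l hl => ?_
    rcases mem_ptList.1 hp with rfl | ⟨c, hc, k, hk, rfl | rfl⟩ <;>
      rcases mem_lnList.1 hl with rfl | ⟨c', hc', j, hj, rfl | rfl⟩
    · simp [ent, entOK, aC, bC]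
    · simp [ent, entOK, aC, bC]
    · simp [ent, entOK, aC, bC]
    · simp [ent, entOK, aC, bC]
    · simp [ent, entOK, aC, bC]
    · refine (ev_cmp hu (sel (L.getD c dq).1 k) (sel (L.getD c' dq).1 j) (z := 5)
        (by norm_num)).mono fun t ht => Eventually.of_forall fun Θ => ?_
      simp only [ent, aC, bC, if_false, if_true, OfNat.ofNat_ne_zero, OfNat.ofNat_ne_one,
        one_ne_zero, Matrix.vec3_dotProduct, Matrix.cons_val_zero, Matrix.cons_val_one,
        Matrix.cons_val]
      convert ht using 1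
      ring
    · simp [ent, entOK, aC, bC]
    · refine (ev_cmp hw (sel (L.getD c dq).2 k) (sel (L.getD c' dq).2 j) (z := 2)
        (by norm_num)).mono fun t ht => Eventually.of_forall fun Θ => ?_
      simp only [ent, aC, bC, if_false, if_true, OfNat.ofNat_ne_zero, OfNat.ofNat_ne_one,
        one_ne_zero, Matrix.vec3_dotProduct, Matrix.cons_val_zero, Matrix.cons_val_one,
        Matrix.cons_val]
      convert ht using 1
      ring
    · by_cases hcc : c = c'
      · subst hcc
        have hq := getD_mem L dq hc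
        refine (ev_tab (hG _ hq) hu hw (hF _ hq) hk hj).mono fun t ht =>
          Eventually.of_forall fun Θ => ?_
        simp only [ent, aC, bC, if_false, if_true, OfNat.ofNat_ne_zero, OfNat.ofNat_ne_one,
          one_ne_zero, Matrix.vec3_dotProduct, Matrix.cons_val_zero, Matrix.cons_val_one,
          Matrix.cons_val]
        convert ht using 1
        unfold qval
        ring
      · refine Eventually.of_forall fun t => (ev_far hcc
          (off (L.getD c dq) (u t) (w t) k - off (L.getD c' dq) (u t) (w t) j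
            - u t (sel (L.getD c' dq).1 j) * (w t (sel (L.getD c dq).2 k)
              - w t (sel (L.getD c' dq).2 j)))).mono fun Θ hΘ => ?_
        simp only [ent, aC, bC, if_false, if_true, OfNat.ofNat_ne_zero, OfNat.ofNat_ne_one,
          one_ne_zero, Matrix.vec3_dotProduct, Matrix.cons_val_zero, Matrix.cons_val_one,
          Matrix.cons_val, hcc]
        convert hΘ using 1
        ring
  obtain ⟨t, ht⟩ := E.exists
  have E2 : ∀ᶠ Θ : ℝ in atTop, ∀ p ∈ {p | p ∈ ptList L}, ∀ l ∈ {l | l ∈ lnList L},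
      entOK (ent p l) (aC Θ (u t) (w t) p ⬝ᵥ bC Θ (u t) (w t) l) :=
    (eventually_all_finite (List.finite_toSet _)).2 fun p hp =>
      (eventually_all_finite (List.finite_toSet _)).2 fun l hl => ht p hp l hl
  obtain ⟨Θ, hΘ⟩ := E2.exists
  exact ⟨Θ, u t, w t, hΘ⟩

lemma exists_ef (Θ : ℝ) (u w : ℕ → ℝ) (LP LL : List Code) :
    ∃ e f : V3, e ⬝ᵥ f = 0 ∧ (∀ p ∈ LP, 0 < aC Θ u w p ⬝ᵥ f) ∧ ∀ l ∈ LL, 0 < e ⬝ᵥ bC Θ u w l := by
  have E1 : ∀ᶠ K : ℝ in atTop, ∀ p ∈ {p | p ∈ LP}, ∀ᶠ ε in 𝓝[>] (0 : ℝ),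
      0 < aC Θ u w p ⬝ᵥ ![-ε, 1, K] := by
    refine (eventually_all_finite (List.finite_toSet _)).2 fun p _ => ?_
    unfold aC
    split_ifs
    · refine Eventually.of_forall fun K => ?_
      filter_upwards [self_mem_nhdsWithin] with ε hε
      simpa using hε
    · refine Eventually.of_forall fun K => ?_
      simpa using ev_sgn0 (b := true) (g := fun ε => -(u p.2.1 * ε) + 1) (by fun_prop) (by simp)
    · filter_upwards [eventually_gt_atTop (-w (sel p.2.2.2.2 p.2.2.1))] with K hK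
      simpa using ev_sgn0 (b := true) (g := fun ε => -((Θ * p.2.1 + off p.2.2.2 u w p.2.2.1) * ε)
        + (w (sel p.2.2.2.2 p.2.2.1) + K)) (by fun_prop) (by simp; linarith)
  have E2 : ∀ᶠ K : ℝ in atTop, ∀ l ∈ {l | l ∈ LL}, ∀ᶠ ε in 𝓝[>] (0 : ℝ),
      0 < ![2 * K, ε * K, ε] ⬝ᵥ bC Θ u w l := by
    refine (eventually_all_finite (List.finite_toSet _)).2 fun l _ => ?_
    unfold bC
    split_ifs
    · refine Eventually.of_forall fun K => ?_
      filter_upwards [self_mem_nhdsWithin] with ε hε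
      simpa using hε
    · filter_upwards [eventually_gt_atTop (w l.2.1)] with K hK
      filter_upwards [self_mem_nhdsWithin] with ε hε
      have h1 : 0 < ε * (K - w l.2.1) := mul_pos hε (by linarith)
      simp only [Matrix.vec3_dotProduct, Matrix.cons_val_zero, Matrix.cons_val_one, Matrix.cons_val]
      linarith
    · filter_upwards [eventually_gt_atTop 0] with K hK
      simp only [Matrix.vec3_dotProduct, Matrix.cons_val_zero, Matrix.cons_val_one, Matrix.cons_val]
      exact ev_sgn0 (b := true) (by fun_prop) (by simpa using hK)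
  obtain ⟨K, h1, h2⟩ := (E1.and E2).exists
  obtain ⟨ε, h3, h4⟩ := (((eventually_all_finite (List.finite_toSet _)).2 h1).and
    ((eventually_all_finite (List.finite_toSet _)).2 h2)).exists
  refine ⟨![2 * K, ε * K, ε], ![-ε, 1, K], ?_, h3, h4⟩
  simp only [Matrix.vec3_dotProduct, Matrix.cons_val_zero, Matrix.cons_val_one, Matrix.cons_val]
  ring

/-- Plus or minus one. -/
def pm (b : Bool) : ℝ := if b = true then 1 else -1

lemma sgn_pm (b : Bool) : sgn b (pm b) := by cases b <;> simp [pm]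

/-- Perturbation directions of points. -/
def dP (u : ℕ → ℝ) (p : Code) (s : Bool × Bool) : V3 :=
  if p.1 ≤ 1 then ![0, 0, pm s.1]
  else ![pm s.2 + u (sel p.2.2.2.1 (p.2.2.1 - 1)) * pm s.1, pm s.1, 0]

/-- Perturbation directions of lines. -/
def dL (w : ℕ → ℝ) (l : Code) (s : Bool × Bool) : V3 :=
  if l.1 = 1 then ![-pm s.1, 0, 0]
  else ![0, pm s.2, pm s.1 - w (sel l.2.2.2.2 l.2.2.1) * pm s.2]

/-- The strict matrix on the copies. -/
def strictM (p l : Code × Bool × Bool) : Bool := strict (ent p.1 l.1) p.2 l.2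

theorem affine_of_qnear {L : List Quad} (hG : ∀ q ∈ L, QGen q) (h : QNear L) :
    ∃ (y1 y2 α ν : Code × Bool × Bool → ℝ), ∀ p, p.1 ∈ ptList L → ∀ l, l.1 ∈ lnList L →
      sgn (strictM p l) (α l + y1 p + ν l * y2 p) := by
  obtain ⟨Θ, u, w, h1⟩ := config_of_qnear hG h
  obtain ⟨e, f, hef, hf, he⟩ := exists_ef Θ u w (ptList L) (lnList L)
  obtain ⟨U, V, h2, h3, h4⟩ := tostrict (constructible L) (List.finite_toSet _) (List.finite_toSet _)
    (aC Θ u w) (bC Θ u w) h1 (dP u) (dL w)
    (by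
      intro p hp l hl s he
      rcases ent_cases hp hl with h1 | h1 | h1 | h1 | h1 <;> try omega
      convert sgn_pm s.1 using 1
      rw [h1.2.2]
      unfold dP
      split_ifs <;> simp [bC])
    (by
      intro p hp l hl s he
      rcases ent_cases hp hl with h1 | h1 | h1 | h1 | h1 <;> try omega
      convert sgn_pm s.2 using 1
      rw [h1.2.2.2]
      simp [dP, bC, h1.2.2.1]
      ring)
    (by
      intro p hp l hl s he
      rcases ent_cases hp hl with h1 | h1 | h1 | h1 | h1 <;> try omega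
      convert sgn_pm s.1 using 1
      rw [h1.2.2.2]
      unfold dL
      split_ifs with h5
      · simp [aC]
      · simp [aC, h5, h1.2.2.1])
    (by
      intro p hp l hl s he
      rcases ent_cases hp hl with h1 | h1 | h1 | h1 | h1 <;> try omega
      convert sgn_pm s.2 using 1
      rw [h1.2.2.2]
      simp [dL, aC, h1.2.2.1])
    e f hf he
  obtain ⟨y1, y2, α, ν, h5⟩ := to_affine (SP := {p : Code × Bool × Bool | p.1 ∈ ptList L})
    (SL := {l : Code × Bool × Bool | l.1 ∈ lnList L}) (M := strictM)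
    (fun p => U p.1 p.2) (fun l => V l.1 l.2) (fun p hp l hl => h2 _ hp _ hl _ _) hef
    (fun p hp => h3 _ hp _) (fun l hl => h4 _ hl _)
  exact ⟨y1, y2, α, ν, fun p hp l hl => h5 p hp l hl⟩

theorem qsato_of_strict {L : List Quad} (U V : Code × Bool × Bool → V3)
    (h : ∀ p, p.1 ∈ ptList L → ∀ l, l.1 ∈ lnList L → sgn (strictM p l) (U p ⬝ᵥ V l)) : QSatO L := by
  obtain ⟨a, b, hab⟩ := unstrict (constructible L) (fun p s => U (p, s)) (fun l s => V (l, s))
    (fun p hp l hl s s' => h (p, s) hp (l, s') hl)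
  exact qsato_of_config a b hab

end Pool.Agent.MP_485bb6_lc
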