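import Mathlib
import Pool.Agent.MP_485bb6_lc.Defs
import Pool.Agent.MP_485bb6_lc.Sign

/-! Half-spaces as large balls in hyperbolic space. -/

namespace Pool.Agent.MP_485bb6_lc

open Filter Topology Finset

/-- The Lorentzian product, the hyperbolic cosine of the distance. -/
def hB {d : ℕ} (x y : Hyp d) : ℝ := x.1.1 * y.1.1 - ∑ i, x.1.2 i * y.1.2 i

lemma hB_comm {d : ℕ} (x y : Hyp d) : hB x y = hB y x := by
  unfold hB
  simp only [mul_comm]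

lemma one_le_hB {d : ℕ} (x y : Hyp d) : 1 ≤ hB x y := by
  obtain ⟨hx0, hx⟩ := x.2
  obtain ⟨hy0, hy⟩ := y.2
  have h1 := Finset.sum_mul_sq_le_sq_mul_sq Finset.univ x.1.2 y.1.2
  unfold hB
  set a := ∑ i, x.1.2 i ^ 2
  set b := ∑ i, y.1.2 i ^ 2
  set s := ∑ i, x.1.2 i * y.1.2 i
  have ha : 0 ≤ a := Finset.sum_nonneg fun i _ => sq_nonneg _
  have hb : 0 ≤ b := Finset.sum_nonneg fun i _ => sq_nonneg _
  have h2 : (2 * s) ^ 2 ≤ (a + b) ^ 2 := by nlinarith [sq_nonneg (a - b)]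
  have h3 : 2 * s ≤ a + b := (abs_le_of_sq_le_sq' h2 (by positivity)).2
  have h4 : (1 + s) ^ 2 ≤ (x.1.1 * y.1.1) ^ 2 := by
    have : (x.1.1 * y.1.1) ^ 2 = (1 + a) * (1 + b) := by
      rw [mul_pow]
      congr 1 <;> linarith
    rw [this]
    nlinarith
  have h5 := (abs_le_of_sq_le_sq' h4 (by positivity)).2
  linarith

lemma hdist_le_iff {d : ℕ} (x y : Hyp d) {r : ℝ} (hr : 0 < r) :
    hdist x y ≤ 2 * r ↔ hB x y ≤ Real.cosh (2 * r) := by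
  have h1 := one_le_hB x y
  rw [← Real.arcosh_le_arcosh (by linarith) (Real.cosh_pos _), Real.arcosh_cosh (by linarith)]
  rfl

lemma exists_radius {R : ℝ} (hR : 1 < R) : ∃ r : ℝ, 0 < r ∧ Real.cosh (2 * r) = R :=
  ⟨Real.arcosh R / 2, by have := Real.arcosh_pos hR; linarith, by
    rw [mul_div_cancel₀ _ two_ne_zero, Real.cosh_arcosh hR.le]⟩

/-- The point of the hyperboloid above a given point of Euclidean space. -/
noncomputable def liftH (d : ℕ) (Y : ℕ → ℝ) : Hyp d :=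
  ⟨(√(1 + ∑ i ∈ range d, Y i ^ 2), fun i => Y i), by
    have h : 0 ≤ ∑ i ∈ range d, Y i ^ 2 := Finset.sum_nonneg fun i _ => sq_nonneg _
    refine ⟨Real.sqrt_pos.2 (by linarith), ?_⟩
    rw [Real.sq_sqrt (by linarith), Fin.sum_univ_eq_sum_range (fun i => Y i ^ 2)]
    ring⟩

lemma hB_liftH (d : ℕ) (Y Z : ℕ → ℝ) : hB (liftH d Y) (liftH d Z) =
    √(1 + ∑ i ∈ range d, Y i ^ 2) * √(1 + ∑ i ∈ range d, Z i ^ 2) - ∑ i ∈ range d, Y i * Z i := by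
  unfold hB liftH
  simp only
  rw [Fin.sum_univ_eq_sum_range (fun i => Y i * Z i)]

/-- Coordinates of a point vertex. -/
def ptC (y1 : ℝ) (y : ℕ → ℝ) (ε : ℝ) : ℕ → ℝ
  | 0 => ε ^ 3 * y1
  | i + 1 => ε ^ 2 * y i

/-- Coordinates of a ball centre. -/
noncomputable def ctr (k : ℕ) (σ α : ℝ) (ν : ℕ → ℝ) (ε : ℝ) : ℕ → ℝ
  | 0 => σ * (4 / 3) * (1 - ε ^ 2 * (∑ i ∈ range k, ν i ^ 2) / 2 - σ * (5 / 4) * ε ^ 3 * α)
  | i + 1 => σ * ε * (4 / 3) * ν i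

lemma cont_ptC (y1 : ℝ) (y : ℕ → ℝ) (i : ℕ) : Continuous fun ε => ptC y1 y ε i := by
  cases i <;> simp only [ptC] <;> fun_prop

lemma cont_ctr (k : ℕ) (σ α : ℝ) (ν : ℕ → ℝ) (i : ℕ) : Continuous fun ε => ctr k σ α ν ε i := by
  cases i <;> simp only [ctr] <;> fun_prop

lemma cont_hB (d : ℕ) {Y Z : ℝ → ℕ → ℝ} (hY : ∀ i, Continuous fun ε => Y ε i)
    (hZ : ∀ i, Continuous fun ε => Z ε i) :
    Continuous fun ε => hB (liftH d (Y ε)) (liftH d (Z ε)) := by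
  simp only [hB_liftH]
  fun_prop

lemma ev_lt0 {g : ℝ → ℝ} (hg : Continuous g) {c : ℝ} (h : g 0 < c) :
    ∀ᶠ t in 𝓝[>] 0, g t < c :=
  ((hg.tendsto 0).mono_left nhdsWithin_le_nhds).eventually (gt_mem_nhds h)

lemma ev_gt0 {g : ℝ → ℝ} (hg : Continuous g) {c : ℝ} (h : c < g 0) :
    ∀ᶠ t in 𝓝[>] 0, c < g t :=
  ((hg.tendsto 0).mono_left nhdsWithin_le_nhds).eventually (lt_mem_nhds h)

lemma ev_pp (k : ℕ) (y1 z1 : ℝ) (y z : ℕ → ℝ) : ∀ᶠ ε in 𝓝[>] 0,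
    hB (liftH (k + 1) (ptC y1 y ε)) (liftH (k + 1) (ptC z1 z ε)) < 5 / 3 := by
  refine ev_lt0 (cont_hB _ (cont_ptC _ _) (cont_ptC _ _)) ?_
  simp [hB_liftH, sum_range_succ', ptC]
  norm_num

lemma hB_ctr0 (k : ℕ) {σ τ : ℝ} (hσ : σ ^ 2 = 1) (hτ : τ ^ 2 = 1) (α β : ℝ) (ν μ : ℕ → ℝ) :
    hB (liftH (k + 1) (ctr k σ α ν 0)) (liftH (k + 1) (ctr k τ β μ 0)) = 25 / 9 - σ * τ * (16 / 9) := by
  have e : √(1 + (4 / 3 : ℝ) ^ 2) = 5 / 3 := by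
    rw [show (1 + (4 / 3 : ℝ) ^ 2) = (5 / 3) ^ 2 by norm_num, Real.sqrt_sq (by norm_num)]
  simp only [hB_liftH, sum_range_succ', ctr, mul_zero, zero_mul, ne_eq, OfNat.ofNat_ne_zero,
    not_false_eq_true, zero_pow, sum_const_zero, zero_add, zero_div, sub_zero, mul_one, mul_pow,
    hσ, hτ, one_mul, e]
  ring

lemma ev_pc (k : ℕ) {σ : ℝ} (hσ : σ = 1 ∨ σ = -1) (y1 α : ℝ) (y ν : ℕ → ℝ) (b : Bool)
    (h : sgn b (σ * (α + y1 + ∑ i ∈ range k, ν i * y i))) : ∀ᶠ ε in 𝓝[>] 0,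
    (hB (liftH (k + 1) (ptC y1 y ε)) (liftH (k + 1) (ctr k σ α ν ε)) ≤ 5 / 3 ↔ b = true) := by
  set A := ∑ i ∈ range k, ν i ^ 2 with hA
  set B := ∑ i ∈ range k, y i ^ 2 with hB'
  set C := ∑ i ∈ range k, ν i * y i with hC
  have hσ2 : σ ^ 2 = 1 := by rcases hσ with rfl | rfl <;> norm_num
  set z : ℝ → ℝ := fun ε => 1 - ε ^ 2 * A / 2 - σ * (5 / 4) * ε ^ 3 * α with hz
  have e1 : ∀ ε, ∑ i ∈ range (k + 1), ptC y1 y ε i ^ 2 = ε ^ 4 * B + ε ^ 6 * y1 ^ 2 := by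
    intro ε
    simp only [sum_range_succ', ptC, mul_pow, ← Finset.mul_sum]
    ring
  have e2 : ∀ ε, ∑ i ∈ range (k + 1), ctr k σ α ν ε i ^ 2
      = ε ^ 2 * (16 / 9) * A + 16 / 9 * z ε ^ 2 := by
    intro ε
    simp only [sum_range_succ', ctr, mul_pow, ← Finset.mul_sum, hσ2]
    ring
  have e3 : ∀ ε, ∑ i ∈ range (k + 1), ptC y1 y ε i * ctr k σ α ν ε i
      = σ * (4 / 3) * ε ^ 3 * (y1 * z ε + C) := by
    intro ε
    have : ∑ i ∈ range k, ε ^ 2 * y i * (σ * ε * (4 / 3) * ν i) = σ * (4 / 3) * ε ^ 3 * C := by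
      rw [hC, Finset.mul_sum]
      exact Finset.sum_congr rfl fun i _ => by ring
    simp only [sum_range_succ', ctr, ptC, this]
    ring
  set g : ℝ → ℝ := fun ε => 2 * (5 / 3) * σ * (4 / 3) * (y1 * z ε + C)
    + 16 / 9 * ε ^ 3 * (y1 * z ε + C) ^ 2 + 2 * σ * (5 / 3) * (4 / 3) * α
    - 16 / 9 * ε * (A / 2 + σ * (5 / 4) * ε * α) ^ 2
    - ε * (ε ^ 2 * y1 ^ 2 + B) * (25 / 9 - 2 * σ * (5 / 3) * (4 / 3) * ε ^ 3 * α
      + 16 / 9 * ε ^ 4 * (A / 2 + σ * (5 / 4) * ε * α) ^ 2) with hg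
  have e4 : ∀ ε, (5 / 3 + σ * (4 / 3) * ε ^ 3 * (y1 * z ε + C)) ^ 2
      - (1 + (ε ^ 4 * B + ε ^ 6 * y1 ^ 2)) * (1 + (ε ^ 2 * (16 / 9) * A + 16 / 9 * z ε ^ 2))
      = ε ^ 3 * g ε := by
    intro ε
    simp only [hg, hz]
    rcases hσ with rfl | rfl <;> ring
  have E1 : ∀ᶠ ε in 𝓝[>] (0 : ℝ), sgn b (g ε) := by
    refine ev_sgn0 (by simp only [hg, hz]; fun_prop) ?_
    have := sgn_pos_mul (c := 40 / 9) (by norm_num) h
    convert this using 1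
    simp only [hg, hz]
    ring
  have E2 : ∀ᶠ ε in 𝓝[>] (0 : ℝ), 0 < 5 / 3 + σ * (4 / 3) * ε ^ 3 * (y1 * z ε + C) :=
    ev_gt0 (by simp only [hz]; fun_prop) (by norm_num)
  filter_upwards [E1, E2, self_mem_nhdsWithin] with ε h1 h2 hε
  have h3 := sgn_pos_mul (pow_pos (show 0 < ε from hε) 3) h1
  rw [← e4] at h3
  have hA0 : 0 ≤ A := Finset.sum_nonneg fun i _ => sq_nonneg _
  have hB0 : 0 ≤ B := Finset.sum_nonneg fun i _ => sq_nonneg _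
  rw [hB_liftH, e1, e2, e3, ← Real.sqrt_mul (by positivity), sub_le_iff_le_add,
    Real.sqrt_le_left h2.le]
  cases b
  · simp only [sgn_false] at h3
    simp only [Bool.false_eq_true, iff_false, not_le]
    linarith
  · simp only [sgn_true] at h3
    simp only [iff_true]
    linarith

/-- Realisation of a sign matrix by balls of equal radius. -/
def BallReal (d : ℕ) {P L : Type} (SP : Set P) (SL : Set L) (M : P → L → Bool) : Prop :=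
  ∃ (c : P → Hyp d) (a b : L → Hyp d),
    (∀ p ∈ SP, ∀ p' ∈ SP, hB (c p) (c p') ≤ 5 / 3) ∧
    (∀ l ∈ SL, ∀ l' ∈ SL, hB (a l) (a l') ≤ 5 / 3 ∧ hB (b l) (b l') ≤ 5 / 3 ∧
      5 / 3 < hB (a l) (b l')) ∧
    ∀ p ∈ SP, ∀ l ∈ SL, (hB (c p) (a l) ≤ 5 / 3 ↔ M p l = true) ∧
      (hB (c p) (b l) ≤ 5 / 3 ↔ (!M p l) = true)

theorem ballReal_of_affine (k : ℕ) {P L : Type} {SP : Set P} {SL : Set L} (hP : SP.Finite)
    (hL : SL.Finite) {M : P → L → Bool} (y1 : P → ℝ) (y : P → ℕ → ℝ) (α : L → ℝ) (ν : L → ℕ → ℝ)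
    (h : ∀ p ∈ SP, ∀ l ∈ SL, sgn (M p l) (α l + y1 p + ∑ i ∈ range k, ν l i * y p i)) :
    BallReal (k + 1) SP SL M := by
  have E1 : ∀ᶠ ε in 𝓝[>] (0 : ℝ), ∀ p ∈ SP, ∀ p' ∈ SP,
      hB (liftH (k + 1) (ptC (y1 p) (y p) ε)) (liftH (k + 1) (ptC (y1 p') (y p') ε)) ≤ 5 / 3 :=
    (eventually_all_finite hP).2 fun p _ => (eventually_all_finite hP).2 fun p' _ =>
      (ev_pp k _ _ _ _).mono fun ε h => h.le
  have E2 : ∀ᶠ ε in 𝓝[>] (0 : ℝ), ∀ l ∈ SL, ∀ l' ∈ SL,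
      hB (liftH (k + 1) (ctr k 1 (α l) (ν l) ε)) (liftH (k + 1) (ctr k 1 (α l') (ν l') ε)) ≤ 5 / 3 ∧
      hB (liftH (k + 1) (ctr k (-1) (α l) (ν l) ε))
        (liftH (k + 1) (ctr k (-1) (α l') (ν l') ε)) ≤ 5 / 3 ∧
      5 / 3 < hB (liftH (k + 1) (ctr k 1 (α l) (ν l) ε))
        (liftH (k + 1) (ctr k (-1) (α l') (ν l') ε)) := by
    refine (eventually_all_finite hL).2 fun l _ => (eventually_all_finite hL).2 fun l' _ => ?_
    refine Eventually.and ?_ (Eventually.and ?_ ?_)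
    · refine (ev_lt0 (cont_hB _ (cont_ctr _ _ _ _) (cont_ctr _ _ _ _)) ?_).mono fun ε h => h.le
      rw [hB_ctr0 k (by norm_num) (by norm_num)]; norm_num
    · refine (ev_lt0 (cont_hB _ (cont_ctr _ _ _ _) (cont_ctr _ _ _ _)) ?_).mono fun ε h => h.le
      rw [hB_ctr0 k (by norm_num) (by norm_num)]; norm_num
    · refine ev_gt0 (cont_hB _ (cont_ctr _ _ _ _) (cont_ctr _ _ _ _)) ?_
      rw [hB_ctr0 k (by norm_num) (by norm_num)]; norm_num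
  have E3 : ∀ᶠ ε in 𝓝[>] (0 : ℝ), ∀ p ∈ SP, ∀ l ∈ SL,
      (hB (liftH (k + 1) (ptC (y1 p) (y p) ε)) (liftH (k + 1) (ctr k 1 (α l) (ν l) ε)) ≤ 5 / 3
        ↔ M p l = true) ∧
      (hB (liftH (k + 1) (ptC (y1 p) (y p) ε)) (liftH (k + 1) (ctr k (-1) (α l) (ν l) ε)) ≤ 5 / 3
        ↔ (!M p l) = true) := by
    refine (eventually_all_finite hP).2 fun p hp => (eventually_all_finite hL).2 fun l hl => ?_
    have h1 := h p hp l hl
    refine Eventually.and (ev_pc k (Or.inl rfl) _ _ _ _ _ (by simpa using h1))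
      (ev_pc k (Or.inr rfl) _ _ _ _ _ ?_)
    cases hM : M p l <;> simp only [hM, sgn_true, sgn_false, Bool.not_false, Bool.not_true] at h1 ⊢ <;>
      linarith
  obtain ⟨ε, h1, h2, h3⟩ := (E1.and (E2.and E3)).exists
  exact ⟨_, _, _, h1, h2, h3⟩

/-- The bisector functional. -/
def bis {d : ℕ} (a b : Hyp d) : Module.Dual ℝ (ℝ × (Fin d → ℝ)) where
  toFun x := x.1 * (b.1.1 - a.1.1) - ∑ i, x.2 i * (b.1.2 i - a.1.2 i)
  map_add' x y := by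
    simp only [Prod.fst_add, Prod.snd_add, Pi.add_apply, add_mul, Finset.sum_add_distrib]
    ring
  map_smul' c x := by
    simp only [Prod.smul_fst, Prod.smul_snd, Pi.smul_apply, smul_eq_mul, RingHom.id_apply,
      mul_assoc, ← Finset.mul_sum]
    ring

lemma bis_apply {d : ℕ} (a b c : Hyp d) : bis a b c.1 = hB c b - hB c a := by
  simp only [bis, hB, LinearMap.coe_mk, AddHom.coe_mk, mul_sub, Finset.sum_sub_distrib]
  ring

lemma sgn_bis {d : ℕ} {a b c : Hyp d} {R : ℝ} {m : Bool} (h1 : hB c a ≤ R ↔ m = true)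
    (h2 : hB c b ≤ R ↔ (!m) = true) : sgn m (bis a b c.1) := by
  rw [bis_apply]
  cases m
  · simp only [Bool.false_eq_true, iff_false, not_le, Bool.not_false, iff_true, sgn_false] at *
    linarith
  · simp only [Bool.false_eq_true, iff_false, not_le, Bool.not_true, iff_true, sgn_true] at *
    linarith

end Pool.Agent.MP_485bb6_lc
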