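import Mathlib
import Pool.Agent.MP_485bb6_lc.Forward
import Pool.Agent.MP_485bb6_lc.Hyper

/-! The graph attached to a system of quadrilateral tests. -/

namespace Pool.Agent.MP_485bb6_lc

open Filter Topology

/-- A matrix written row by row. -/
def mat (m n : ℕ) (f : ℕ → ℕ → Bool) : List Bool :=
  (List.range m).flatMap fun i => (List.range n).map (f i)

lemma length_mat (m n : ℕ) (f : ℕ → ℕ → Bool) : (mat m n f).length = m * n := by
  induction m with
  | zero => simp [mat]
  | succ m ih =>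
    simp only [mat, List.range_succ, List.flatMap_append, List.length_append] at ih ⊢
    rw [ih]
    simp [add_mul]

lemma getD_mat (m n : ℕ) (f : ℕ → ℕ → Bool) {i j : ℕ} (hi : i < m) (hj : j < n) :
    (mat m n f).getD (i * n + j) false = f i j := by
  induction m with
  | zero => omega
  | succ m ih =>
    have e : mat (m + 1) n f = mat m n f ++ (List.range n).map (f m) := by
      simp [mat, List.range_succ]
    rw [e]
    rcases Nat.lt_succ_iff_lt_or_eq.1 hi with h | rfl
    · rw [List.getD_append _ _ _ _ (by rw [length_mat]; nlinarith), ih h]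
    · rw [List.getD_append_right _ _ _ _ (by rw [length_mat]; omega), length_mat,
        Nat.add_sub_cancel_left, List.getD_eq_getElem _ _ (by simpa using hj)]
      simp

lemma eq_mat {n : ℕ} {x : List Bool} (hx : x.length = n * n) {f : ℕ → ℕ → Bool}
    (h : ∀ i < n, ∀ j < n, x.getD (i * n + j) false = f i j) : x = mat n n f := by
  refine List.ext_getElem (by rw [hx, length_mat]) fun k h1 h2 => ?_
  have hn : 0 < n := by
    rcases Nat.eq_zero_or_pos n with rfl | h
    · simp [hx] at h1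
    · exact h
  have hi : k / n < n := (Nat.div_lt_iff_lt_mul hn).2 (by rwa [hx] at h1)
  have hj : k % n < n := Nat.mod_lt _ hn
  have e : k / n * n + k % n = k := Nat.div_add_mod' k n
  have h3 := h _ hi _ hj
  have h4 := getD_mat n n f hi hj
  rw [e] at h3 h4
  rw [List.getD_eq_getElem _ _ h1] at h3
  rw [List.getD_eq_getElem _ _ h2] at h4
  rw [h3, h4]

open Classical in
lemma graphCode_eq {n : ℕ} (G : SimpleGraph (Fin n)) : graphCode G =
    mat n n fun i j => if h : i < n ∧ j < n then decide (G.Adj ⟨i, h.1⟩ ⟨j, h.2⟩) else false := by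
  unfold graphCode mat
  rw [← List.map_coe_finRange_eq_range, List.flatMap_map]
  refine List.flatMap_congr fun i _ => ?_
  rw [List.map_map]
  refine List.map_congr_left fun j _ => ?_
  simp

/-- The base point of hyperbolic space. -/
noncomputable def hyp0 (d : ℕ) : Hyp d := liftH d fun _ => 0

lemma ubg_iff (d : ℕ) (x : List Bool) : UBG d x = true ↔ ∃ n : ℕ, x.length = n * n ∧
    (∀ i < n, x.getD (i * n + i) false = false) ∧ ∃ R : ℝ, 1 < R ∧ ∃ c : ℕ → Hyp d,
      ∀ i < n, ∀ j < n, i ≠ j → (x.getD (i * n + j) false = true ↔ hB (c i) (c j) ≤ R) := by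
  classical
  unfold UBG
  rw [decide_eq_true_iff]
  constructor
  · rintro ⟨n, G, rfl, r, hr, c, hc⟩
    rw [graphCode_eq]
    refine ⟨n, length_mat _ _ _, fun i hi => ?_, Real.cosh (2 * r),
      Real.one_lt_cosh.2 (by positivity), fun i => if h : i < n then c ⟨i, h⟩ else hyp0 d,
      fun i hi j hj hij => ?_⟩
    · rw [getD_mat _ _ _ hi hi]; simp [hi]
    · rw [getD_mat _ _ _ hi hj]
      simp only [hi, hj, and_self, dif_pos, decide_eq_true_iff]
      rw [hc _ _ (by simpa using hij), hdist_le_iff _ _ hr]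
  · rintro ⟨n, hx, hd, R, hR, c, hc⟩
    obtain ⟨r, hr, rfl⟩ := exists_radius hR
    let G : SimpleGraph (Fin n) :=
      { Adj := fun i j => x.getD (i * n + j) false = true
        symm := ⟨fun i j h => by
          by_cases hij : (i : ℕ) = j
          · rwa [hij, ← hij] at h ⊢
          · rw [hc _ j.2 _ i.2 (Ne.symm hij), hB_comm]
            exact (hc _ i.2 _ j.2 hij).1 h⟩
        loopless := ⟨fun i h => by simp only [hd i i.2, Bool.false_eq_true] at h⟩ }
    refine ⟨n, G, ?_, r, hr, fun i => c i, fun i j hij => ?_⟩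
    · rw [graphCode_eq]
      refine (eq_mat hx fun i hi j hj => ?_).symm
      simp [hi, hj, G]
    · rw [hdist_le_iff _ _ hr]
      exact hc _ i.2 _ j.2 (fun h => hij (Fin.ext h))

/-- All bit strings of a given length. -/
def allBits : ℕ → List (List Bool)
  | 0 => [[]]
  | k + 1 => (allBits k).flatMap fun τ => [true :: τ, false :: τ]

lemma mem_allBits {k : ℕ} {τ : List Bool} : τ ∈ allBits k ↔ τ.length = k := by
  induction k generalizing τ with
  | zero => simp [allBits]
  | succ k ih =>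
    simp only [allBits, List.mem_flatMap, List.mem_cons, List.not_mem_nil, or_false]
    constructor
    · rintro ⟨σ, hσ, rfl | rfl⟩ <;> simp [ih.1 hσ]
    · intro h
      cases τ with
      | nil => simp at h
      | cons b σ => exact ⟨σ, ih.2 (by simpa using h), by cases b <;> simp⟩

/-- Copies of points and lines. -/
abbrev Cp := Code × Bool × Bool

/-- Lifted points. -/
abbrev PP := Cp × List Bool

/-- Lifted hyperplanes. -/
abbrev LL := Cp × ℕ

/-- Vertices. -/
abbrev Vx := ℕ × PP × LL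

/-- All pairs of signs. -/
def bb : List (Bool × Bool) := [(true, true), (true, false), (false, true), (false, false)]

lemma mem_bb (s : Bool × Bool) : s ∈ bb := by
  rcases s with ⟨_ | _, _ | _⟩ <;> simp [bb]

/-- Dummy copy. -/
def dcp : Cp := ((0, 0, 0, dq), true, true)

/-- The lifted matrix. -/
def liftM (p : PP) (l : LL) : Bool := if l.2 = 0 then strictM p.1 l.1 else p.2.getD (l.2 - 1) false

/-- The lifted points. -/
def ppList (m : ℕ) (L : List Quad) : List PP :=
  (ptList L).flatMap fun p => bb.flatMap fun s => (allBits m).map fun τ => ((p, s), τ)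

/-- The lifted hyperplanes. -/
def llList (m : ℕ) (L : List Quad) : List LL :=
  ((lnList L).flatMap fun l => bb.map fun s => ((l, s), 0)) ++
    (List.range m).map fun i => (dcp, i + 1)

lemma mem_ppList {m : ℕ} {L : List Quad} {p : PP} :
    p ∈ ppList m L ↔ p.1.1 ∈ ptList L ∧ p.2.length = m := by
  simp only [ppList, List.mem_flatMap, List.mem_map, mem_allBits]
  constructor
  · rintro ⟨a, ha, s, -, τ, hτ, rfl⟩; exact ⟨ha, hτ⟩
  · rintro ⟨h1, h2⟩; exact ⟨p.1.1, h1, p.1.2, mem_bb _, p.2, h2, rfl⟩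

lemma mem_llList {m : ℕ} {L : List Quad} {l : LL} :
    l ∈ llList m L ↔ (l.1.1 ∈ lnList L ∧ l.2 = 0) ∨ ∃ i < m, l = (dcp, i + 1) := by
  simp only [llList, List.mem_append, List.mem_flatMap, List.mem_map, List.mem_range]
  refine or_congr ?_ ?_
  · constructor
    · rintro ⟨a, ha, s, -, rfl⟩; exact ⟨ha, rfl⟩
    · rintro ⟨h1, h2⟩; exact ⟨l.1.1, h1, l.1.2, mem_bb _, by rw [← h2]⟩
  · constructor
    · rintro ⟨i, hi, rfl⟩; exact ⟨i, hi, rfl⟩
    · rintro ⟨i, hi, rfl⟩; exact ⟨i, hi, rfl⟩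

/-- The vertex list. -/
def vxList (m : ℕ) (L : List Quad) : List Vx :=
  (ppList m L).map (fun p => (0, p, (dcp, 0))) ++
    ((llList m L).map (fun l => (1, (dcp, []), l)) ++ (llList m L).map (fun l => (2, (dcp, []), l)))

/-- Adjacency of vertices. -/
def adjV (v w : Vx) : Bool :=
  if v.1 = w.1 then true
  else if v.1 = 0 then (if w.1 = 1 then liftM v.2.1 w.2.2 else !liftM v.2.1 w.2.2)
  else if w.1 = 0 then (if v.1 = 1 then liftM w.2.1 v.2.2 else !liftM w.2.1 v.2.2)
  else false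

/-- Dummy vertex. -/
def dvx : Vx := (0, (dcp, []), (dcp, 0))

/-- The adjacency matrix of a vertex list. -/
def bitsV (V : List Vx) : List Bool :=
  mat V.length V.length fun i j => decide (i ≠ j) && adjV (V.getD i dvx) (V.getD j dvx)

lemma ubg_bitsV (d : ℕ) (V : List Vx) : UBG d (bitsV V) = true ↔ ∃ R : ℝ, 1 < R ∧
    ∃ c : ℕ → Hyp d, ∀ i < V.length, ∀ j < V.length, i ≠ j →
      (adjV (V.getD i dvx) (V.getD j dvx) = true ↔ hB (c i) (c j) ≤ R) := by
  rw [ubg_iff]
  constructor
  · rintro ⟨n, hn, -, R, hR, c, hc⟩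
    have e : n = V.length := by
      rw [bitsV, length_mat] at hn
      exact (Nat.mul_self_inj.1 hn).symm
    subst e
    refine ⟨R, hR, c, fun i hi j hj hij => ?_⟩
    rw [← hc i hi j hj hij, bitsV, getD_mat _ _ _ hi hj]
    simp [hij]
  · rintro ⟨R, hR, c, hc⟩
    refine ⟨V.length, length_mat _ _ _, fun i hi => ?_, R, hR, c, fun i hi j hj hij => ?_⟩
    · rw [bitsV, getD_mat _ _ _ hi hi]; simp
    · rw [← hc i hi j hj hij, bitsV, getD_mat _ _ _ hi hj]
      simp [hij]

lemma mem_vxList {m : ℕ} {L : List Quad} {v : Vx} : v ∈ vxList m L ↔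
    (∃ p ∈ ppList m L, (0, p, (dcp, 0)) = v) ∨ (∃ l ∈ llList m L, (1, (dcp, []), l) = v) ∨
      ∃ l ∈ llList m L, (2, (dcp, []), l) = v := by
  simp only [vxList, List.mem_append, List.mem_map]

theorem ubg_of_qnear (m : ℕ) {L : List Quad} (hG : ∀ q ∈ L, QGen q) (h : QNear L) :
    UBG (m + 2) (bitsV (vxList m L)) = true := by
  obtain ⟨y1, y2, α, ν, h1⟩ := affine_of_qnear hG h
  obtain ⟨K, hK⟩ : ∃ K : ℝ, ∀ p ∈ ppList m L, |y1 p.1| < K := by
    obtain ⟨K, hK⟩ := ((List.finite_toSet (ppList m L)).image fun p => |y1 p.1|).bddAbove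
    exact ⟨K + 1, fun p hp => by linarith [hK ⟨p, hp, rfl⟩]⟩
  obtain ⟨c, a, b, h2, h3, h4⟩ := ballReal_of_affine (m + 1) (List.finite_toSet (ppList m L))
    (List.finite_toSet (llList m L)) (M := liftM) (fun p => y1 p.1)
    (fun p i => if i = 0 then y2 p.1 else pm (p.2.getD (i - 1) false))
    (fun l => if l.2 = 0 then α l.1 else 0)
    (fun l i => if l.2 = 0 then (if i = 0 then ν l.1 else 0) else if i = l.2 then K else 0)
    (by
      intro p hp l hl
      rcases mem_llList.1 hl with ⟨h2, h3⟩ | ⟨i, hi, rfl⟩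
      · simpa [liftM, h3, Finset.sum_range_succ'] using h1 p.1 (mem_ppList.1 hp).1 l.1 h2
      · have h2 := abs_lt.1 (hK p hp)
        rw [Finset.sum_eq_single (i + 1)]
        · simp only [liftM, Nat.add_one_ne_zero, if_false, if_true, Nat.add_sub_cancel]
          cases p.2.getD i false <;> simp [pm] <;> linarith
        · intro j _ hj; simp [hj]
        · intro hj; simp at hj; omega)
  rw [ubg_bitsV]
  refine ⟨5 / 3, by norm_num, fun i =>
    (fun v : Vx => if v.1 = 0 then c v.2.1 else if v.1 = 1 then a v.2.2 else b v.2.2)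
      ((vxList m L).getD i dvx), fun i hi j hj _ => ?_⟩
  have hv := getD_mem _ dvx hi
  have hw := getD_mem _ dvx hj
  beta_reduce
  generalize (vxList m L).getD i dvx = v at hv ⊢
  generalize (vxList m L).getD j dvx = w at hw ⊢
  rcases mem_vxList.1 hv with ⟨p, hp, rfl⟩ | ⟨l, hl, rfl⟩ | ⟨l, hl, rfl⟩ <;>
    rcases mem_vxList.1 hw with ⟨p', hp', rfl⟩ | ⟨l', hl', rfl⟩ | ⟨l', hl', rfl⟩ <;>
    simp only [adjV, if_true, if_false, zero_ne_one, one_ne_zero, OfNat.zero_ne_ofNat,
      OfNat.ofNat_ne_zero, OfNat.ofNat_ne_one, OfNat.one_ne_ofNat, true_iff, Bool.false_eq_true,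
      false_iff, not_le]
  · exact h2 p hp p' hp'
  · exact (h4 p hp l' hl').1.symm
  · exact (h4 p hp l' hl').2.symm
  · rw [hB_comm]; exact (h4 p' hp' l hl).1.symm
  · exact (h3 l hl l' hl').1
  · exact (h3 l hl l' hl').2.2
  · rw [hB_comm]; exact (h4 p' hp' l hl).2.symm
  · rw [hB_comm]; exact (h3 l' hl' l hl).2.2
  · exact (h3 l hl l' hl').2.1

theorem qsato_of_ubg (m : ℕ) {L : List Quad} (h : UBG (m + 2) (bitsV (vxList m L)) = true) :
    QSatO L := by
  rw [ubg_bitsV] at h
  obtain ⟨R, -, c, hc⟩ := h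
  have hidx : ∀ v : Vx, ∃ i, v ∈ vxList m L →
      i < (vxList m L).length ∧ (vxList m L).getD i dvx = v := by
    intro v
    by_cases hv : v ∈ vxList m L
    · obtain ⟨i, hi⟩ := exists_getD _ dvx hv
      exact ⟨i, fun _ => hi⟩
    · exact ⟨0, fun h => absurd h hv⟩
  choose ι hι using hidx
  have key : ∀ v ∈ vxList m L, ∀ w ∈ vxList m L, v ≠ w →
      (adjV v w = true ↔ hB (c (ι v)) (c (ι w)) ≤ R) := by
    intro v hv w hw hvw
    have h1 := hc _ (hι v hv).1 _ (hι w hw).1 (fun h => hvw (by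
      rw [← (hι v hv).2, ← (hι w hw).2, h]))
    rwa [(hι v hv).2, (hι w hw).2] at h1
  have key2 : ∀ p ∈ ppList m L, ∀ l ∈ llList m L, sgn (liftM p l)
      (bis (c (ι (1, (dcp, []), l))) (c (ι (2, (dcp, []), l))) (c (ι (0, p, (dcp, 0)))).1) := by
    intro p hp l hl
    have hv : ((0, p, (dcp, 0)) : Vx) ∈ vxList m L := mem_vxList.2 (Or.inl ⟨p, hp, rfl⟩)
    have h1 := key _ hv (1, (dcp, []), l) (mem_vxList.2 (Or.inr (Or.inl ⟨l, hl, rfl⟩))) (by simp)
    have h2 := key _ hv (2, (dcp, []), l) (mem_vxList.2 (Or.inr (Or.inr ⟨l, hl, rfl⟩))) (by simp)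
    refine sgn_bis (R := R) ?_ ?_
    · rw [← h1]; simp [adjV]
    · rw [← h2]; simp [adjV]
  obtain ⟨U, V, hUV⟩ := dim_reduce (SP := {p : Cp | p.1 ∈ ptList L}) (SL := {l : Cp | l.1 ∈ lnList L})
    strictM ⟨dcp, mem_ptList.2 (Or.inl rfl)⟩ m (ℝ × (Fin (m + 2) → ℝ)) (by simp; omega)
    (fun p τ => (c (ι (0, (p, τ), (dcp, 0)))).1)
    (fun l => bis (c (ι (1, (dcp, []), (l, 0)))) (c (ι (2, (dcp, []), (l, 0)))))
    (fun i => bis (c (ι (1, (dcp, []), (dcp, i + 1)))) (c (ι (2, (dcp, []), (dcp, i + 1)))))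
    (fun p hp τ hτ => ⟨fun l hl => by
      simpa [liftM] using key2 (p, τ) (mem_ppList.2 ⟨hp, hτ⟩) (l, 0) (mem_llList.2 (Or.inl ⟨hl, rfl⟩)),
      fun i hi => by
      simpa [liftM] using key2 (p, τ) (mem_ppList.2 ⟨hp, hτ⟩) (dcp, i + 1)
        (mem_llList.2 (Or.inr ⟨i, hi, rfl⟩))⟩)
  exact qsato_of_strict U V fun p hp l hl => hUV p hp l hl

/-- The whole reduction from basic quadratic systems. -/
def qsysToBits (m : ℕ) (L : List QC) (s : ℕ) : List Bool :=
  bitsV (vxList m (toQuad (toNear (toStrict L s))))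

theorem qsat_iff_ubg (m : ℕ) {L : List QC} {s : ℕ} (hb : QBound L s) :
    QSat L ↔ UBG (m + 2) (qsysToBits m L s) = true :=
  ⟨fun h => ubg_of_qnear m (qgen_toQuad _)
      (qnear_of_nnear (toNear_of_ssat (toStrict_of_qsat hb h))),
    fun h => qsat_of_toStrict hb (ssat_of_toNear (nsat_of_qsato (qsato_of_ubg m h)))⟩

end Pool.Agent.MP_485bb6_lc
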