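import Mathlib
import Pool.Agent.MP_485bb6_lc.Emit
import Pool.Agent.MP_485bb6_lc.PTgeo

/-! ETR reduces to the recognition problem in polynomial time. -/

namespace Pool.Agent.MP_485bb6_lc

open Pool.Agent.MP_2e8011_lc

@[fun_prop] theorem pt_tstep :
    PT fun p : (Bool × List Bool × List (List Bool)) × Bool => tstep p.1 p.2 := by
  unfold tstep; fun_prop

lemma tstep_bound (l : List Bool) (s : Bool × List Bool × List (List Bool)) :
    2 * sz (l.foldl tstep s).2.1 + sz (l.foldl tstep s).2.2 ≤
      2 * sz s.2.1 + sz s.2.2 + 6 * l.length := by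
  induction l generalizing s with
  | nil => simp
  | cons b l ih =>
    rw [List.foldl_cons, List.length_cons]
    refine (ih _).trans ?_
    unfold tstep
    split_ifs <;> simp [sz_append] <;> omega

@[fun_prop] theorem pt_parseTok : PT parseTok := by
  unfold parseTok
  refine (PT.foldl (f := fun _ s b => tstep s b) (by fun_prop) PT.id (PT.const _)
    (B := fun x => 4 + 6 * x.length) ((PB.const 4).add ((PB.const 6).mul PT.id.pb_length))
    (fun x k => ?_)).snd.snd
  have h := tstep_bound (x.take k) (false, [], [])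
  have h2 : (x.take k).length ≤ x.length := by simp
  generalize (x.take k).foldl tstep (false, [], []) = s at h ⊢
  obtain ⟨a, b, c⟩ := s
  simp only [sz_prod, sz_bool, sz_nil] at h ⊢
  omega

@[fun_prop] theorem pt_unparse : PT unparse := by unfold unparse; fun_prop

@[fun_prop] theorem pt_opTok : PT opTok := by
  have : PT fun k : ℕ => false :: (List.range k).map fun _ => true := by fun_prop
  exact this.congr fun k => by simp [opTok]

@[fun_prop] theorem pt_kind : PT kind := by unfold kind; fun_prop
@[fun_prop] theorem pt_arity : PT arity := by unfold arity; fun_prop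
@[fun_prop] theorem pt_firstPos : PT fun p : List (List Bool) × List Bool => firstPos p.1 p.2 := by
  unfold firstPos; fun_prop
@[fun_prop] theorem pt_newIdx : PT fun p : List (List Bool) × ℕ => newIdx p.1 p.2 := by
  unfold newIdx; fun_prop
@[fun_prop] theorem pt_okStep : PT fun p : ℕ × List (Bool × ℕ) => okStep p.1 p.2 := by
  unfold okStep; fun_prop
@[fun_prop] theorem pt_cstep :
    PT fun p : List (List Bool) × (Bool × List (Bool × ℕ)) × ℕ => cstep p.1 p.2.1 p.2.2 := by
  unfold cstep; fun_prop

lemma firstPos_le (toks : List (List Bool)) (t : List Bool) : firstPos toks t ≤ toks.length := by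
  unfold firstPos
  have : ∀ i ∈ (List.range toks.length).filter fun i => decide (toks.getD i [] = t),
      i ≤ toks.length := fun i hi => (List.mem_range.1 (List.mem_filter.1 hi).1).le
  generalize (List.range toks.length).filter (fun i => decide (toks.getD i [] = t)) = l at this ⊢
  cases l with
  | nil => simp
  | cons a l => exact this a (by simp)

lemma Cst_bound (toks : List (List Bool)) (k : ℕ) :
    sz (Cst toks k).2 ≤ k * (16 * (k + toks.length) + 7) := by
  induction k with
  | zero => simp [Cst]
  | succ k ih =>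
    rw [Cst_succ]
    simp only [cstep, sz_cons, sz_prod, sz_bool, sz_nat]
    have h1 := sz_drop_le (Cst toks k).2 (arity (kind (toks.getD k [])))
    have h2 : newIdx toks k ≤ 8 * (k + toks.length) := by
      unfold newIdx
      have := firstPos_le toks (toks.getD k [])
      split_ifs <;> omega
    nlinarith

@[fun_prop] theorem pt_Cst : PT fun p : List (List Bool) × ℕ => Cst p.1 p.2 := by
  have hf : PT fun q : (List (List Bool) × ℕ) × (Bool × List (Bool × ℕ)) × ℕ =>
      cstep q.1.1 q.2.1 q.2.2 :=
    pt_cstep.comp (f := fun q : (List (List Bool) × ℕ) × (Bool × List (Bool × ℕ)) × ℕ =>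
      (q.1.1, q.2.1, q.2.2)) (by fun_prop)
  have hl : PT fun p : List (List Bool) × ℕ => List.range p.2 := by fun_prop
  have hB : PT fun p : List (List Bool) × ℕ => 3 + p.2 * (16 * (p.2 + p.1.length) + 7) := by
    fun_prop
  refine (PT.foldl (f := fun (p : List (List Bool) × ℕ) s k => cstep p.1 s k) hf hl
    (PT.const (true, [])) hB.pb (fun p k => ?_)).congr fun p => rfl
  rw [List.take_range]
  have h := Cst_bound p.1 (min k p.2)
  unfold Cst at h
  generalize (List.range (min k p.2)).foldl (cstep p.1) (true, []) = s at h ⊢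
  obtain ⟨a, b⟩ := s
  simp only [sz_prod, sz_bool] at h ⊢
  have h1 : min k p.2 ≤ p.2 := min_le_right _ _
  have h2 : min k p.2 * (16 * (min k p.2 + p.1.length) + 7) ≤
      p.2 * (16 * (p.2 + p.1.length) + 7) := by gcongr
  omega

@[fun_prop] theorem pt_emit : PT fun p : ℕ × ℕ × ℕ × ℕ => emit p.1 p.2.1 p.2.2.1 p.2.2.2 := by
  unfold emit; fun_prop
@[fun_prop] theorem pt_emitAt : PT fun p : List (List Bool) × ℕ => emitAt p.1 p.2 := by
  unfold emitAt; fun_prop
@[fun_prop] theorem pt_toQ : PT toQ := by unfold toQ; fun_prop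
@[fun_prop] theorem pt_bitsToQ : PT bitsToQ := by unfold bitsToQ; fun_prop

lemma qbound_sz (L : List QC) : QBound L (sz L + 1) := by
  refine ⟨by omega, (length_le_sz L).trans (by omega), fun q hq => ?_⟩
  have h := sz_le_of_mem hq
  obtain ⟨a, b, c, e⟩ := q
  simp only [sz_prod, sz_nat] at h ⊢
  omega

theorem etr_reduces (m : ℕ) : N793a5b8e.ManyOneReducible ETR (UBG (m + 2)) := by
  refine ⟨fun x => qsysToBits m (bitsToQ x) (sz (bitsToQ x) + 1), PT.isPolyTime_bits ?_, fun x => ?_⟩
  · exact (pt_qsysToBits m).comp (f := fun x => (bitsToQ x, sz (bitsToQ x) + 1)) (by fun_prop)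
  · rw [Bool.eq_iff_iff, etr_iff_qsat]
    exact qsat_iff_ubg m (qbound_sz _)

end Pool.Agent.MP_485bb6_lc
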